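import Pool.Agent.X270.NT.EllQ

set_option autoImplicit false
set_option linter.unusedSectionVars false

open scoped Matrix ENNReal Pointwise InnerProductSpace
open Filter Topology

namespace Pool.Agent.X270.NT

open Pool.Agent.H496R3.ZS (Ell dl dl_apply inner_dl_left orthonormal_dl permRep permIso IsAmenable
  integ integ_apply permRep_apply norm_integ_le)
open Pool.Agent.H919R4.ZS (FinRes toRed)
open Pool.Agent.H919R4.AS (Mult)

noncomputable section

variable {G : Type} [Group G] {Z : Type} [MulAction G Z]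

/-- the trivial multiplier -/
def trivM (G Z : Type) [Group G] [MulAction G Z] : Mult G Z where
  φ _ _ := 1
  norm_one _ _ := norm_one
  mul _ _ _ := (mul_one 1).symm

lemma trivM_integ (x : MonoidAlgebra ℂ G) : (trivM G Z).integ x = integ G Z x := by
  have h : (trivM G Z).rep = permRep G Z := by
    refine MonoidHom.ext fun g => ContinuousLinearMap.ext fun f => ?_
    ext z
    rw [Mult.rep_apply, permRep_apply]
    exact one_mul _
  rw [Mult.integ, h]
  rfl

lemma integ_le_of_thin {S : Set G} (hSf : S.Finite) (hS : S⁻¹ = S) {ε : ℝ}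
    (hthin : Thin S ε Z) (n : ℕ) (x : MonoidAlgebra ℂ G)
    (hx : (x.coeff.support : Set G) ⊆ S ^ n) :
    ‖integ G Z x‖ ≤ Real.exp (ε * n / 2) * redNorm x := by
  rw [← trivM_integ, redNorm_eq]
  exact norm_minteg_le (trivM G Z) hSf hS hthin n x hx

lemma integ_le_of_amenable {S : Set G} {ε : ℝ} (hε : 0 < ε)
    (hZ : ∀ z : Z, IsAmenable (MulAction.stabilizer G z)) (n : ℕ) (x : MonoidAlgebra ℂ G) :
    ‖integ G Z x‖ ≤ Real.exp (ε * n / 2) * redNorm x := by
  rw [redNorm_eq]
  refine (norm_integ_le hZ x).trans ?_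
  refine le_mul_of_one_le_left (norm_nonneg _) (Real.one_le_exp (by positivity))

/-- permutation representations on `ℓ^q(Z)`, `q` near `2` -/
theorem nearTempered_of (S : Set G) (hSf : S.Finite) (hS : S⁻¹ = S) (ε : ℝ) (hε : 0 < ε)
    (hε1 : ε < 1) (p : ℝ≥0∞) [hp1 : Fact (1 ≤ p)] (hp : |p.toReal - 2| < ε)
    (h : (∀ z : Z, IsAmenable (MulAction.stabilizer G z)) ∨ Thin S ε Z) :
    NearTempered S ε (ellRep G Z p) := by
  refine nearTempered_ell S ε hε hε1 p hp fun n x hx => ?_
  rcases h with h | h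
  · exact integ_le_of_amenable (S := S) hε h n x
  · exact integ_le_of_thin hSf hS h n x hx

theorem final (X : FinRes G) (p : ℕ)
    (h : (∀ (S : Set G) (ε : ℝ), S.Finite → 0 < ε →
        ∃ (V : Type) (_ : NormedAddCommGroup V) (_ : NormedSpace ℂ V) (_ : CompleteSpace V)
          (π : G →* (V →L[ℂ] V)), NearTempered S ε π ∧
          ∃ i ≤ p, Nontrivial (cohomologyV X π i) ∨ Nontrivial (homologyV X π i)) ∨
      (∀ (S : Set G) (ε : ℝ), S.Finite → 0 < ε →
        ∃ (Z : Type) (_ : MulAction G Z) (q : ℝ≥0∞) (_ : Fact (1 ≤ q)), |q.toReal - 2| < ε ∧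
          ((∀ z : Z, IsAmenable (MulAction.stabilizer G z)) ∨ Thin S ε Z) ∧
          ∃ i ≤ p, Nontrivial (cohomologyV X (ellRep G Z q) i) ∨
            Nontrivial (homologyV X (ellRep G Z q) i))) :
    ∃ i ≤ p, Nontrivial (X.homology (toRed G) i) := by
  by_contra hcon
  push Not at hcon
  obtain ⟨S, ε, hSf, hS, hε, hε1, hrob⟩ := robust X p (fun j hj => hcon j hj)
  rcases h with h | h
  · obtain ⟨V, _, _, _, π, hπ, i, hi, hnt⟩ := h S ε hSf hε
    obtain ⟨h1, h2⟩ := hrob V π hπ i hi
    rcases hnt with hnt | hnt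
    · exact not_nontrivial_iff_subsingleton.2 h1 hnt
    · exact not_nontrivial_iff_subsingleton.2 h2 hnt
  · obtain ⟨Z, _, q, _, hq, hZ, i, hi, hnt⟩ := h S ε hSf hε
    obtain ⟨h1, h2⟩ := hrob _ (ellRep G Z q) (nearTempered_of S hSf hS ε hε hε1 q hq hZ) i hi
    rcases hnt with hnt | hnt
    · exact not_nontrivial_iff_subsingleton.2 h1 hnt
    · exact not_nontrivial_iff_subsingleton.2 h2 hnt

end

end Pool.Agent.X270.NT
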