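import Pool.Agent.X270.NT.StmtW

/-!
Weighted cohomology of a group `G` with values in the integer valued functions on a coset space
which are square summable with respect to a weight, computed from a finite free resolution.
-/

set_option autoImplicit false

open scoped Pointwise

namespace Pool.Agent.X270.NT.I

open Pool.Agent.H919R4.ZS (FinRes)
open Pool.Agent.H496R3.ZS (IsAmenable)
open Pool.Agent.X270.NT.St (Thin)
open Pool.Agent.X270.NT.W (SlowWeight)

variable {G : Type} [Group G] {Z : Type} [MulAction G Z]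

/-- The left action of `a = ∑ a_g g ∈ ℤ[G]` on integer valued functions:
`(a f)(z) = ∑ a_g f(g⁻¹ z)`. -/
noncomputable def actZ (a : MonoidAlgebra ℤ G) (f : Z → ℤ) (z : Z) : ℤ :=
  ∑ g ∈ a.coeff.support, a.coeff g * f (g⁻¹ • z)

variable (X : FinRes G)

/-- The coboundary `(v_j) ↦ (∑_j d_kj · v_j)_k` on tuples of functions `Z → ℤ`, where the `d_kj`
are the entries of the differential of the resolution `X`. -/
noncomputable def cobd (i : ℕ) (v : Fin (X.n i) → Z → ℤ) : Fin (X.n (i + 1)) → Z → ℤ :=
  fun k z => ∑ j, actZ (X.d i k j) (v j) z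

/-- The functions `v j` are square summable with respect to the weight `μ`. -/
def Sq (μ : Z → ℝ) {m : ℕ} (v : Fin m → Z → ℤ) : Prop :=
  ∀ j, Summable fun z => (v j z : ℝ) ^ 2 * μ z

/-- There is an integer valued square summable cocycle of degree `i` which is not the coboundary
of an integer valued square summable cochain (not zero, if `i = 0`). -/
def CohNonzero (μ : Z → ℝ) : ℕ → Prop
  | 0 => ∃ v : Fin (X.n 0) → Z → ℤ, Sq μ v ∧ cobd X 0 v = 0 ∧ v ≠ 0
  | i + 1 => ∃ v : Fin (X.n (i + 1)) → Z → ℤ, Sq μ v ∧ cobd X (i + 1) v = 0 ∧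
      ∀ w, Sq μ w → cobd X i w ≠ v

/-- There are a subgroup `C` of `G`, amenable or of exponent at most `ε` with respect to `S`, and
a weight `μ` on `G/C` of infinite total mass which varies under `S` at most by the factor `e^ε`,
with nonzero integral weighted cohomology of `G` in some degree at most `2`. -/
def SeenByIntegers (S : Set G) (ε : ℝ) : Prop :=
  ∃ (C : Subgroup G) (μ : G ⧸ C → ℝ), SlowWeight S ε μ ∧ ¬ Summable μ ∧
    (IsAmenable C ∨ Thin S ε (G ⧸ C)) ∧ ∃ i ≤ 2, CohNonzero X μ i

end Pool.Agent.X270.NT.I
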