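import Pool.Agent.X270.NT.Tw
import Pool.Agent.X270.NT.StmtI

set_option autoImplicit false
set_option linter.unusedSectionVars false

open scoped Matrix ENNReal Pointwise
open Filter Topology

namespace Pool.Agent.X270.NT.T

open Pool.Agent.H496R3.ZS (IsAmenable)
open Pool.Agent.H919R4.ZS (FinRes toRed eps eps_add eps_neg eps_sub eps_smul eps_zsmul eps_single
  eps_d exists_lift Th Th_apply Th_smul augm_Th augm augm_single d_mul_d ee norm_ee ee_add
  ee_sub_one ee_int ee_eq_one exists_log)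
open Pool.Agent.H919R4.AS (Mult)
open Pool.Agent.X270.NT.W (SqF Sq)

noncomputable section

variable {G : Type} [Group G] {Z : Type} [MulAction G Z]

/-- twisted translations on functions -/
def fRhoT (m : Mult G Z) : G →* Module.End ℤ (Z → ℂ) where
  toFun g :=
    { toFun := fun f z => m.φ g z * f (g⁻¹ • z)
      map_add' := fun f f' => funext fun z => mul_add _ _ _
      map_smul' := fun c f => funext fun z => by
        change m.φ g z * (c • f (g⁻¹ • z)) = c • (m.φ g z * f (g⁻¹ • z))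
        exact mul_smul_comm _ _ _ }
  map_one' := by
    refine LinearMap.ext fun f => funext fun z => ?_
    change m.φ 1 z * f ((1 : G)⁻¹ • z) = f z
    rw [m.one, inv_one, one_smul, one_mul]
  map_mul' g h := by
    refine LinearMap.ext fun f => funext fun z => ?_
    change m.φ (g * h) z * f ((g * h)⁻¹ • z) = m.φ g z * (m.φ h (g⁻¹ • z) * f (h⁻¹ • g⁻¹ • z))
    rw [m.mul, mul_inv_rev, mul_smul, mul_assoc]

/-- the twisted action of the integral group ring on functions -/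
def fT (m : Mult G Z) : MonoidAlgebra ℤ G →ₐ[ℤ] Module.End ℤ (Z → ℂ) :=
  MonoidAlgebra.lift ℤ _ G (fRhoT m)

lemma fT_apply (m : Mult G Z) (a : MonoidAlgebra ℤ G) (f : Z → ℂ) (z : Z) :
    fT m a f z = actT m a f z := by
  rw [fT, MonoidAlgebra.lift_apply, Finsupp.sum, actT, LinearMap.sum_apply, Finset.sum_apply]
  rfl

lemma fT_single (m : Mult G Z) (g : G) (f : Z → ℂ) (z : Z) :
    fT m (MonoidAlgebra.single g 1) f z = m.φ g z * f (g⁻¹ • z) := by
  rw [fT, MonoidAlgebra.lift_single, one_smul]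
  rfl

variable (X : FinRes G)

lemma cobdT_fT (m : Mult G Z) (i : ℕ) (v : Fin (X.n i) → Z → ℂ) (k : Fin (X.n (i + 1))) :
    cobdT m X i v k = ∑ j, fT m (X.d i k j) (v j) := by
  funext z
  rw [Finset.sum_apply]
  exact Finset.sum_congr rfl fun j _ => (fT_apply _ _ _ _).symm

lemma cobdT_cobdT (m : Mult G Z) (i : ℕ) (v : Fin (X.n i) → Z → ℂ) :
    cobdT m X (i + 1) (cobdT m X i v) = 0 := by
  funext k
  rw [cobdT_fT]
  have h1 : ∀ j, fT m (X.d (i + 1) k j) (cobdT m X i v j) =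
      ∑ l, fT m (X.d (i + 1) k j * X.d i j l) (v l) := by
    intro j
    rw [cobdT_fT, map_sum]
    refine Finset.sum_congr rfl fun l _ => ?_
    rw [map_mul]
    rfl
  rw [Finset.sum_congr rfl fun j _ => h1 j, Finset.sum_comm]
  refine Finset.sum_eq_zero fun l _ => ?_
  have h2 : ∑ j, fT m (X.d (i + 1) k j * X.d i j l) (v l) =
      fT m ((X.d (i + 1) * X.d i) k l) (v l) := by
    rw [Matrix.mul_apply, map_sum, LinearMap.sum_apply]
  rw [h2, d_mul_d, Matrix.zero_apply, map_zero]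
  rfl

lemma cobdT_sub (m : Mult G Z) (i : ℕ) (v w : Fin (X.n i) → Z → ℂ) :
    cobdT m X i (v - w) = cobdT m X i v - cobdT m X i w := by
  funext k
  rw [Pi.sub_apply, cobdT_fT, cobdT_fT, cobdT_fT, ← Finset.sum_sub_distrib]
  exact Finset.sum_congr rfl fun j _ => map_sub _ _ _

/-- the pairing of chains and tuples of functions -/
def prT (m : Mult G Z) {n : ℕ} (y : Fin n → MonoidAlgebra ℤ G) (u : Fin n → Z → ℂ) : Z → ℂ :=
  ∑ j, fT m (y j) (u j)

variable (m : Mult G Z)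

lemma prT_add {n : ℕ} (x y : Fin n → MonoidAlgebra ℤ G) (u : Fin n → Z → ℂ) :
    prT m (x + y) u = prT m x u + prT m y u := by
  simp only [prT, Pi.add_apply, map_add, LinearMap.add_apply, Finset.sum_add_distrib]

lemma prT_neg {n : ℕ} (x : Fin n → MonoidAlgebra ℤ G) (u : Fin n → Z → ℂ) :
    prT m (-x) u = - prT m x u := by
  simp only [prT, Pi.neg_apply, map_neg, LinearMap.neg_apply, Finset.sum_neg_distrib]

lemma prT_sub {n : ℕ} (x y : Fin n → MonoidAlgebra ℤ G) (u : Fin n → Z → ℂ) :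
    prT m (x - y) u = prT m x u - prT m y u := by
  simp only [prT, Pi.sub_apply, map_sub, LinearMap.sub_apply, Finset.sum_sub_distrib]

lemma prT_zsmul {n : ℕ} (c : ℤ) (y : Fin n → MonoidAlgebra ℤ G) (u : Fin n → Z → ℂ) :
    prT m (c • y) u = c • prT m y u := by
  simp only [prT, Pi.smul_apply, map_zsmul, LinearMap.smul_apply, Finset.smul_sum]

lemma prT_smul {n : ℕ} (a : MonoidAlgebra ℤ G) (y : Fin n → MonoidAlgebra ℤ G)
    (u : Fin n → Z → ℂ) : prT m (a • y) u = fT m a (prT m y u) := by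
  rw [prT, prT, map_sum]
  refine Finset.sum_congr rfl fun j _ => ?_
  rw [Pi.smul_apply, smul_eq_mul, map_mul]
  rfl

lemma prT_single {n : ℕ} (j : Fin n) (u : Fin n → Z → ℂ) :
    prT m (Pi.single j (1 : MonoidAlgebra ℤ G)) u = u j := by
  rw [prT, Finset.sum_eq_single j]
  · rw [Pi.single_eq_same, map_one]; rfl
  · intro l _ hl
    rw [Pi.single_eq_of_ne hl, map_zero]; rfl
  · intro h; exact absurd (Finset.mem_univ j) h

lemma prT_vecMul (i : ℕ) (x : Fin (X.n (i + 1)) → MonoidAlgebra ℤ G) (u : Fin (X.n i) → Z → ℂ) :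
    prT m (x ᵥ* X.d i) u = prT m x (cobdT m X i u) := by
  simp only [prT]
  have h1 : ∀ k, fT m (x k) (cobdT m X i u k) = ∑ j, fT m (x k * X.d i k j) (u j) := by
    intro k
    rw [cobdT_fT, map_sum]
    refine Finset.sum_congr rfl fun l _ => ?_
    rw [map_mul]
    rfl
  rw [Finset.sum_congr rfl fun k _ => h1 k, Finset.sum_comm]
  refine Finset.sum_congr rfl fun j _ => ?_
  rw [Matrix.vecMul, dotProduct, map_sum, LinearMap.sum_apply]

/-! ### square summability -/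

variable {μ : Z → ℝ}

lemma sqF_trans (hpos : ∀ z, 0 < μ z) (hq : ∀ g : G, ∃ C : ℝ, ∀ z, μ (g • z) ≤ C * μ z) (g : G)
    {f : Z → ℂ} (hf : SqF μ f) : SqF μ (fun z => m.φ g z * f (g⁻¹ • z)) := by
  obtain ⟨C, hC⟩ := hq g
  have h1 : Summable fun z => ‖f z‖ ^ 2 * μ (g • z) := by
    refine Summable.of_nonneg_of_le (fun z => mul_nonneg (by positivity) (hpos _).le) (fun z => ?_)
      (Summable.mul_left C hf)
    calc ‖f z‖ ^ 2 * μ (g • z) ≤ ‖f z‖ ^ 2 * (C * μ z) :=
          mul_le_mul_of_nonneg_left (hC z) (by positivity)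
      _ = _ := by ring
  have h2 := ((MulAction.toPerm (g⁻¹ : G) : Z ≃ Z).summable_iff
    (f := fun z => ‖f z‖ ^ 2 * μ (g • z))).2 h1
  refine h2.congr fun z => ?_
  change ‖f (g⁻¹ • z)‖ ^ 2 * μ (g • g⁻¹ • z) = ‖m.φ g z * f (g⁻¹ • z)‖ ^ 2 * μ z
  rw [smul_inv_smul, norm_mul, m.norm_one, one_mul]

lemma sqF_zsmul (c : ℤ) {f : Z → ℂ} (hf : SqF μ f) : SqF μ (c • f) := by
  have h := SqF.smul (μ := μ) (c : ℂ) hf
  refine Summable.congr h fun z => ?_
  rw [Pi.smul_apply, zsmul_eq_mul]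

lemma sqF_add (hpos : ∀ z, 0 < μ z) {f g : Z → ℂ} (hf : SqF μ f) (hg : SqF μ g) :
    SqF μ (f + g) := SqF.add hpos hf hg

lemma sqF_sub (hpos : ∀ z, 0 < μ z) {f g : Z → ℂ} (hf : SqF μ f) (hg : SqF μ g) :
    SqF μ (f - g) := by
  have h := SqF.add hpos hf (SqF.smul (μ := μ) (-1) hg)
  refine Summable.congr h fun z => ?_
  change ‖f z + -1 * g z‖ ^ 2 * μ z = ‖f z - g z‖ ^ 2 * μ z
  rw [neg_one_mul, sub_eq_add_neg]

lemma sqF_sum (hpos : ∀ z, 0 < μ z) {ι : Type} (s : Finset ι) (f : ι → Z → ℂ)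
    (h : ∀ i ∈ s, SqF μ (f i)) : SqF μ (∑ i ∈ s, f i) := by
  have h1 := SqF.sum hpos s f h
  refine Summable.congr h1 fun z => ?_
  rw [Finset.sum_apply]

lemma sqF_fT (hpos : ∀ z, 0 < μ z) (hq : ∀ g : G, ∃ C : ℝ, ∀ z, μ (g • z) ≤ C * μ z)
    (a : MonoidAlgebra ℤ G) {f : Z → ℂ} (hf : SqF μ f) : SqF μ (fT m a f) := by
  rw [fT, MonoidAlgebra.lift_apply, Finsupp.sum, LinearMap.sum_apply]
  refine sqF_sum hpos _ _ fun g _ => ?_
  exact sqF_zsmul _ (sqF_trans m hpos hq g hf)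

lemma sqF_prT (hpos : ∀ z, 0 < μ z) (hq : ∀ g : G, ∃ C : ℝ, ∀ z, μ (g • z) ≤ C * μ z) {n : ℕ}
    (x : Fin n → MonoidAlgebra ℤ G) (u : Fin n → Z → ℂ) (hu : Sq μ u) : SqF μ (prT m x u) :=
  sqF_sum hpos _ _ fun j _ => sqF_fT m hpos hq (x j) (hu j)

/-! ### derivations -/

/-- the additive extension of `w : G → (Z → ℂ)` to the group ring -/
def mm (w : G → Z → ℂ) : MonoidAlgebra ℤ G →+ (Z → ℂ) where
  toFun a := a.coeff.sum fun k c => c • w k
  map_zero' := by simp
  map_add' x y := by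
    rw [MonoidAlgebra.coeff_add]
    exact Finsupp.sum_add_index' (by simp) (by intro a b c; rw [add_smul])

lemma mm_single (w : G → Z → ℂ) (k : G) (r : ℤ) : mm w (MonoidAlgebra.single k r) = r • w k := by
  change (MonoidAlgebra.single k r).coeff.sum (fun k c => c • w k) = _
  rw [MonoidAlgebra.coeff_single, Finsupp.sum_single_index (by simp)]

lemma sqF_mm (hpos : ∀ z, 0 < μ z) (w : G → Z → ℂ) (hw : ∀ k, SqF μ (w k))
    (a : MonoidAlgebra ℤ G) : SqF μ (mm w a) :=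
  sqF_sum hpos _ _ fun k _ => sqF_zsmul _ (hw k)

lemma mm_mul (w : G → Z → ℂ)
    (hw : ∀ g k, w (g * k) = fT m (MonoidAlgebra.single g 1) (w k) + w g)
    (c a : MonoidAlgebra ℤ G) : mm w (c * a) = fT m c (mm w a) + augm G a • mm w c := by
  refine MonoidAlgebra.induction_linear c ?_ ?_ ?_
  · simp
  · intro x y hx hy
    rw [add_mul, map_add, hx, hy, map_add, map_add, LinearMap.add_apply, smul_add]
    abel
  · intro g r
    refine MonoidAlgebra.induction_linear a ?_ ?_ ?_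
    · simp
    · intro x y hx hy
      rw [mul_add, map_add, hx, hy, map_add, map_add, map_add, add_smul]
      abel
    · intro k s
      rw [MonoidAlgebra.single_mul_single, mm_single, mm_single, mm_single, augm_single, hw]
      have e1 : (MonoidAlgebra.single g r : MonoidAlgebra ℤ G) = r • MonoidAlgebra.single g 1 := by
        rw [MonoidAlgebra.smul_single, smul_eq_mul, mul_one]
      have e3 : fT m (r • (MonoidAlgebra.single g 1 : MonoidAlgebra ℤ G)) =
        r • fT m (MonoidAlgebra.single g 1) := map_zsmul (fT m) r _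
      rw [e1, e3, LinearMap.smul_apply, map_zsmul, smul_add, mul_smul, mul_smul,
        smul_comm r s (w g)]

/-- every square summable derivation is inner -/
theorem deriv_inner (hpos : ∀ z, 0 < μ z) (hq : ∀ g : G, ∃ C : ℝ, ∀ z, μ (g • z) ≤ C * μ z)
    (hV : Van m X μ 2) (w : G → Z → ℂ) (hwS : ∀ k, SqF μ (w k))
    (hw : ∀ g k, w (g * k) = fT m (MonoidAlgebra.single g 1) (w k) + w g) :
    ∃ v, SqF μ v ∧ ∀ k, w k = fT m (MonoidAlgebra.single k 1) v - v := by
  obtain ⟨x0, hx0⟩ := X.surj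
  change eps X x0 = 1 at hx0
  set b : Fin (X.n 1) → Z → ℂ := fun i => mm w (Th X (X.d 0 i)) with hb
  have hrow : ∀ i, eps X (X.d 0 i) = 0 := by
    intro i
    have : (Pi.single i 1 : Fin (X.n 1) → MonoidAlgebra ℤ G) ᵥ* X.d 0 = X.d 0 i := by
      funext j; simp [Matrix.vecMul, dotProduct, Pi.single_apply]
    rw [← this, eps_d]
  have hp : ∀ x : Fin (X.n 1) → MonoidAlgebra ℤ G, prT m x b = mm w (Th X (x ᵥ* X.d 0)) := by
    intro x
    have e1 : ∀ i, fT m (x i) (b i) = mm w (Th X (x i • X.d 0 i)) := by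
      intro i
      rw [Th_smul, mm_mul m w hw, augm_Th, hrow, zero_smul, add_zero]
    rw [prT, Finset.sum_congr rfl (fun i _ => e1 i), ← map_sum, ← map_sum, Matrix.vecMul_eq_sum]
  have hc : cobdT m X 1 b = 0 := by
    funext l
    have : cobdT m X 1 b l = prT m (X.d 1 l) b := cobdT_fT X m 1 b l
    rw [this, hp, ← Matrix.mul_apply_eq_vecMul, d_mul_d]
    change mm w (Th X 0) = 0
    simp
  obtain ⟨v', hv'S, hv'⟩ := hV.hs 0 (by norm_num) b (fun i => sqF_mm hpos w hwS _) hc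
  have hy : ∀ y, eps X y = 0 → prT m y v' = mm w (Th X y) := by
    intro y hy
    obtain ⟨x, rfl⟩ := exists_lift X y hy
    rw [prT_vecMul, hv', hp]
  have hw1 : w 1 = 0 := by
    have := hw 1 1
    have e : fT m (MonoidAlgebra.single (1 : G) 1) (w 1) = w 1 := by
      rw [← MonoidAlgebra.one_def, map_one]; rfl
    rw [mul_one, e] at this
    exact left_eq_add.1 this
  refine ⟨prT m x0 v' - mm w (Th X x0), sqF_sub hpos (sqF_prT m hpos hq x0 v' hv'S)
    (sqF_mm hpos w hwS _), ?_⟩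
  intro k
  have e0 : eps X ((MonoidAlgebra.single k 1 - 1 : MonoidAlgebra ℤ G) • x0) = 0 := by
    rw [eps_smul, map_sub, augm_single, map_one, sub_self, zero_mul]
  have e1 := hy _ e0
  rw [prT_smul, Th_smul, mm_mul m w hw, augm_Th, hx0, one_smul, map_sub (mm w),
    MonoidAlgebra.one_def, mm_single, mm_single, hw1, smul_zero, sub_zero, one_smul] at e1
  have e2 : ∀ v : Z → ℂ, fT m (MonoidAlgebra.single k 1 - MonoidAlgebra.single 1 1) v =
      fT m (MonoidAlgebra.single k 1) v - v := by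
    intro v
    rw [map_sub, ← MonoidAlgebra.one_def, map_one]; rfl
  rw [e2, e2] at e1
  rw [map_sub]
  rw [← sub_eq_iff_eq_add'] at e1
  rw [← e1]
  abel

/-! ### integer valued functions -/

/-- the complex valued tuple of an integer valued tuple -/
def cst {n : ℕ} (v : Fin n → Z → ℤ) : Fin n → Z → ℂ := fun j z => (v j z : ℂ)

lemma cst_injective {n : ℕ} {v w : Fin n → Z → ℤ} (h : cst v = cst w) : v = w := by
  funext j z
  have h1 := congrFun (congrFun h j) z
  exact Int.cast_injective h1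

lemma sq_cst {n : ℕ} (v : Fin n → Z → ℤ) : Sq μ (cst v) ↔ I.Sq μ v := by
  have h : ∀ j z, ‖cst v j z‖ ^ 2 * μ z = (v j z : ℝ) ^ 2 * μ z := by
    intro j z
    change ‖(v j z : ℂ)‖ ^ 2 * μ z = _
    rw [Complex.norm_intCast, sq_abs]
  constructor
  · intro hv j; exact (hv j).congr fun z => h j z
  · intro hv j; exact (hv j).congr fun z => (h j z).symm

lemma cobdT_cst (i : ℕ) (v : Fin (X.n i) → Z → ℤ) :
    cobdT (trivM G Z) X i (cst v) = cst (I.cobd X i v) := by
  funext k z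
  change ∑ j, ∑ g ∈ (X.d i k j).coeff.support, (X.d i k j).coeff g •
    ((1 : ℂ) * (v j (g⁻¹ • z) : ℂ)) =
    ((∑ j, ∑ g ∈ (X.d i k j).coeff.support, (X.d i k j).coeff g * v j (g⁻¹ • z) : ℤ) : ℂ)
  push_cast
  refine Finset.sum_congr rfl fun j _ => Finset.sum_congr rfl fun g _ => ?_
  rw [one_mul, zsmul_eq_mul]

/-- the function `f` is integer valued -/
def IsInt (f : Z → ℂ) : Prop := ∀ z, ∃ n : ℤ, f z = n

lemma isInt_fT (a : MonoidAlgebra ℤ G) {f : Z → ℂ} (hf : IsInt f) :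
    IsInt (fT (trivM G Z) a f) := by
  choose n hn using hf
  intro z
  refine ⟨∑ g ∈ a.coeff.support, a.coeff g * n (g⁻¹ • z), ?_⟩
  rw [fT_apply, actT]
  push_cast
  refine Finset.sum_congr rfl fun g _ => ?_
  rw [hn]
  change _ • ((1 : ℂ) * _) = _
  rw [one_mul, zsmul_eq_mul]

lemma isInt_prT {n : ℕ} (x : Fin n → MonoidAlgebra ℤ G) (u : Fin n → Z → ℂ)
    (hu : ∀ j, IsInt (u j)) : IsInt (prT (trivM G Z) x u) := by
  intro z
  have h : ∀ j, ∃ n : ℤ, fT (trivM G Z) (x j) (u j) z = n := fun j => isInt_fT _ (hu j) z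
  choose n hn using h
  refine ⟨∑ j, n j, ?_⟩
  rw [prT, Finset.sum_apply]
  push_cast
  exact Finset.sum_congr rfl fun j _ => hn j

/-- real parts -/
def reF (f : Z → ℂ) : Z → ℂ := fun z => ((f z).re : ℂ)

lemma sqF_reF (hpos : ∀ z, 0 < μ z) {f : Z → ℂ} (hf : SqF μ f) : SqF μ (reF f) := by
  refine Summable.of_nonneg_of_le (fun z => mul_nonneg (by positivity) (hpos z).le) (fun z => ?_) hf
  refine mul_le_mul_of_nonneg_right ?_ (hpos z).le
  refine pow_le_pow_left₀ (norm_nonneg _) ?_ 2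
  change ‖((f z).re : ℂ)‖ ≤ ‖f z‖
  rw [Complex.norm_real, Real.norm_eq_abs]
  exact Complex.abs_re_le_norm _

lemma cobdT_reF (i : ℕ) (v : Fin (X.n i) → Z → ℂ) :
    cobdT (trivM G Z) X i (fun j => reF (v j)) = fun k => reF (cobdT (trivM G Z) X i v k) := by
  funext k z
  change ∑ j, ∑ g ∈ (X.d i k j).coeff.support, (X.d i k j).coeff g •
    ((1 : ℂ) * (((v j (g⁻¹ • z)).re : ℝ) : ℂ)) =
    (((∑ j, ∑ g ∈ (X.d i k j).coeff.support, (X.d i k j).coeff g •
      ((1 : ℂ) * v j (g⁻¹ • z))).re : ℝ) : ℂ)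
  rw [Complex.re_sum, Complex.ofReal_sum]
  refine Finset.sum_congr rfl fun j _ => ?_
  rw [Complex.re_sum, Complex.ofReal_sum]
  refine Finset.sum_congr rfl fun g _ => ?_
  rw [one_mul, one_mul, zsmul_eq_mul, zsmul_eq_mul, ← Complex.ofReal_intCast,
    Complex.re_ofReal_mul, Complex.ofReal_mul]

/-- a function bounded below is not square summable for an infinite mass -/
lemma not_sqF (hpos : ∀ z, 0 < μ z) (hinf : ¬ Summable μ) {f : Z → ℂ} (hf : SqF μ f) (δ : ℝ)
    (hδ : 0 < δ) (h : ∀ z, δ ≤ ‖f z‖) : False := by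
  apply hinf
  refine Summable.of_nonneg_of_le (fun z => (hpos z).le) (fun z => ?_)
    (Summable.mul_left (δ ^ 2)⁻¹ hf)
  have h1 : δ ^ 2 ≤ ‖f z‖ ^ 2 := pow_le_pow_left₀ hδ.le (h z) 2
  have h2 : (δ ^ 2)⁻¹ * (δ ^ 2 * μ z) ≤ (δ ^ 2)⁻¹ * (‖f z‖ ^ 2 * μ z) := by
    have := (hpos z).le
    gcongr
  rwa [← mul_assoc, inv_mul_cancel₀ (by positivity), one_mul] at h2

end

end Pool.Agent.X270.NT.T
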