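import Pool.Agent.X270.NT.Circ
import Pool.Agent.H919R4.AS.Circle

set_option autoImplicit false
set_option linter.unusedSectionVars false

open scoped Matrix ENNReal Pointwise
open Filter Topology

namespace Pool.Agent.X270.NT.T

open Pool.Agent.H496R3.ZS (IsAmenable)
open Pool.Agent.H919R4.ZS (FinRes toRed eps eps_add eps_neg eps_sub eps_smul eps_zsmul eps_single
  eps_d exists_lift Th Th_apply Th_smul augm_Th augm augm_single d_mul_d ee norm_ee ee_add
  ee_sub_one ee_int ee_eq_one exists_log)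
open Pool.Agent.H919R4.AS (Mult z0 smul_z0 exists_smul_z0)
open Pool.Agent.X270.NT.W (SqF Sq)
open Pool.Agent.X270.NT.St (EllT)

noncomputable section

variable {G : Type} [Group G] {C : Subgroup G}

lemma fT_triv_single (g : G) (f : G ⧸ C → ℂ) (z : G ⧸ C) :
    fT (trivM G (G ⧸ C)) (MonoidAlgebra.single g 1) f z = f (g⁻¹ • z) := by
  rw [fT_single]
  exact one_mul _

lemma prT_apply {n : ℕ} (x : Fin n → MonoidAlgebra ℤ G) (v : Fin n → G ⧸ C → ℂ) (h : G) :
    prT (trivM G (G ⧸ C)) x v (h • z0 C) =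
      prT (trivM G (G ⧸ C)) ((MonoidAlgebra.single h⁻¹ 1 : MonoidAlgebra ℤ G) • x) v (z0 C) := by
  rw [prT_smul, fT_triv_single, inv_inv]

variable (X : FinRes G) {μ : G ⧸ C → ℝ}

theorem H0 (hV : Van (trivM G (G ⧸ C)) X μ 2) (y : Fin (X.n 0) → G ⧸ C → ℤ) (hyS : I.Sq μ y)
    (hy : I.cobd X 0 y = 0) : y = 0 := by
  apply cst_injective
  have h1 := hV.h0 (cst y) ((sq_cst y).2 hyS) (by
    rw [cobdT_cst, hy]
    funext k z
    exact Int.cast_zero)
  rw [h1]
  funext k z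
  exact Int.cast_zero.symm

lemma exists_int_of (f : G ⧸ C → ℂ) (hpos : ∀ z, 0 < μ z) (hinf : ¬ Summable μ) (hf : SqF μ f)
    (h : ∀ z, ∃ n : ℤ, f (z0 C) - f z = n) : ∃ n : ℤ, f (z0 C) = n := by
  have hcl : IsClosed (Set.range (fun n : ℤ => (n : ℂ))) := by
    have h5 := (Complex.isometry_ofReal.isClosedEmbedding.comp
      Int.isClosedEmbedding_coe_real).isClosed_range
    have h6 : Set.range (fun n : ℤ => (n : ℂ)) =
        Set.range ((fun x : ℝ => (x : ℂ)) ∘ (fun n : ℤ => (n : ℝ))) := by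
      congr 1
    rw [h6]
    exact h5
  by_contra hcon
  have hnot : f (z0 C) ∉ Set.range (fun n : ℤ => (n : ℂ)) := by
    rintro ⟨n, hn⟩
    exact hcon ⟨n, hn.symm⟩
  have hopen := hcl.isOpen_compl
  obtain ⟨δ, hδ, hball⟩ := Metric.isOpen_iff.1 hopen (f (z0 C)) hnot
  refine not_sqF hpos hinf hf δ hδ fun z => ?_
  by_contra hlt
  push Not at hlt
  obtain ⟨n, hn⟩ := h z
  have h1 : (n : ℂ) ∈ Metric.ball (f (z0 C)) δ := by
    rw [Metric.mem_ball, dist_eq_norm, ← hn]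
    have : f (z0 C) - f z - f (z0 C) = - f z := by ring
    rw [this, norm_neg]
    exact hlt
  exact hball h1 ⟨n, rfl⟩

theorem H1 (hpos : ∀ z, 0 < μ z) (hq : ∀ g : G, ∃ C : ℝ, ∀ z, μ (g • z) ≤ C * μ z)
    (hinf : ¬ Summable μ) (hV : Van (trivM G (G ⧸ C)) X μ 2)
    (z : Fin (X.n 1) → G ⧸ C → ℤ) (hzS : I.Sq μ z) (hz : I.cobd X 1 z = 0) :
    ∃ y, I.Sq μ y ∧ I.cobd X 0 y = z := by
  obtain ⟨v, hvS, hv⟩ := hV.hs 0 (by norm_num) (cst z) ((sq_cst z).2 hzS) (by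
    rw [cobdT_cst, hz]
    funext k z
    exact Int.cast_zero)
  obtain ⟨x0, hx0⟩ := X.surj
  change eps X x0 = 1 at hx0
  have hI : ∀ y, eps X y = 0 → ∃ n : ℤ, prT (trivM G (G ⧸ C)) y v (z0 C) = n := by
    intro y hy
    obtain ⟨x, rfl⟩ := exists_lift X y hy
    rw [prT_vecMul, hv]
    exact isInt_prT x (cst z) (fun j w => ⟨z j w, rfl⟩) _
  have hbase : ∃ n : ℤ, prT (trivM G (G ⧸ C)) x0 v (z0 C) = n := by
    refine exists_int_of _ hpos hinf (sqF_prT _ hpos hq x0 v hvS) fun z => ?_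
    obtain ⟨h, rfl⟩ := exists_smul_z0 z
    obtain ⟨n, hn⟩ := hI (x0 - (MonoidAlgebra.single h⁻¹ 1 : MonoidAlgebra ℤ G) • x0) (by
      rw [eps_sub, eps_smul, augm_single, hx0]; norm_num)
    refine ⟨n, ?_⟩
    rw [prT_apply x0 v h, ← hn, prT_sub, Pi.sub_apply]
  obtain ⟨n0, hn0⟩ := hbase
  have hall : ∀ y, ∃ n : ℤ, prT (trivM G (G ⧸ C)) y v (z0 C) = n := by
    intro y
    have e0 : prT (trivM G (G ⧸ C)) (eps X y • x0) v (z0 C) = (eps X y * n0 : ℤ) := by
      rw [prT_zsmul, Pi.smul_apply, hn0, zsmul_eq_mul]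
      push_cast
      ring
    obtain ⟨n, hn⟩ := hI (y - eps X y • x0) (by
      rw [eps_sub, eps_zsmul, hx0]; ring)
    rw [prT_sub, Pi.sub_apply, e0] at hn
    exact ⟨n + eps X y * n0, by push_cast; push_cast at hn; rw [← hn]; ring⟩
  have hint : ∀ j z, ∃ n : ℤ, v j z = n := by
    intro j z
    obtain ⟨h, rfl⟩ := exists_smul_z0 z
    obtain ⟨n, hn⟩ := hall ((MonoidAlgebra.single h⁻¹ 1 : MonoidAlgebra ℤ G) • Pi.single j 1)
    refine ⟨n, ?_⟩
    rw [← hn, ← prT_apply, prT_single]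
  choose y hy using hint
  have hyv : cst y = v := by
    funext j z
    exact (hy j z).symm
  refine ⟨y, ?_, ?_⟩
  · rw [← sq_cst, hyv]; exact hvS
  · apply cst_injective
    rw [← cobdT_cst, hyv, hv]

/-- `H²` with integer values -/
theorem H2 (hpos : ∀ z, 0 < μ z) (hq : ∀ g : G, ∃ C : ℝ, ∀ z, μ (g • z) ≤ C * μ z)
    (hinf : ¬ Summable μ) (hV : ∀ m : Mult G (G ⧸ C), Van m X μ 2)
    (z : Fin (X.n 2) → G ⧸ C → ℤ) (hzS : I.Sq μ z) (hz : I.cobd X 2 z = 0) :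
    ∃ y, I.Sq μ y ∧ I.cobd X 1 y = z := by
  -- the real cochain `b` with coboundary `z`
  obtain ⟨b, hbS, hbr, hb⟩ : ∃ b : Fin (X.n 1) → G ⧸ C → ℂ, Sq μ b ∧
      (∀ i h, b i h = (((b i h).re : ℝ) : ℂ)) ∧
      cobdT (trivM G (G ⧸ C)) X 1 b = cst z := by
    obtain ⟨b0, hb0S, hb0⟩ := (hV (trivM G (G ⧸ C))).hs 1 le_rfl (cst z) ((sq_cst z).2 hzS) (by
      rw [cobdT_cst, hz]
      funext k z
      exact Int.cast_zero)
    refine ⟨fun i => reF (b0 i), fun i => sqF_reF hpos (hb0S i), ?_, ?_⟩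
    · intro i h
      rfl
    · rw [cobdT_reF, hb0]
      funext j h
      change (((z j h : ℂ).re : ℝ) : ℂ) = (z j h : ℂ)
      rw [Complex.intCast_re]
      simp
  obtain ⟨x0, hx0⟩ := X.surj
  change eps X x0 = 1 at hx0
  set Φ : (Fin (X.n 1) → MonoidAlgebra ℤ G) → ℝ :=
    fun x => (prT (trivM G (G ⧸ C)) x b (z0 C)).re with hΦ
  have Φadd : ∀ x y, Φ (x + y) = Φ x + Φ y := by
    intro x y; simp only [hΦ, prT_add, Pi.add_apply, Complex.add_re]
  have Φneg : ∀ x, Φ (-x) = - Φ x := by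
    intro x; simp only [hΦ, prT_neg, Pi.neg_apply, Complex.neg_re]
  have Φsub : ∀ x y, Φ (x - y) = Φ x - Φ y := by
    intro x y; rw [sub_eq_add_neg, Φadd, Φneg, sub_eq_add_neg]
  have Φz : ∀ (m : ℤ) x, Φ (m • x) = m * Φ x := by
    intro m x
    have := map_zsmul (⟨⟨Φ, by simpa using Φsub 0 0⟩, Φadd⟩ :
      (Fin (X.n 1) → MonoidAlgebra ℤ G) →+ ℝ) m x
    simpa using this
  have Φcong : ∀ x x', x ᵥ* X.d 0 = x' ᵥ* X.d 0 → ∃ n : ℤ, Φ x - Φ x' = n := by
    intro x x' h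
    obtain ⟨y, hy⟩ : ∃ y : Fin (X.n 2) → MonoidAlgebra ℤ G, y ᵥ* X.d 1 = x - x' :=
      (X.exact_succ 0 (x - x')).1 (by rw [Matrix.sub_vecMul, h, sub_self])
    obtain ⟨n, hn⟩ := isInt_prT y (cst z) (fun j w => ⟨z j w, rfl⟩) (z0 C)
    refine ⟨n, ?_⟩
    rw [← Φsub]
    simp only [hΦ]
    rw [← hy, prT_vecMul, hb, hn]
    simp
  -- paths from the base vertex
  have hγ : ∀ h : G, ∃ y, y ᵥ* X.d 0 = (MonoidAlgebra.single h⁻¹ 1 : MonoidAlgebra ℤ G) • x0 - x0 := by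
    intro h
    apply exists_lift
    rw [eps_sub, eps_smul, augm_single, hx0]; norm_num
  choose γ hγ using hγ
  set F : G → ℝ := fun h => Φ (γ h) with hF
  have Fdiff : ∀ k h : G, ∃ n : ℤ,
      F (k⁻¹ * h) - F h = (prT (trivM G (G ⧸ C)) (γ k⁻¹) b (h • z0 C)).re + n := by
    intro k h
    obtain ⟨n, hn⟩ := Φcong (γ (k⁻¹ * h) - γ h)
      ((MonoidAlgebra.single h⁻¹ 1 : MonoidAlgebra ℤ G) • γ k⁻¹) (by
        rw [Matrix.sub_vecMul, hγ, hγ, Matrix.smul_vecMul, hγ, smul_sub, smul_smul,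
          MonoidAlgebra.single_mul_single, mul_inv_rev, mul_one]
        abel)
    refine ⟨n, ?_⟩
    rw [prT_apply]
    rw [Φsub] at hn
    simp only [hΦ, hF] at hn ⊢
    linarith
  -- the multiplier
  have heeq : ∀ k h : G, ee (prT (trivM G (G ⧸ C)) (γ k⁻¹) b (h • z0 C)).re =
      ee (F (k⁻¹ * h) - F h) := by
    intro k h
    obtain ⟨n, hn⟩ := Fdiff k h
    rw [hn, ee_add, ee_int, mul_one]
  let m : Mult G (G ⧸ C) :=
    { φ := fun k z => ee (prT (trivM G (G ⧸ C)) (γ k⁻¹) b z).re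
      norm_one := fun k z => norm_ee _
      mul := by
        intro g k z
        obtain ⟨h, rfl⟩ := exists_smul_z0 z
        have e1 : g⁻¹ • h • z0 C = (g⁻¹ * h) • z0 C := (mul_smul _ _ _).symm
        rw [e1, heeq, heeq, heeq, ← ee_add]
        congr 1
        rw [mul_inv_rev, mul_assoc]
        ring }
  have hmφ : ∀ k z, m.φ k z = ee (prT (trivM G (G ⧸ C)) (γ k⁻¹) b z).re := fun _ _ => rfl
  let w : G → G ⧸ C → ℂ := fun k z => m.φ k z - 1
  have hwS : ∀ k, SqF μ (w k) := by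
    intro k
    have h1 := sqF_prT (trivM G (G ⧸ C)) hpos hq (γ k⁻¹) b hbS
    have h2 := SqF.smul (μ := μ) ((2 * Real.pi : ℝ) : ℂ) h1
    refine Summable.of_nonneg_of_le (fun z => mul_nonneg (by positivity) (hpos z).le)
      (fun z => ?_) h2
    refine mul_le_mul_of_nonneg_right ?_ (hpos z).le
    refine pow_le_pow_left₀ (norm_nonneg _) ?_ 2
    rw [norm_mul]
    refine (ee_sub_one _).trans ?_
    rw [Complex.norm_real, Real.norm_eq_abs, abs_of_pos Real.two_pi_pos]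
    exact mul_le_mul_of_nonneg_left (Complex.abs_re_le_norm _) Real.two_pi_pos.le
  have hw : ∀ k z, w k z = m.φ k z - 1 := fun _ _ => rfl
  obtain ⟨v, hvS, hv⟩ := deriv_inner X m hpos hq (hV m) w hwS (by
    intro g k
    funext z
    rw [Pi.add_apply, fT_single, hw, hw, hw, m.mul]
    ring)
  have hqq : ∀ k z, m.φ k z * (1 - v (k⁻¹ • z)) = 1 - v z := by
    intro k z
    have h1 := congrFun (hv k) z
    rw [Pi.sub_apply, fT_single, hw] at h1
    linear_combination h1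
  have hqn : ∀ z, ‖1 - v z‖ = ‖1 - v (z0 C)‖ := by
    intro z
    obtain ⟨h, rfl⟩ := exists_smul_z0 z
    rw [← hqq h (h • z0 C), norm_mul, m.norm_one, one_mul, inv_smul_smul]
  have hq1 : ∀ z, ‖1 - v z‖ = 1 := by
    by_contra hcon
    push Not at hcon
    obtain ⟨z1, hz1⟩ := hcon
    refine not_sqF hpos hinf hvS |‖1 - v z1‖ - 1| (abs_pos.2 (sub_ne_zero.2 hz1)) fun z => ?_
    have h1 : ‖1 - v z1‖ = ‖1 - v z‖ := by rw [hqn, hqn z]
    rw [h1]
    have h2 := abs_norm_sub_norm_le (1 - v z) 1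
    rw [norm_one, sub_sub_cancel_left, norm_neg] at h2
    exact h2
  have hr : ∀ z, ∃ t : ℝ, ee t = 1 - v z ∧ |t| ≤ ‖v z‖ := by
    intro z
    obtain ⟨t, ht1, ht2⟩ := exists_log (1 - v z) (hq1 z)
    refine ⟨t, ht1, ht2.trans_eq ?_⟩
    rw [sub_sub_cancel_left, norm_neg]
  choose s hs1 hs2 using hr
  obtain ⟨θ, hθ⟩ : ∃ θ : ℝ, θ = F 1 + s (z0 C) := ⟨_, rfl⟩
  set r : G ⧸ C → ℝ := fun z => - s z with hrdef
  have hrF : ∀ h, ∃ n : ℤ, F h - θ - r (h • z0 C) = n := by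
    intro h
    have h1 := hqq h (h • z0 C)
    rw [hmφ, heeq, inv_smul_smul, ← hs1, ← hs1, inv_mul_cancel, ← ee_add] at h1
    have h2 : ee (F 1 - F h + s (z0 C) - s (h • z0 C)) = 1 := by
      have h3 : ee (F 1 - F h + s (z0 C) - s (h • z0 C)) * ee (s (h • z0 C)) =
          ee (s (h • z0 C)) := by
        rw [← ee_add, ← h1]
        congr 1
        ring
      have h0 : ee (s (h • z0 C)) ≠ 0 := by
        intro h0
        have := norm_ee (s (h • z0 C))
        rw [h0] at this; simp at this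
      exact mul_right_cancel₀ h0 (by rw [h3, one_mul])
    obtain ⟨n, hn⟩ := ee_eq_one _ h2
    refine ⟨-n, ?_⟩
    rw [hθ, hrdef]
    push_cast
    rw [← hn]
    ring
  let rV : G ⧸ C → ℂ := fun h => ((r h : ℝ) : ℂ)
  have hrVS : SqF μ rV := by
    refine Summable.of_nonneg_of_le (fun z => mul_nonneg (by positivity) (hpos z).le)
      (fun z => ?_) hvS
    refine mul_le_mul_of_nonneg_right ?_ (hpos z).le
    refine pow_le_pow_left₀ (norm_nonneg _) ?_ 2
    change ‖((r z : ℝ) : ℂ)‖ ≤ ‖v z‖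
    rw [Complex.norm_real, Real.norm_eq_abs, hrdef, abs_neg]
    exact hs2 z
  have hrV : ∀ h, rV h = ((r h : ℝ) : ℂ) := fun h => rfl
  -- the correcting `0`-cochain
  have hζ : ∀ j : Fin (X.n 0), ∃ y, y ᵥ* X.d 0 = Pi.single j 1 - X.aug j • x0 := by
    intro j
    apply exists_lift
    rw [eps_sub, eps_single, eps_zsmul, hx0]; ring
  choose ζ hζ using hζ
  set ρ : Fin (X.n 0) → G ⧸ C → ℂ :=
    fun j => X.aug j • rV + reF (prT (trivM G (G ⧸ C)) (ζ j) b) with hρ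
  have hρS : Sq μ ρ := fun j => sqF_add hpos (sqF_zsmul _ hrVS)
    (sqF_reF hpos (sqF_prT _ hpos hq (ζ j) b hbS))
  have hρ1 : ∀ j h, ρ j h =
      (((X.aug j : ℝ) * r h + (prT (trivM G (G ⧸ C)) (ζ j) b h).re : ℝ) : ℂ) := by
    intro j h
    simp only [hρ]
    rw [Pi.add_apply, Pi.smul_apply, hrV, zsmul_eq_mul]
    change _ + (((prT (trivM G (G ⧸ C)) (ζ j) b h).re : ℝ) : ℂ) = _
    push_cast
    ring
  let K : AddSubgroup (Fin (X.n 0) → MonoidAlgebra ℤ G) :=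
    { carrier := {y | ∃ x, x ᵥ* X.d 0 = y - eps X y • x0 ∧
        ∃ n : ℤ, prT (trivM G (G ⧸ C)) y ρ (z0 C) = ((Φ x - eps X y * θ + n : ℝ) : ℂ)}
      zero_mem' := by
        refine ⟨0, ?_, 0, ?_⟩
        · have : eps X 0 = 0 := by simp [eps]
          rw [this]; simp
        · have : eps X 0 = 0 := by simp [eps]
          rw [this]
          have e : Φ 0 = 0 := by simpa using Φsub 0 0
          rw [e]
          simp [prT]
      add_mem' := by
        rintro y y' ⟨x, hx, n, hn⟩ ⟨x', hx', n', hn'⟩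
        refine ⟨x + x', ?_, n + n', ?_⟩
        · rw [Matrix.add_vecMul, hx, hx', eps_add, add_smul]; abel
        · rw [prT_add, Pi.add_apply, hn, hn', eps_add, Φadd]
          push_cast
          ring
      neg_mem' := by
        rintro y ⟨x, hx, n, hn⟩
        refine ⟨-x, ?_, -n, ?_⟩
        · rw [Matrix.neg_vecMul, hx, eps_neg, neg_smul]; abel
        · rw [prT_neg, Pi.neg_apply, hn, eps_neg, Φneg]
          push_cast
          ring }
  have hK0 : ∀ (j : Fin (X.n 0)) (g : G),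
      (MonoidAlgebra.single g 1 : MonoidAlgebra ℤ G) •
        (Pi.single j 1 : Fin (X.n 0) → MonoidAlgebra ℤ G) ∈ K := by
    intro j g
    have e1 : eps X ((MonoidAlgebra.single g 1 : MonoidAlgebra ℤ G) •
        (Pi.single j 1 : Fin (X.n 0) → MonoidAlgebra ℤ G)) = X.aug j := by
      rw [eps_smul, augm_single, eps_single, one_mul]
    obtain ⟨n, hn⟩ := hrF g⁻¹
    refine ⟨X.aug j • γ g⁻¹ + (MonoidAlgebra.single g 1 : MonoidAlgebra ℤ G) • ζ j, ?_,
      - X.aug j * n, ?_⟩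
    · rw [e1, Matrix.add_vecMul, Matrix.smul_vecMul, Matrix.smul_vecMul, hγ, hζ, inv_inv, smul_sub,
        smul_sub]
      have e2 : (MonoidAlgebra.single g 1 : MonoidAlgebra ℤ G) • X.aug j • x0 =
        X.aug j • (MonoidAlgebra.single g 1 : MonoidAlgebra ℤ G) • x0 := smul_comm _ _ _
      rw [e2]
      abel
    · have e3 : prT (trivM G (G ⧸ C)) ((MonoidAlgebra.single g 1 : MonoidAlgebra ℤ G) •
          (Pi.single j 1 : Fin (X.n 0) → MonoidAlgebra ℤ G)) ρ (z0 C) = ρ j (g⁻¹ • z0 C) := by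
        rw [prT_smul, fT_triv_single, prT_single]
      have e4 : Φ ((MonoidAlgebra.single g 1 : MonoidAlgebra ℤ G) • ζ j) =
          (prT (trivM G (G ⧸ C)) (ζ j) b (g⁻¹ • z0 C)).re := by
        rw [prT_apply, inv_inv]
      rw [e3, e1, hρ1, Φadd, Φz, e4]
      have e5 : r (g⁻¹ • z0 C) = Φ (γ g⁻¹) - θ - n := by
        have := hn
        simp only [hF] at this
        linarith
      rw [e5]
      push_cast
      ring
  have hK : ∀ y, y ∈ K := by
    have h1 : ∀ (j : Fin (X.n 0)) (a : MonoidAlgebra ℤ G),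
        a • (Pi.single j 1 : Fin (X.n 0) → MonoidAlgebra ℤ G) ∈ K := by
      intro j a
      refine MonoidAlgebra.induction_linear a ?_ ?_ ?_
      · rw [zero_smul]; exact K.zero_mem
      · intro x y hx hy
        rw [add_smul]; exact K.add_mem hx hy
      · intro g s
        have e1 : (MonoidAlgebra.single g s : MonoidAlgebra ℤ G) = s • MonoidAlgebra.single g 1 := by
          rw [MonoidAlgebra.smul_single, smul_eq_mul, mul_one]
        rw [e1, smul_assoc]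
        exact K.zsmul_mem (hK0 j g) s
    intro y
    have : y = ∑ j, y j • (Pi.single j 1 : Fin (X.n 0) → MonoidAlgebra ℤ G) := by
      funext i
      rw [Finset.sum_apply, Finset.sum_eq_single i]
      · simp
      · intro j _ hj; simp [Pi.single_eq_of_ne hj.symm]
      · simp
    rw [this]
    exact K.sum_mem fun j _ => h1 j (y j)
  -- the integral cochain
  have hint : ∀ (i : Fin (X.n 1)) (z : G ⧸ C), ∃ n : ℤ,
      (b i - cobdT (trivM G (G ⧸ C)) X 0 ρ i) z = n := by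
    intro i z
    obtain ⟨h, rfl⟩ := exists_smul_z0 z
    have e1 : cobdT (trivM G (G ⧸ C)) X 0 ρ i = prT (trivM G (G ⧸ C)) (X.d 0 i) ρ :=
      cobdT_fT X _ 0 ρ i
    have e0 : (Pi.single i 1 : Fin (X.n 1) → MonoidAlgebra ℤ G) ᵥ* X.d 0 = X.d 0 i := by
      funext j; simp [Matrix.vecMul, dotProduct, Pi.single_apply]
    set xi : Fin (X.n 1) → MonoidAlgebra ℤ G :=
      (MonoidAlgebra.single h⁻¹ 1 : MonoidAlgebra ℤ G) • Pi.single i 1 with hxi
    have e2 : (MonoidAlgebra.single h⁻¹ 1 : MonoidAlgebra ℤ G) • X.d 0 i = xi ᵥ* X.d 0 := by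
      rw [hxi, Matrix.smul_vecMul, e0]
    obtain ⟨x, hx, n, hn⟩ := hK (xi ᵥ* X.d 0)
    rw [eps_d] at hx hn
    rw [zero_smul, sub_zero] at hx
    obtain ⟨p, hp⟩ := Φcong xi x hx.symm
    refine ⟨p - n, ?_⟩
    have e3 : b i (h • z0 C) = ((Φ xi : ℝ) : ℂ) := by
      rw [hbr i (h • z0 C)]
      congr 1
      simp only [hΦ]
      rw [hxi, ← prT_apply, prT_single]
    rw [Pi.sub_apply, e1, prT_apply, e2, hn, e3]
    have e4 : Φ xi = Φ x + p := by linarith
    rw [e4]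
    push_cast
    ring
  choose α hα using hint
  have hαb : cst α = b - cobdT (trivM G (G ⧸ C)) X 0 ρ := by
    funext i h
    exact (hα i h).symm
  have hcS : Sq μ (cobdT (trivM G (G ⧸ C)) X 0 ρ) := by
    intro k
    have e1 : cobdT (trivM G (G ⧸ C)) X 0 ρ k = prT (trivM G (G ⧸ C)) (X.d 0 k) ρ :=
      cobdT_fT X _ 0 ρ k
    rw [e1]
    exact sqF_prT _ hpos hq _ ρ hρS
  refine ⟨α, ?_, ?_⟩
  · rw [← sq_cst, hαb]
    intro k
    exact sqF_sub hpos (hbS k) (hcS k)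
  · apply cst_injective
    rw [← cobdT_cst, hαb, cobdT_sub, cobdT_cobdT, sub_zero, hb]

/-! ### the theorem -/

/-- vanishing for all multipliers -/
lemma van_all {S : Set G} (hSf : S.Finite) (hS : S⁻¹ = S) {ε : ℝ} (hε : 0 < ε) (hε1 : ε < 1)
    (hrob : ∀ (V : Type) [NormedAddCommGroup V] [NormedSpace ℂ V] [CompleteSpace V]
        (π : G →* (V →L[ℂ] V)), NearTempered S ε π → ∀ i ≤ 2,
        Subsingleton (cohomologyV X π i) ∧ Subsingleton (homologyV X π i))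
    (hμ : W.SlowWeight S ε μ) (h : IsAmenable C ∨ St.Thin S ε (G ⧸ C)) (m : Mult G (G ⧸ C)) :
    Van m X μ 2 := by
  have h3 : St.NearTempered S ε (wrep m hμ.pos hμ.quasi) := by
    refine nearTempered_wrep m hS hε hε1 hμ fun n x hx => ?_
    rw [redNorm_eq]
    rcases h with h | h
    · refine (Pool.Agent.H919R4.AS.norm_integ_le h m x).trans ?_
      exact le_mul_of_one_le_left (norm_nonneg _) (Real.one_le_exp (by positivity))
    · exact norm_minteg_le m hSf hS h n x hx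
  refine van_of m hμ.pos hμ.quasi X 2 fun i hi => ?_
  exact St.not_coh X _ i
    (hrob (EllT (G ⧸ C) 2) (wrep m hμ.pos hμ.quasi).hom (St.nearTempered_hom S ε _ h3) i hi).1

theorem robustI (h : ∀ j ≤ 2, Subsingleton (X.homology (toRed G) j)) :
    ∃ (S : Set G) (ε : ℝ), S.Finite ∧ 0 < ε ∧ ¬ I.SeenByIntegers X S ε := by
  obtain ⟨S, ε, hSf, hS, hε, hε1, hrob⟩ := robust X 2 h
  refine ⟨S, ε, hSf, hε, ?_⟩
  rintro ⟨C, μ, hμ, hinf, hC, i, hi, hnt⟩
  have hV := van_all X hSf hS hε hε1 hrob hμ hC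
  interval_cases i
  · obtain ⟨v, hv, hz, h0⟩ := hnt
    exact h0 (H0 X (hV _) v hv hz)
  · obtain ⟨v, hv, hz, h0⟩ := hnt
    obtain ⟨y, hy, hyv⟩ := H1 X hμ.pos hμ.quasi hinf (hV _) v hv hz
    exact h0 y hy hyv
  · obtain ⟨v, hv, hz, h0⟩ := hnt
    obtain ⟨y, hy, hyv⟩ := H2 X hμ.pos hμ.quasi hinf hV v hv hz
    exact h0 y hy hyv

theorem finalI (h : ∀ (S : Set G) (ε : ℝ), S.Finite → 0 < ε → I.SeenByIntegers X S ε) :
    ∃ i ≤ 2, Nontrivial (X.homology (toRed G) i) := by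
  by_contra hcon
  push Not at hcon
  obtain ⟨S, ε, hSf, hε, hrob⟩ := robustI X (fun j hj => hcon j hj)
  exact hrob (h S ε hSf hε)

end

end Pool.Agent.X270.NT.T
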