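import Pool.Agent.X270.NT.Unit

set_option autoImplicit false
set_option linter.unusedSectionVars false

open scoped Matrix ENNReal Pointwise InnerProductSpace
open Filter Topology

namespace Pool.Agent.X270.NT.U

open Pool.Agent.H496R3.ZS (integ integ_apply)
open Pool.Agent.H919R4.ZS (FinRes toRed)
open Pool.Agent.X270.NT.St (BRep CohNonzero HomNonzero)

noncomputable section

variable {G : Type} [Group G]

lemma holder_two (F : Finset G) (φ : G → ℝ) (hφ : ∀ g, 0 ≤ φ g) (δ : ℝ) (hδ : 0 < δ)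
    (hδ1 : δ < 1) : ∑ g ∈ F, φ g ^ 2 ≤
      (∑ g ∈ F, φ g ^ (2 / (1 - δ))) ^ (1 - δ) * (F.card : ℝ) ^ δ := by
  have h1 : 0 < 1 - δ := by linarith
  have hc : Real.HolderConjugate (1 / (1 - δ)) (1 / δ) := by
    rw [Real.holderConjugate_iff]
    refine ⟨?_, ?_⟩
    · rw [one_div]
      exact (one_lt_inv₀ h1).2 (by linarith)
    · rw [one_div, one_div, inv_inv, inv_inv]
      ring
  have h2 := Real.inner_le_Lp_mul_Lq_of_nonneg (s := F) (f := fun g => φ g ^ 2)
    (g := fun _ => (1 : ℝ)) hc (fun g _ => by positivity) (fun _ _ => zero_le_one)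
  simp only [mul_one, Real.one_rpow, Finset.sum_const, nsmul_eq_mul, one_div, inv_inv] at h2
  refine h2.trans_eq ?_
  congr 2
  refine Finset.sum_congr rfl fun g _ => ?_
  rw [← Real.rpow_natCast, ← Real.rpow_mul (hφ g)]
  congr 1

lemma slow_of_lq {S : Set G} (hSf : S.Finite) {ε : ℝ} (hε : 0 < ε) :
    ∃ q : ℝ, 2 < q ∧ ∀ (H : Type) [NormedAddCommGroup H] [InnerProductSpace ℂ H]
      (π : BRep G H), LqCoefficients q π → SlowCoefficients S ε π := by
  classical
  set T : Finset G := hSf.toFinset with hT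
  set N : ℝ := (T.card : ℝ) + 1 with hN
  have hN1 : 1 ≤ N := by rw [hN]; linarith [Nat.cast_nonneg (α := ℝ) T.card]
  have hlog : 0 ≤ Real.log N := Real.log_nonneg hN1
  set δ : ℝ := min (1 / 2) (ε / (Real.log N + 1)) with hδdef
  have hδ : 0 < δ := lt_min (by norm_num) (by positivity)
  have hδ1 : δ < 1 := (min_le_left _ _).trans_lt (by norm_num)
  have hδN : δ * Real.log N ≤ ε := by
    calc δ * Real.log N ≤ ε / (Real.log N + 1) * Real.log N :=
          mul_le_mul_of_nonneg_right (min_le_right _ _) hlog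
      _ ≤ ε := by
          rw [div_mul_eq_mul_div, div_le_iff₀ (by linarith)]
          nlinarith
  have h1δ : 0 < 1 - δ := by linarith
  refine ⟨2 / (1 - δ), ?_, fun H _ _ π hπ => ?_⟩
  · rw [lt_div_iff₀ h1δ]
    linarith
  refine hπ.mono (Submodule.span_mono ?_)
  intro v hv
  have hv' : Summable fun g : G => ‖inner ℂ (π.op g v) v‖ ^ (2 / (1 - δ)) := hv
  set K : ℝ := ∑' g : G, ‖inner ℂ (π.op g v) v‖ ^ (2 / (1 - δ)) with hK
  have hK0 : 0 ≤ K := tsum_nonneg fun g => by positivity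
  refine ⟨K ^ (1 - δ), fun m F hF => ?_⟩
  have h1 := holder_two F (fun g => ‖inner ℂ (π.op g v) v‖) (fun g => norm_nonneg _) δ hδ hδ1
  refine h1.trans ?_
  have h2 : ∑ g ∈ F, ‖inner ℂ (π.op g v) v‖ ^ (2 / (1 - δ)) ≤ K :=
    hv'.sum_le_tsum F (fun g _ => by positivity)
  have h3 : (F.card : ℝ) ≤ N ^ m := by
    have h4 : F ⊆ T ^ m := by
      rw [← Finset.coe_subset, Finset.coe_pow, hT, Set.Finite.coe_toFinset]
      exact hF
    have h5 : F.card ≤ T.card ^ m := (Finset.card_le_card h4).trans Finset.card_pow_le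
    calc (F.card : ℝ) ≤ (T.card : ℝ) ^ m := by exact_mod_cast h5
      _ ≤ N ^ m := pow_le_pow_left₀ (Nat.cast_nonneg _) (by rw [hN]; linarith) m
  have h6 : (F.card : ℝ) ^ δ ≤ Real.exp (ε * m) := by
    calc (F.card : ℝ) ^ δ ≤ (N ^ m) ^ δ :=
          Real.rpow_le_rpow (Nat.cast_nonneg _) h3 hδ.le
      _ = Real.exp (δ * Real.log N * m) := by
          rw [← Real.rpow_natCast, ← Real.rpow_mul (by linarith), Real.rpow_def_of_pos (by linarith)]
          congr 1
          ring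
      _ ≤ Real.exp (ε * m) := by
          refine Real.exp_le_exp.2 ?_
          exact mul_le_mul_of_nonneg_right hδN (Nat.cast_nonneg _)
  have h7 : (∑ g ∈ F, ‖inner ℂ (π.op g v) v‖ ^ (2 / (1 - δ))) ^ (1 - δ) ≤ K ^ (1 - δ) :=
    Real.rpow_le_rpow (Finset.sum_nonneg fun g _ => by positivity) h2 h1δ.le
  exact mul_le_mul h7 h6 (by positivity) (by positivity)

variable (X : FinRes G)

theorem robustU (p : ℕ) (h : ∀ j ≤ p, Subsingleton (X.homology (toRed G) j)) :
    (∃ (S : Set G) (ε : ℝ), S.Finite ∧ 0 < ε ∧ ¬ SeenByUnitary X p S ε) ∧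
      ∃ q : ℝ, 2 < q ∧ ¬ SeenByLq X p q := by
  obtain ⟨S, ε, hSf, hS, hε, hε1, hrob⟩ := robust X p h
  have key : ¬ SeenByUnitary X p S ε := by
    rintro ⟨H, _, _, _, π, hu, hslow, i, hi, hnt⟩
    have h3 := nearTempered_of_slow hS hε hε1 π hu hslow
    obtain ⟨h1, h2⟩ := hrob H π.hom (St.nearTempered_hom S ε π h3) i hi
    rcases hnt with hnt | hnt
    · exact St.not_coh X π i h1 hnt
    · exact St.not_hom X π i h2 hnt
  refine ⟨⟨S, ε, hSf, hε, key⟩, ?_⟩
  obtain ⟨q, hq, hqS⟩ := slow_of_lq (G := G) hSf hε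
  refine ⟨q, hq, ?_⟩
  rintro ⟨H, _, _, _, π, hu, hlq, hi⟩
  exact key ⟨H, _, _, ‹_›, π, hu, hqS H π hlq, hi⟩

theorem finalU (p : ℕ)
    (h : (∀ (S : Set G) (ε : ℝ), S.Finite → 0 < ε → SeenByUnitary X p S ε) ∨
      (∀ q : ℝ, 2 < q → SeenByLq X p q)) :
    ∃ i ≤ p, Nontrivial (X.homology (toRed G) i) := by
  by_contra hcon
  push Not at hcon
  obtain ⟨⟨S, ε, hSf, hε, h1⟩, q, hq, h2⟩ := robustU X p (fun j hj => hcon j hj)
  rcases h with h | h
  · exact h1 (h S ε hSf hε)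
  · exact h2 (h q hq)

end

end Pool.Agent.X270.NT.U
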