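import Pool.Agent.X270.NT.StmtC
import Pool.Agent.X270.NT.FinalU

set_option autoImplicit false
set_option linter.unusedSectionVars false

open scoped Matrix ENNReal Pointwise InnerProductSpace
open Filter Topology

namespace Pool.Agent.X270.NT.C

open Pool.Agent.H496R3.ZS (Ell dl dl_apply permRep permRep_apply permRep_dl inner_dl_left integ
  integ_apply)
open Pool.Agent.H919R4.ZS (FinRes toRed RedC redCstar groupRing toOp toOp_mem lreg exact_of_subsingleton)
open Pool.Agent.X270.NT.St (BRep CohNonzero HomNonzero)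
open Pool.Agent.X270.NT.U (Unitary LqCoefficients SlowCoefficients slow_of_lq uint uint_apply
  norm_uint_le)

noncomputable section

variable {G : Type} [Group G]

/-! ### vanishing passes along ring homomorphisms -/

lemma subsingleton_comp (X : FinRes G) {S T : Type} [Ring S] [Ring T]
    (φ : MonoidAlgebra ℤ G →+* S) (ψ : S →+* T) (p : ℕ)
    (h : ∀ j ≤ p, Subsingleton (X.homology φ j)) :
    ∀ j ≤ p, Subsingleton (X.homology (ψ.comp φ) j) := by
  have hmap : ∀ i, (X.d i).map (ψ.comp φ) = ((X.d i).map φ).map ψ := by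
    intro i
    rw [Matrix.map_map]
    rfl
  intro j hj
  rw [Submodule.Quotient.subsingleton_iff, Submodule.submoduleOf_eq_top]
  intro v hv
  cases j with
  | zero =>
    obtain ⟨t, ht⟩ := contraction_zero X φ (h 0 hj)
    refine ⟨v ᵥ* t.map ψ, ?_⟩
    change (v ᵥ* t.map ψ) ᵥ* (X.d 0).map (ψ.comp φ) = v
    rw [hmap, Matrix.vecMul_vecMul, ← Matrix.map_mul, ht]
    rw [Matrix.map_one ψ (map_zero ψ) (map_one ψ), Matrix.vecMul_one]
  | succ i =>
    obtain ⟨s, t, hst⟩ := contraction_succ X φ i (fun k hk => h k (by omega))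
    have hv' : v ᵥ* ((X.d i).map φ).map ψ = 0 := by
      rw [← hmap]
      exact hv
    refine ⟨v ᵥ* t.map ψ, ?_⟩
    change (v ᵥ* t.map ψ) ᵥ* (X.d (i + 1)).map (ψ.comp φ) = v
    rw [hmap, Matrix.vecMul_vecMul, ← Matrix.map_mul]
    have e1 : t * (X.d (i + 1)).map φ = 1 - (X.d i).map φ * s := by rw [← hst]; abel
    rw [e1, Matrix.map_sub ψ (fun a b => map_sub ψ a b), Matrix.map_mul,
      Matrix.map_one ψ (map_zero ψ) (map_one ψ), Matrix.vecMul_sub, Matrix.vecMul_one,
      ← Matrix.vecMul_vecMul, hv', Matrix.zero_vecMul, sub_zero]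

/-! ### the Banach module -/

/-- the completion -/
abbrev LqC (G : Type) [Group G] (q : ℝ) : Type := UniformSpace.Completion (LqRing G q)

/-- the map from the complex group ring -/
def ofC (G : Type) [Group G] (q : ℝ) : MonoidAlgebra ℂ G →+* LqC G q :=
  (UniformSpace.Completion.coeRingHom : LqRing G q →+* LqC G q)

/-- the map from the integral group ring -/
def toZC (G : Type) [Group G] (q : ℝ) : MonoidAlgebra ℤ G →+* LqC G q :=
  (ofC G q).comp (MonoidAlgebra.mapRingHom G (Int.castRingHom ℂ))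

lemma norm_ofGroupRing (q : ℝ) (x : MonoidAlgebra ℂ G) : ‖ofC G q x‖ = lqNorm q x :=
  UniformSpace.Completion.norm_coe (E := LqRing G q) x

instance instNormedSpaceLqRing (q : ℝ) : NormedSpace ℂ (LqRing G q) where
  toModule := (show Module ℂ (MonoidAlgebra ℂ G) from inferInstance)
  norm_smul_le := lqNorm_smul_le q

lemma ofGroupRing_smul (q : ℝ) (c : ℂ) (x : MonoidAlgebra ℂ G) :
    ofC G q (c • x) = c • ofC G q x :=
  UniformSpace.Completion.coe_smul (X := LqRing G q) c x

lemma denseRange_ofGroupRing (q : ℝ) : DenseRange (ofC G q) :=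
  UniformSpace.Completion.denseRange_coe (α := LqRing G q)

lemma smul_mul_LqAlg (q : ℝ) (c : ℂ) (a b : LqC G q) : (c • a) * b = c • (a * b) := by
  refine (denseRange_ofGroupRing (G := G) q).induction_on₂ (isClosed_eq ?_ ?_) ?_ a b
  · exact ((continuous_const_smul c).comp continuous_fst).mul continuous_snd
  · exact (continuous_const_smul c).comp (continuous_fst.mul continuous_snd)
  · intro x y
    rw [← ofGroupRing_smul, ← map_mul, ← map_mul, ← ofGroupRing_smul, smul_mul_assoc]

/-- right multiplication with the inverses -/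
def rightRep (G : Type) [Group G] (q : ℝ) : G →* (LqC G q →L[ℂ] LqC G q) where
  toFun g := LinearMap.mkContinuous
    { toFun := fun a => a * ofC G q (MonoidAlgebra.single g⁻¹ 1)
      map_add' := fun a b => add_mul _ _ _
      map_smul' := fun c a => smul_mul_LqAlg q c a _ }
    ‖ofC G q (MonoidAlgebra.single g⁻¹ 1)‖ (fun a => by
      rw [mul_comm]
      exact norm_mul_le _ _)
  map_one' := by
    refine ContinuousLinearMap.ext fun a => ?_
    change a * ofC G q (MonoidAlgebra.single (1 : G)⁻¹ 1) = a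
    rw [inv_one, ← MonoidAlgebra.one_def, map_one, mul_one]
  map_mul' g h := by
    refine ContinuousLinearMap.ext fun a => ?_
    change a * ofC G q (MonoidAlgebra.single (g * h)⁻¹ 1) =
      (a * ofC G q (MonoidAlgebra.single h⁻¹ 1)) *
        ofC G q (MonoidAlgebra.single g⁻¹ 1)
    rw [mul_assoc, ← map_mul, MonoidAlgebra.single_mul_single, mul_inv_rev, one_mul]

lemma rightRep_apply (q : ℝ) (g : G) (a : LqC G q) :
    rightRep G q g a = a * ofC G q (MonoidAlgebra.single g⁻¹ 1) := rfl

lemma sum_rightRep (q : ℝ) (x : MonoidAlgebra ℂ G) (a : LqC G q) :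
    (∑ g ∈ x.coeff.support, x.coeff g • rightRep G q g) a = a * ofC G q (inv x) := by
  have h1 : inv x = ∑ g ∈ x.coeff.support, x.coeff g • (MonoidAlgebra.single g⁻¹ (1 : ℂ)) := by
    conv_lhs => rw [eq_sum_single x]
    have h0 : ∀ s : Finset G, inv (∑ g ∈ s, MonoidAlgebra.single g (x.coeff g)) =
        ∑ g ∈ s, inv (MonoidAlgebra.single g (x.coeff g)) := fun s =>
      map_sum (⟨⟨inv, inv_zero⟩, inv_add⟩ : MonoidAlgebra ℂ G →+ MonoidAlgebra ℂ G) _ s
    rw [h0]
    refine Finset.sum_congr rfl fun g _ => ?_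
    rw [MonoidAlgebra.smul_single, smul_eq_mul, mul_one]
    exact inv_single g _
  rw [h1, map_sum, Finset.mul_sum, sum_apply]
  refine Finset.sum_congr rfl fun g _ => ?_
  rw [smul_apply, rightRep_apply, ofGroupRing_smul]
  -- commute the scalar
  have h2 : ∀ (c : ℂ) (a b : LqC G q), a * (c • b) = c • (a * b) := by
    intro c a b
    refine (denseRange_ofGroupRing (G := G) q).induction_on₂ (isClosed_eq ?_ ?_) ?_ a b
    · exact continuous_fst.mul ((continuous_const_smul c).comp continuous_snd)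
    · exact (continuous_const_smul c).comp (continuous_fst.mul continuous_snd)
    · intro x y
      rw [← ofGroupRing_smul, ← map_mul, ← map_mul, ← ofGroupRing_smul, mul_smul_comm]
  rw [h2]

/-- the norm of `C*_{ℓ^q}(G)` for `q` close to `2` -/
lemma lqNorm_le_redNorm {S : Set G} (hSf : S.Finite) (hS : S⁻¹ = S) {ε : ℝ} (hε : 0 < ε) :
    ∃ q : ℝ, 2 < q ∧ ∀ (n : ℕ) (x : MonoidAlgebra ℂ G), (x.coeff.support : Set G) ⊆ S ^ n →
      lqNorm q x ≤ Real.exp (ε * n / 2) * NT.redNorm x := by
  obtain ⟨q, hq, hqS⟩ := slow_of_lq (G := G) hSf hε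
  refine ⟨q, hq, fun n x hx => ?_⟩
  have hr : 0 ≤ NT.redNorm x := norm_nonneg _
  refine lqNorm_le q x _ (by positivity) ?_
  intro H _ _ _ π hu hlq v hv
  have h1 : St.act π x v = uint π.hom x v := by
    rw [uint_apply]
    rfl
  rw [h1]
  refine (norm_uint_le π.hom (fun g v => hu g v) hS (hqS H π hlq) n x hx v).trans ?_
  rw [redNorm_eq]
  exact mul_le_of_le_one_right (by positivity) hv

lemma nearTempered_rightRep {S : Set G} (hS : S⁻¹ = S) {ε : ℝ} (hε : 0 < ε) (hε1 : ε < 1) (q : ℝ)
    (h : ∀ (n : ℕ) (x : MonoidAlgebra ℂ G), (x.coeff.support : Set G) ⊆ S ^ n →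
      lqNorm q x ≤ Real.exp (ε * n / 2) * NT.redNorm x) :
    NT.NearTempered S ε (rightRep G q) := by
  refine ⟨1, fun m x hx => ?_⟩
  have hr : 0 ≤ NT.redNorm x := norm_nonneg _
  have hl := NT.l1Norm_nonneg x
  have hrl := redNorm_le_l1Norm x
  have hsupp : ((inv x).coeff.support : Set G) ⊆ S ^ m := by
    intro g hg
    have h2 := support_inv x hg
    have h3 : g ∈ (S ^ m)⁻¹ := by
      rw [Set.mem_inv] at h2 ⊢
      exact hx h2
    rwa [← inv_pow, hS] at h3
  have h1 : ‖∑ g ∈ x.coeff.support, x.coeff g • rightRep G q g‖ ≤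
      Real.exp (ε * m / 2) * NT.redNorm x := by
    refine ContinuousLinearMap.opNorm_le_bound _ (by positivity) fun a => ?_
    rw [sum_rightRep]
    refine (norm_mul_le _ _).trans ?_
    rw [mul_comm]
    refine mul_le_mul_of_nonneg_right ?_ (norm_nonneg _)
    rw [norm_ofGroupRing]
    refine (h m (inv x) hsupp).trans ?_
    refine mul_le_mul_of_nonneg_left ?_ (Real.exp_pos _).le
    rw [redNorm_eq, redNorm_eq]
    exact norm_integ_inv_le x
  refine h1.trans ?_
  have e1 : Real.exp (ε * m / 2) ≤ Real.exp (ε * m) := by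
    refine Real.exp_le_exp.2 ?_
    have : 0 ≤ ε * m := by positivity
    linarith
  have e2 : NT.redNorm x ≤ NT.redNorm x ^ (1 - ε) * NT.l1Norm x ^ ε := by
    calc NT.redNorm x = NT.redNorm x ^ (1 - ε) * NT.redNorm x ^ ε := by
          rcases hr.eq_or_lt with h | h
          · rw [← h, Real.zero_rpow (by linarith), zero_mul]
          · rw [← Real.rpow_add h]; simp
      _ ≤ _ := by gcongr
  calc Real.exp (ε * m / 2) * NT.redNorm x ≤ Real.exp (ε * m) *
        (NT.redNorm x ^ (1 - ε) * NT.l1Norm x ^ ε) :=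
        mul_le_mul e1 e2 hr (Real.exp_pos _).le
    _ = _ := by ring

lemma toLq_eq (q : ℝ) (b : MonoidAlgebra ℤ G) :
    toZC G q b = b.coeff.sum fun g c => c • ofC G q (MonoidAlgebra.single g 1) := by
  refine MonoidAlgebra.induction_linear b ?_ ?_ ?_
  · simp
  · intro x y hx hy
    rw [map_add, hx, hy, MonoidAlgebra.coeff_add]
    exact (Finsupp.sum_add_index' (by simp) (by intro a b c; rw [add_smul])).symm
  · intro g c
    rw [MonoidAlgebra.coeff_single, Finsupp.sum_single_index (by simp)]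
    rw [toZC, RingHom.comp_apply, MonoidAlgebra.mapRingHom_single]
    have h1 : (MonoidAlgebra.single g ((Int.castRingHom ℂ) c) : MonoidAlgebra ℂ G) =
        c • MonoidAlgebra.single g 1 := by
      rw [MonoidAlgebra.smul_single, zsmul_eq_mul, mul_one]
      rfl
    rw [h1, map_zsmul]

lemma actR_rightRep (q : ℝ) (b : MonoidAlgebra ℤ G) (a : LqC G q) :
    actR (rightRep G q) b a = a * toZC G q b := by
  rw [toLq_eq, actR, Finsupp.sum, Finset.mul_sum]
  refine Finset.sum_congr rfl fun g _ => ?_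
  rw [rightRep_apply, inv_inv, mul_smul_comm]

/-- vanishing for the module gives vanishing for the algebra -/
lemma subsingleton_of_module (X : FinRes G) (q : ℝ) (i : ℕ)
    (h : Subsingleton (homologyV X (rightRep G q) i)) :
    Subsingleton (X.homology (toZC G q) i) := by
  rw [QuotientAddGroup.subsingleton_iff, AddSubgroup.addSubgroupOf_eq_top] at h
  rw [Submodule.Quotient.subsingleton_iff, Submodule.submoduleOf_eq_top]
  intro v hv
  have hbd : ∀ (j : ℕ) (w : Fin (X.n (j + 1)) → LqC G q),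
      bdV X (rightRep G q) j w = w ᵥ* (X.d j).map (toZC G q) := by
    intro j w
    funext k
    change ∑ l, actR (rightRep G q) (X.d j l k) (w l) = ∑ l, w l * toZC G q (X.d j l k)
    exact Finset.sum_congr rfl fun l _ => actR_rightRep q _ _
  have hv' : v ∈ cyclesV X (rightRep G q) i := by
    cases i with
    | zero => trivial
    | succ i =>
      change bdV X (rightRep G q) i v = 0
      rw [hbd]
      exact hv
  obtain ⟨w, hw⟩ := h hv'
  refine ⟨w, ?_⟩
  change w ᵥ* (X.d i).map (toZC G q) = v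
  rw [← hbd]
  exact hw

/-- **one direction**: vanishing for `C*_r(G)` gives vanishing for `C*_{ℓ^q}(G)`, `q` near `2` -/
theorem lq_of_red (X : FinRes G) (p : ℕ)
    (h : ∀ j ≤ p, Subsingleton (X.homology (toRed G) j)) :
    ∃ q : ℝ, 2 < q ∧ ∀ j ≤ p, Subsingleton (X.homology (toLq G q) j) := by
  obtain ⟨S, ε, hSf, hS, hε, hε1, hrob⟩ := robust X p h
  obtain ⟨q, hq, hqS⟩ := lqNorm_le_redNorm hSf hS hε
  refine ⟨q, hq, fun j hj => subsingleton_of_module X q j ?_⟩
  exact (hrob (LqC G q) (rightRep G q) (nearTempered_rightRep hS hε hε1 q hqS) j hj).2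

end

end Pool.Agent.X270.NT.C
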