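import Pool.Agent.X270.NT.CxA

set_option autoImplicit false
set_option linter.unusedSectionVars false

open scoped Matrix ENNReal Pointwise InnerProductSpace
open Filter Topology

namespace Pool.Agent.X270.NT.C

open Pool.Agent.H496R3.ZS (Ell dl dl_apply permRep permIso permRep_apply permRep_dl inner_dl_left
  integ integ_apply)
open Pool.Agent.H919R4.ZS (FinRes toRed RedC redCstar groupRing toOp toOp_mem lreg Op)
open Pool.Agent.X270.NT.St (BRep CohNonzero HomNonzero)
open Pool.Agent.X270.NT.U (Unitary LqCoefficients)

noncomputable section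

variable {G : Type} [Group G]

/-- the left regular representation -/
def lam (G : Type) [Group G] : BRep G (Ell G) where
  op g f := permRep G G g f
  map_add g v w := map_add _ _ _
  map_smul g c v := map_smul _ _ _
  bounded g := ⟨‖permRep G G g‖, fun v => ContinuousLinearMap.le_opNorm _ _⟩
  map_one v := by rw [map_one]; rfl
  map_mul g h v := by rw [map_mul]; rfl

lemma unitary_lam : Unitary (lam G) := fun g v =>
  (permIso (MulAction.toPerm (g⁻¹ : G) : G ≃ G)).norm_map v

lemma lq_lam (q : ℝ) (hq : 0 < q) : LqCoefficients q (lam G) := by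
  classical
  have h1 : ∀ h : G, (dl h : Ell G) ∈
      {v : Ell G | Summable fun g : G => ‖inner ℂ ((lam G).op g v) v‖ ^ q} := by
    intro h
    refine summable_of_ne_finset_zero (s := {1}) fun g hg => ?_
    rw [Finset.mem_singleton] at hg
    have e1 : inner ℂ ((lam G).op g (dl h : Ell G)) (dl h : Ell G) = 0 := by
      change inner ℂ (permRep G G g (dl h) : Ell G) (dl h : Ell G) = 0
      rw [permRep_dl, inner_dl_left, dl_apply, if_neg]
      intro h2
      exact hg (mul_eq_right.1 h2)
    rw [e1, norm_zero, Real.zero_rpow hq.ne']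
  intro v
  have h2 : HasSum (fun z : G => v z • (dl z : Ell G)) v := by
    have h := lp.hasSum_single (p := 2) (by norm_num) v
    have h5 : (fun z : G => v z • (dl z : Ell G)) = fun z => lp.single 2 z (v z) := by
      funext z
      ext w
      rw [lp.coeFn_smul, Pi.smul_apply, dl_apply, smul_eq_mul]
      by_cases h : w = z
      · subst h; simp
      · rw [if_neg h, lp.single_apply_ne _ _ _ h, mul_zero]
    rw [h5]
    exact h
  have h3 : Tendsto (fun E : Finset G => ∑ z ∈ E, v z • (dl z : Ell G)) atTop (𝓝 v) := h2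
  refine mem_closure_of_tendsto h3 (Eventually.of_forall fun E => ?_)
  exact Submodule.sum_mem _ fun z _ => Submodule.smul_mem _ _ (Submodule.subset_span (h1 z))

lemma redNorm_le_lqNorm (q : ℝ) (hq : 0 < q) (x : MonoidAlgebra ℂ G) :
    ‖integ G G x‖ ≤ lqNorm q x := by
  refine ContinuousLinearMap.opNorm_le_bound _ (lqNorm_nonneg q x) fun v => ?_
  have h1 := norm_act_le_lq (lam G) unitary_lam q (lq_lam q hq) x v
  have h2 : St.act (lam G) x v = integ G G x v := by
    rw [integ_apply]
    rfl
  rwa [h2] at h1

/-- the integrated form as a ring homomorphism of the seminormed ring -/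
def integR (G : Type) [Group G] (q : ℝ) : LqRing G q →+* (Ell G →L[ℂ] Ell G) :=
  (integ G G).toRingHom

lemma continuous_integR (q : ℝ) (hq : 0 < q) : Continuous (integR G q) := by
  refine AddMonoidHomClass.continuous_of_bound (integR G q) 1 fun x => ?_
  rw [one_mul]
  exact redNorm_le_lqNorm q hq x

/-- the extension to `C*_{ℓ^q}(G)` -/
def extO (G : Type) [Group G] (q : ℝ) (hq : 0 < q) : LqAlg G q →+* (Ell G →L[ℂ] Ell G) :=
  UniformSpace.Completion.extensionHom (integR G q) (continuous_integR q hq)

lemma extO_of (q : ℝ) (hq : 0 < q) (x : MonoidAlgebra ℂ G) :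
    extO G q hq (ofGroupRing G q x) = integ G G x := by
  have := UniformSpace.Completion.extensionHom_coe (integR G q) (continuous_integR q hq) x
  exact this

lemma continuous_extO (q : ℝ) (hq : 0 < q) : Continuous (extO G q hq) :=
  UniformSpace.Completion.continuous_extension

lemma mem_redCstar (T : Op G) (hT : T ∈ groupRing G) : T ∈ redCstar G :=
  Subring.le_topologicalClosure _ hT

lemma integ_mem (x : MonoidAlgebra ℂ G) : (show Op G from integ G G x) ∈ redCstar G := by
  refine mem_redCstar _ ?_
  refine MonoidAlgebra.induction_linear x ?_ ?_ ?_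
  · rw [map_zero]; exact Subring.zero_mem _
  · intro x y hx hy
    rw [map_add]; exact Subring.add_mem _ hx hy
  · intro g c
    refine Subring.subset_closure ⟨c, g, ?_⟩
    rw [integ, MonoidAlgebra.lift_single]
    rfl

lemma isClosed_redCstar : IsClosed {T : Op G | T ∈ redCstar G} :=
  Subring.isClosed_topologicalClosure (groupRing G)

lemma extO_mem (q : ℝ) (hq : 0 < q) (a : LqAlg G q) :
    (show Op G from extO G q hq a) ∈ redCstar G := by
  have hcl : IsClosed {T : Ell G →L[ℂ] Ell G | (show Op G from T) ∈ redCstar G} :=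
    isClosed_redCstar
  refine (denseRange_ofGroupRing (G := G) q).induction_on a
    (hcl.preimage (continuous_extO q hq)) fun x => ?_
  have h1 := integ_mem x
  rw [← extO_of q hq] at h1
  exact h1

/-- the homomorphism `C*_{ℓ^q}(G) → C*_r(G)` -/
def toRedC (G : Type) [Group G] (q : ℝ) (hq : 0 < q) : LqAlg G q →+* RedC G :=
  RingHom.codRestrict (show LqAlg G q →+* Op G from extO G q hq) (redCstar G) (extO_mem q hq)

lemma toRedC_comp (q : ℝ) (hq : 0 < q) : (toRedC G q hq).comp (toLq G q) = toRed G := by
  refine RingHom.ext fun b => ?_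
  refine Subtype.ext ?_
  change extO G q hq (ofGroupRing G q (cz b)) = valE (toRed G b)
  rw [extO_of, valE_toRed]

/-- **the other direction** -/
theorem red_of_lq (X : FinRes G) (p : ℕ) (q : ℝ) (hq : 0 < q)
    (h : ∀ j ≤ p, Subsingleton (X.homology (toLq G q) j)) :
    ∀ j ≤ p, Subsingleton (X.homology (toRed G) j) := by
  have h1 := subsingleton_comp X (toLq G q) (toRedC G q hq) p h
  rw [toRedC_comp] at h1
  exact h1

theorem main_iff (X : FinRes G) (p : ℕ) :
    (∃ i ≤ p, Nontrivial (X.homology (toRed G) i)) ↔
      ∀ q : ℝ, 2 < q → ∃ i ≤ p, Nontrivial (X.homology (toLq G q) i) := by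
  constructor
  · rintro ⟨i, hi, hnt⟩ q hq
    by_contra hcon
    push Not at hcon
    have h1 := red_of_lq X p q (by linarith) (fun j hj => hcon j hj) i hi
    exact not_nontrivial_iff_subsingleton.2 h1 hnt
  · intro h
    by_contra hcon
    push Not at hcon
    obtain ⟨q, hq, h1⟩ := lq_of_red X p (fun j hj => hcon j hj)
    obtain ⟨i, hi, hnt⟩ := h q hq
    exact not_nontrivial_iff_subsingleton.2 (h1 i hi) hnt

end

end Pool.Agent.X270.NT.C
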