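import Pool.Agent.X265.KCo.KQ

/-!
`K_0` of a family of quotient completions whose norms are continuous at `q = 2`.
-/

set_option autoImplicit false
set_option linter.unusedSectionVars false

open scoped Matrix
open Filter Topology

namespace Pool.Agent.X270.NT.KG

open Pool.Agent.Y483.CS (K0 Eqv nu fromBlocks_idem)
open Pool.Agent.X265.KCo (eqv_of_near isUnit_of_small exists_sub)

noncomputable section

variable {R : Type} [Ring R] {S : ℝ → Type} [∀ q, NormedRing (S q)] [∀ q, CompleteSpace (S q)]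
  (F : ∀ q, R →+* S q)

/-! ### matrices -/

lemma mmul {R S : Type} [Ring R] [Ring S] (φ : R →+* S) {ι κ μ : Type} [Fintype κ]
    (A : Matrix ι κ R) (B : Matrix κ μ R) :
    (A * B).map φ = A.map φ * B.map φ := by
  ext1 i j
  rw [Matrix.map_apply, Matrix.mul_apply, Matrix.mul_apply, map_sum]
  exact Finset.sum_congr rfl fun k _ => map_mul φ _ _

lemma msub {R S : Type} [Ring R] [Ring S] (φ : R →+* S) {ι κ : Type} (A B : Matrix ι κ R) :
    (A - B).map φ = A.map φ - B.map φ := by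
  ext1 i j
  exact map_sub φ _ _

section mat

variable {ι κ : Type} [Fintype ι] [Fintype κ] [DecidableEq ι] [DecidableEq κ]

lemma exists_seq' {ι κ : Type} [Fintype ι] [Fintype κ] (hd : DenseRange (F 2))
    (s : Matrix ι κ (S 2)) :
    ∃ x : ℕ → Matrix ι κ R,
      Tendsto (fun n => ((x n).map (F 2) : Matrix ι κ (S 2))) atTop (𝓝 s) := by
  have h : ∀ i j, ∃ x : ℕ → R, Tendsto (fun n => F 2 (x n)) atTop
      (𝓝 (s i j)) := by
    intro i j
    obtain ⟨u, hu, hlim⟩ := mem_closure_iff_seq_limit.1 (hd (s i j))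
    choose x hx using hu
    refine ⟨x, ?_⟩
    have e : (fun n => F 2 (x n)) = u := funext hx
    rw [e]
    exact hlim
  choose x hx using h
  refine ⟨fun n => Matrix.of fun i j => x i j n, ?_⟩
  exact tendsto_pi_nhds.2 fun i => tendsto_pi_nhds.2 fun j => hx i j

theorem eqv_near (hd : DenseRange (F 2))
    (hev : ∀ (z : R) (c : ℝ), ‖F 2 z‖ < c → ∀ᶠ q in 𝓝[>] (2 : ℝ), ‖F q z‖ < c)
    (e : Matrix ι ι R) (f : Matrix κ κ R)
    (he : e * e = e) (hf : f * f = f)
    (h : Eqv (e.map (F 2)) (f.map (F 2))) :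
    ∃ q : ℝ, 2 < q ∧ Eqv (e.map (F q)) (f.map (F q)) := by
  obtain ⟨x0, y0, hxy, hyx⟩ := h
  set e' : Matrix ι ι (S 2) := e.map (F 2) with he'd
  set f' : Matrix κ κ (S 2) := f.map (F 2) with hf'd
  have he' : e' * e' = e' := by rw [he'd, ← mmul, he]
  have hf' : f' * f' = f' := by rw [hf'd, ← mmul, hf]
  let Φ : Matrix ι κ (S 2) × Matrix κ ι (S 2) →
      Matrix ι ι (S 2) := fun p => e' - (e' * p.1 * f') * (f' * p.2 * e')
  let Ψ : Matrix ι κ (S 2) × Matrix κ ι (S 2) →
      Matrix κ κ (S 2) := fun p => f' - (f' * p.2 * e') * (e' * p.1 * f')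
  have hΦ : Continuous Φ :=
    continuous_const.sub (((continuous_const.matrix_mul continuous_fst).matrix_mul
      continuous_const).matrix_mul ((continuous_const.matrix_mul continuous_snd).matrix_mul
      continuous_const))
  have hΨ : Continuous Ψ :=
    continuous_const.sub (((continuous_const.matrix_mul continuous_snd).matrix_mul
      continuous_const).matrix_mul ((continuous_const.matrix_mul continuous_fst).matrix_mul
      continuous_const))
  have hΦ0 : Φ (x0, y0) = 0 := by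
    show e' - (e' * x0 * f') * (f' * y0 * e') = 0
    have : (e' * x0 * f') * (f' * y0 * e') = e' * (x0 * y0) * (x0 * y0) * e' := by
      calc (e' * x0 * f') * (f' * y0 * e') = e' * x0 * (f' * f') * y0 * e' := by
            simp only [Matrix.mul_assoc]
        _ = e' * (x0 * y0) * (x0 * y0) * e' := by
            rw [hf', ← hyx]; simp only [Matrix.mul_assoc]
    rw [this, hxy, he', he', he', sub_self]
  have hΨ0 : Ψ (x0, y0) = 0 := by
    show f' - (f' * y0 * e') * (e' * x0 * f') = 0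
    have : (f' * y0 * e') * (e' * x0 * f') = f' * (y0 * x0) * (y0 * x0) * f' := by
      calc (f' * y0 * e') * (e' * x0 * f') = f' * y0 * (e' * e') * x0 * f' := by
            simp only [Matrix.mul_assoc]
        _ = f' * (y0 * x0) * (y0 * x0) * f' := by
            rw [he', ← hxy]; simp only [Matrix.mul_assoc]
    rw [this, hyx, hf', hf', hf', sub_self]
  let W : Set (Matrix ι κ (S 2) × Matrix κ ι (S 2)) :=
    {p | (∀ i j, ‖Φ p i j‖ < 1 / (Fintype.card ι + 1)) ∧
      ∀ i j, ‖Ψ p i j‖ < 1 / (Fintype.card κ + 1)}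
  have hW : IsOpen W := by
    have h1 : IsOpen {p | ∀ i j, ‖Φ p i j‖ < 1 / (Fintype.card ι + 1)} := by
      simp only [Set.setOf_forall]
      refine isOpen_iInter_of_finite fun i => isOpen_iInter_of_finite fun j => ?_
      exact isOpen_lt (hΦ.matrix_elem i j).norm continuous_const
    have h2 : IsOpen {p | ∀ i j, ‖Ψ p i j‖ < 1 / (Fintype.card κ + 1)} := by
      simp only [Set.setOf_forall]
      refine isOpen_iInter_of_finite fun i => isOpen_iInter_of_finite fun j => ?_
      exact isOpen_lt (hΨ.matrix_elem i j).norm continuous_const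
    exact h1.inter h2
  have hne : (x0, y0) ∈ W := by
    refine ⟨fun i j => ?_, fun i j => ?_⟩
    · rw [hΦ0, Matrix.zero_apply, norm_zero]; positivity
    · rw [hΨ0, Matrix.zero_apply, norm_zero]; positivity
  obtain ⟨X, hX⟩ := exists_seq' F hd x0
  obtain ⟨Y, hY⟩ := exists_seq' F hd y0
  have hlim := (hX.prodMk_nhds hY).eventually (hW.mem_nhds hne)
  obtain ⟨n, hn⟩ := hlim.exists
  set Xc : Matrix ι κ R := X n with hXc
  set Yc : Matrix κ ι R := Y n with hYc
  have hXY1 : ∀ i j, ‖(e' - (e' * Xc.map (F 2) * f') * (f' * Yc.map (F 2) * e')) i j‖ <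
    1 / (Fintype.card ι + 1) := hn.1
  have hXY2 : ∀ i j, ‖(f' - (f' * Yc.map (F 2) * e') * (e' * Xc.map (F 2) * f')) i j‖ <
    1 / (Fintype.card κ + 1) := hn.2
  let x := e * Xc * f
  let y := f * Yc * e
  have hw : (e - x * y).map (F 2) =
      e' - (e' * Xc.map (F 2) * f') * (f' * Yc.map (F 2) * e') := by
    rw [msub, mmul, mmul,
      mmul, mmul, mmul]
  have hw' : (f - y * x).map (F 2) =
      f' - (f' * Yc.map (F 2) * e') * (e' * Xc.map (F 2) * f') := by
    rw [msub, mmul, mmul,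
      mmul, mmul, mmul]
  have ev1 : ∀ᶠ q in 𝓝[>] (2 : ℝ), ∀ i j,
      ‖F q ((e - x * y) i j)‖ < 1 / (Fintype.card ι + 1) := by
    rw [eventually_all]; intro i
    rw [eventually_all]; intro j
    apply hev
    have := hXY1 i j
    rw [← hw] at this
    exact this
  have ev2 : ∀ᶠ q in 𝓝[>] (2 : ℝ), ∀ i j,
      ‖F q ((f - y * x) i j)‖ < 1 / (Fintype.card κ + 1) := by
    rw [eventually_all]; intro i
    rw [eventually_all]; intro j
    apply hev
    have := hXY2 i j
    rw [← hw'] at this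
    exact this
  obtain ⟨q, ⟨h1, h2⟩, hq⟩ := ((ev1.and ev2).and self_mem_nhdsWithin).exists
  refine ⟨q, hq, ?_⟩
  have hx1 : e * x = x := by
    show e * (e * Xc * f) = e * Xc * f
    rw [← Matrix.mul_assoc, ← Matrix.mul_assoc, he]
  have hx2 : x * f = x := by
    show e * Xc * f * f = e * Xc * f
    rw [Matrix.mul_assoc, hf]
  have hy1 : f * y = y := by
    show f * (f * Yc * e) = f * Yc * e
    rw [← Matrix.mul_assoc, ← Matrix.mul_assoc, hf]
  have hy2 : y * e = y := by
    show f * Yc * e * e = f * Yc * e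
    rw [Matrix.mul_assoc, he]
  refine eqv_of_near _ _ ?_ ?_ (x.map (F q)) (y.map (F q)) ?_ ?_ ?_ ?_ ?_ ?_
  · rw [← mmul, he]
  · rw [← mmul, hf]
  · rw [← mmul, hx1]
  · rw [← mmul, hx2]
  · rw [← mmul, hy1]
  · rw [← mmul, hy2]
  · apply isUnit_of_small
    intro i j
    rw [← mmul, ← msub]
    exact h1 i j
  · apply isUnit_of_small
    intro i j
    rw [← mmul, ← msub]
    exact h2 i j

end mat

lemma blocks_map {R S : Type} [Ring R] [Ring S] (φ : R →+* S) {a r : ℕ}
    (e : Matrix (Fin a) (Fin a) R) :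
    (Matrix.fromBlocks e 0 0 (1 : Matrix (Fin r) (Fin r) R)).map φ =
      Matrix.fromBlocks (e.map φ) 0 0 (1 : Matrix (Fin r) (Fin r) S) := by
  rw [Matrix.fromBlocks_map]
  congr 1
  · ext i j; exact map_zero φ
  · ext i j; exact map_zero φ
  · exact Matrix.map_one _ (map_zero φ) (map_one φ)

/-- an element of `K_0(R)` which dies in `K_0(S 2)` dies in `K_0(S q)` -/
theorem k0_lim (hd : DenseRange (F 2))
    (hev : ∀ (z : R) (c : ℝ), ‖F 2 z‖ < c → ∀ᶠ q in 𝓝[>] (2 : ℝ), ‖F q z‖ < c)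
    (z : K0 R) (hz : K0.map (nu (F 2)) z = 0) :
    ∃ q : ℝ, 2 < q ∧ K0.map (nu (F q)) z = 0 := by
  obtain ⟨a, b, e, f, he, hf, rfl⟩ := exists_sub z
  rw [map_sub, sub_eq_zero, K0.map_cls, K0.map_cls, K0.cls_eq_iff] at hz
  obtain ⟨r, hr⟩ := hz
  have h1 : Eqv ((Matrix.fromBlocks e 0 0 (1 : Matrix (Fin r) (Fin r) _)).map (F 2))
      ((Matrix.fromBlocks f 0 0 (1 : Matrix (Fin r) (Fin r) _)).map (F 2)) := by
    rw [blocks_map, blocks_map]
    exact hr
  obtain ⟨q, hq, h2⟩ := eqv_near F hd hev _ _ (fromBlocks_idem he (by simp))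
    (fromBlocks_idem hf (by simp)) h1
  refine ⟨q, hq, ?_⟩
  rw [map_sub, sub_eq_zero, K0.map_cls, K0.map_cls, K0.cls_eq_iff]
  refine ⟨r, ?_⟩
  rw [blocks_map, blocks_map] at h2
  exact h2

end

end Pool.Agent.X270.NT.KG
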