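import Pool.Agent.X270.NT.StmtK2
import Pool.Agent.X270.NT.CxB
import Pool.Agent.X265.KCo.KQ

set_option autoImplicit false
set_option linter.unusedSectionVars false

open scoped Matrix ENNReal Pointwise InnerProductSpace
open Filter Topology

namespace Pool.Agent.X270.NT.K2

open UniformSpace
open Pool.Agent.Y483.CS (GA CMax URep HS K0 Eqv nu toC fromBlocks_idem)
open Pool.Agent.H919R4.ZS (RedC redCstar groupRing Op lreg)
open Pool.Agent.H496R3.ZS (Ell integ permRep)
open Pool.Agent.H919R4.AS (valR_mem)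
open Pool.Agent.X270.NT.St (BRep)
open Pool.Agent.X270.NT.U (Unitary LqCoefficients)
open Pool.Agent.X270.NT.C (LqAlg lqNorm ofGroupRing lqNorm_le lqNorm_nonneg norm_act_le_lq
  lqNorm_le_redNorm redNorm_le_lqNorm)
open Pool.Agent.X265.KCo (eqv_of_near isUnit_of_small exists_sub dense_toC norm_toC)

noncomputable section

variable {G : Type} [Group G]

/-! ### the norms for `q` close to `2` -/

lemma lq_mono {H : Type} [NormedAddCommGroup H] [InnerProductSpace ℂ H] (π : BRep G H)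
    (hu : Unitary π) {q q' : ℝ} (hq' : 0 < q') (h : q' ≤ q) (hl : LqCoefficients q' π) :
    LqCoefficients q π := by
  refine hl.mono (Submodule.span_mono ?_)
  intro v hv
  have hv' : Summable fun g : G => ‖inner ℂ (π.op g v) v‖ ^ q' := hv
  change Summable fun g : G => ‖inner ℂ (π.op g v) v‖ ^ q
  refine Summable.of_nonneg_of_le (fun g => by positivity) (fun g => ?_)
    (hv'.mul_left ((‖v‖ ^ 2) ^ (q - q')))
  have h1 : ‖inner ℂ (π.op g v) v‖ ≤ ‖v‖ ^ 2 := by
    refine (norm_inner_le_norm _ _).trans_eq ?_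
    rw [hu g v, pow_two]
  have h2 : ‖inner ℂ (π.op g v) v‖ ^ q =
      ‖inner ℂ (π.op g v) v‖ ^ (q - q') * ‖inner ℂ (π.op g v) v‖ ^ q' := by
    rcases (norm_nonneg (inner ℂ (π.op g v) v)).eq_or_lt with h0 | h0
    · rw [← h0, Real.zero_rpow hq'.ne', mul_zero, Real.zero_rpow (by linarith)]
    · rw [← Real.rpow_add h0]
      congr 1
      ring
  rw [h2]
  exact mul_le_mul_of_nonneg_right (Real.rpow_le_rpow (norm_nonneg _) h1 (by linarith))
    (by positivity)

lemma lqNorm_mono {q q' : ℝ} (hq' : 0 < q') (h : q' ≤ q) (x : MonoidAlgebra ℂ G) :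
    lqNorm q' x ≤ lqNorm q x := by
  refine lqNorm_le q' x _ (lqNorm_nonneg q x) ?_
  intro H _ _ _ π hu hl v hv
  exact (norm_act_le_lq π hu q (lq_mono π hu hq' h hl) x v).trans
    (mul_le_of_le_one_right (lqNorm_nonneg q x) hv)

lemma lqNorm_lt (x : MonoidAlgebra ℂ G) {c : ℝ} (hx : NT.redNorm x < c) :
    ∀ᶠ q in 𝓝[>] (2 : ℝ), lqNorm q x < c := by
  classical
  set S : Set G := (x.coeff.support : Set G) ∪ (x.coeff.support : Set G)⁻¹ with hS
  have hSf : S.Finite := (Finset.finite_toSet _).union (Finset.finite_toSet _).inv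
  have hSi : S⁻¹ = S := by rw [hS, Set.union_inv, inv_inv, Set.union_comm]
  have hsub : (x.coeff.support : Set G) ⊆ S ^ 1 := by
    rw [pow_one]; exact Set.subset_union_left
  have hr : 0 ≤ NT.redNorm x := norm_nonneg _
  obtain ⟨ε, hε, hεc⟩ : ∃ ε : ℝ, 0 < ε ∧ Real.exp (ε * (1 : ℕ) / 2) * NT.redNorm x < c := by
    rcases hr.eq_or_lt with h0 | h0
    · exact ⟨1, one_pos, by rw [← h0, mul_zero, h0]; exact hx⟩
    · have h1 : 1 < c / NT.redNorm x := (one_lt_div h0).2 hx
      refine ⟨Real.log (c / NT.redNorm x), Real.log_pos h1, ?_⟩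
      have h2 : Real.exp (Real.log (c / NT.redNorm x) * (1 : ℕ) / 2) <
          Real.exp (Real.log (c / NT.redNorm x)) := by
        refine Real.exp_lt_exp.2 ?_
        have := Real.log_pos h1
        push_cast
        linarith
      rw [Real.exp_log (by linarith)] at h2
      calc _ < c / NT.redNorm x * NT.redNorm x := mul_lt_mul_of_pos_right h2 h0
        _ = c := div_mul_cancel₀ c h0.ne'
  obtain ⟨q0, hq0, hq⟩ := lqNorm_le_redNorm hSf hSi hε
  filter_upwards [Ioc_mem_nhdsGT hq0] with q hq1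
  exact ((lqNorm_mono (by linarith [hq1.1]) hq1.2 x).trans (hq 1 x hsub)).trans_lt hεc

lemma maxToLq_coe (q : ℝ) (x : GA G) : maxToLq G q (toC x) = gaToLq G q x :=
  Completion.extensionHom_coe (gaToLq G q) (continuous_gaToLq q) x

lemma continuous_maxToLq (q : ℝ) : Continuous (maxToLq G q) := Completion.continuous_extension

lemma norm_gaToLq (q : ℝ) (x : GA G) : ‖gaToLq G q x‖ = lqNorm q x :=
  UniformSpace.Completion.norm_coe (E := Pool.Agent.X270.NT.C.LqRing G q) x

lemma norm_maxToLq_le (q : ℝ) (z : CMax G) : ‖maxToLq G q z‖ ≤ ‖z‖ := by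
  refine Completion.induction_on (α := GA G) (p := fun z => ‖maxToLq G q z‖ ≤ ‖z‖) z
    (isClosed_le (continuous_maxToLq q).norm continuous_norm) fun x => ?_
  change ‖maxToLq G q (toC x)‖ ≤ ‖toC x‖
  rw [maxToLq_coe, norm_toC, norm_gaToLq]
  exact lqNorm_le_mx q x

/-- **norm continuity** -/
lemma ev_lt (z : CMax G) {c : ℝ} (hz : ‖maxToLq G 2 z‖ < c) :
    ∀ᶠ q in 𝓝[>] (2 : ℝ), ‖maxToLq G q z‖ < c := by
  set δ := (c - ‖maxToLq G 2 z‖) / 3 with hδ
  have hδ0 : 0 < δ := by rw [hδ]; linarith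
  obtain ⟨x, hx⟩ := dense_toC z hδ0
  have h1 : ‖maxToLq G 2 (z - toC x)‖ ≤ ‖z - toC x‖ := norm_maxToLq_le 2 _
  rw [map_sub, maxToLq_coe] at h1
  have h2 : NT.redNorm (show MonoidAlgebra ℂ G from x) < ‖maxToLq G 2 z‖ + δ := by
    have h3 := norm_sub_norm_le (gaToLq G 2 x) (maxToLq G 2 z)
    rw [norm_sub_rev, norm_gaToLq] at h3
    have h4 : NT.redNorm (show MonoidAlgebra ℂ G from x) ≤ lqNorm 2 x := by
      rw [redNorm_eq]
      exact redNorm_le_lqNorm 2 (by norm_num) _
    linarith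
  filter_upwards [lqNorm_lt x h2] with q hq
  have h4 : ‖maxToLq G q (z - toC x)‖ ≤ ‖z - toC x‖ := norm_maxToLq_le q _
  rw [map_sub, maxToLq_coe] at h4
  have h5 := norm_sub_norm_le (maxToLq G q z) (gaToLq G q x)
  rw [norm_gaToLq] at h5
  linarith

/-! ### matrices -/

lemma mmul {S : Type} [Ring S] (φ : CMax G →+* S) {ι κ μ : Type} [Fintype κ]
    (A : Matrix ι κ (CMax G)) (B : Matrix κ μ (CMax G)) :
    (A * B).map φ = A.map φ * B.map φ := by
  ext1 i j
  rw [Matrix.map_apply, Matrix.mul_apply, Matrix.mul_apply, map_sum]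
  exact Finset.sum_congr rfl fun k _ => map_mul φ _ _

lemma msub {S : Type} [Ring S] (φ : CMax G →+* S) {ι κ : Type} (A B : Matrix ι κ (CMax G)) :
    (A - B).map φ = A.map φ - B.map φ := by
  ext1 i j
  exact map_sub φ _ _

section mat

variable {ι κ : Type} [Fintype ι] [Fintype κ] [DecidableEq ι] [DecidableEq κ]

lemma exists_seq' {ι κ : Type} [Fintype ι] [Fintype κ] (s : Matrix ι κ (LqAlg G 2)) :
    ∃ x : ℕ → Matrix ι κ (GA G),
      Tendsto (fun n => (fun i j => gaToLq G 2 (x n i j) : Matrix ι κ (LqAlg G 2))) atTop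
        (𝓝 s) := by
  have h : ∀ i j, ∃ x : ℕ → GA G, Tendsto (fun n => gaToLq G 2 (x n)) atTop
      (𝓝 (s i j)) := by
    intro i j
    have h0 : DenseRange (gaToLq G 2) :=
      UniformSpace.Completion.denseRange_coe (α := Pool.Agent.X270.NT.C.LqRing G 2)
    obtain ⟨u, hu, hlim⟩ := mem_closure_iff_seq_limit.1 (h0 (s i j))
    choose x hx using hu
    refine ⟨x, ?_⟩
    have e : (fun n => gaToLq G 2 (x n)) = u := funext hx
    rw [e]
    exact hlim
  choose x hx using h
  refine ⟨fun n i j => x i j n, ?_⟩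
  exact tendsto_pi_nhds.2 fun i => tendsto_pi_nhds.2 fun j => hx i j

theorem eqv_near (e : Matrix ι ι (CMax G)) (f : Matrix κ κ (CMax G))
    (he : e * e = e) (hf : f * f = f)
    (h : Eqv (e.map (maxToLq G 2)) (f.map (maxToLq G 2))) :
    ∃ q : ℝ, 2 < q ∧ Eqv (e.map (maxToLq G q)) (f.map (maxToLq G q)) := by
  obtain ⟨x0, y0, hxy, hyx⟩ := h
  set e' : Matrix ι ι (LqAlg G 2) := e.map (maxToLq G 2) with he'd
  set f' : Matrix κ κ (LqAlg G 2) := f.map (maxToLq G 2) with hf'd
  have he' : e' * e' = e' := by rw [he'd, ← mmul, he]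
  have hf' : f' * f' = f' := by rw [hf'd, ← mmul, hf]
  let Φ : Matrix ι κ (LqAlg G 2) × Matrix κ ι (LqAlg G 2) →
      Matrix ι ι (LqAlg G 2) := fun p => e' - (e' * p.1 * f') * (f' * p.2 * e')
  let Ψ : Matrix ι κ (LqAlg G 2) × Matrix κ ι (LqAlg G 2) →
      Matrix κ κ (LqAlg G 2) := fun p => f' - (f' * p.2 * e') * (e' * p.1 * f')
  have hΦ : Continuous Φ :=
    continuous_const.sub (((continuous_const.matrix_mul continuous_fst).matrix_mul
      continuous_const).matrix_mul ((continuous_const.matrix_mul continuous_snd).matrix_mul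
      continuous_const))
  have hΨ : Continuous Ψ :=
    continuous_const.sub (((continuous_const.matrix_mul continuous_snd).matrix_mul
      continuous_const).matrix_mul ((continuous_const.matrix_mul continuous_fst).matrix_mul
      continuous_const))
  have hΦ0 : Φ (x0, y0) = 0 := by
    show e' - (e' * x0 * f') * (f' * y0 * e') = 0
    have : (e' * x0 * f') * (f' * y0 * e') = e' * (x0 * y0) * (x0 * y0) * e' := by
      calc (e' * x0 * f') * (f' * y0 * e') = e' * x0 * (f' * f') * y0 * e' := by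
            simp only [Matrix.mul_assoc]
        _ = e' * (x0 * y0) * (x0 * y0) * e' := by
            rw [hf', ← hyx]; simp only [Matrix.mul_assoc]
    rw [this, hxy, he', he', he', sub_self]
  have hΨ0 : Ψ (x0, y0) = 0 := by
    show f' - (f' * y0 * e') * (e' * x0 * f') = 0
    have : (f' * y0 * e') * (e' * x0 * f') = f' * (y0 * x0) * (y0 * x0) * f' := by
      calc (f' * y0 * e') * (e' * x0 * f') = f' * y0 * (e' * e') * x0 * f' := by
            simp only [Matrix.mul_assoc]
        _ = f' * (y0 * x0) * (y0 * x0) * f' := by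
            rw [he', ← hxy]; simp only [Matrix.mul_assoc]
    rw [this, hyx, hf', hf', hf', sub_self]
  let W : Set (Matrix ι κ (LqAlg G 2) × Matrix κ ι (LqAlg G 2)) :=
    {p | (∀ i j, ‖Φ p i j‖ < 1 / (Fintype.card ι + 1)) ∧
      ∀ i j, ‖Ψ p i j‖ < 1 / (Fintype.card κ + 1)}
  have hW : IsOpen W := by
    have h1 : IsOpen {p | ∀ i j, ‖Φ p i j‖ < 1 / (Fintype.card ι + 1)} := by
      simp only [Set.setOf_forall]
      refine isOpen_iInter_of_finite fun i => isOpen_iInter_of_finite fun j => ?_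
      exact isOpen_lt (hΦ.matrix_elem i j).norm continuous_const
    have h2 : IsOpen {p | ∀ i j, ‖Ψ p i j‖ < 1 / (Fintype.card κ + 1)} := by
      simp only [Set.setOf_forall]
      refine isOpen_iInter_of_finite fun i => isOpen_iInter_of_finite fun j => ?_
      exact isOpen_lt (hΨ.matrix_elem i j).norm continuous_const
    exact h1.inter h2
  have hne : (x0, y0) ∈ W := by
    refine ⟨fun i j => ?_, fun i j => ?_⟩
    · rw [hΦ0, Matrix.zero_apply, norm_zero]; positivity
    · rw [hΨ0, Matrix.zero_apply, norm_zero]; positivity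
  obtain ⟨X, hX⟩ := exists_seq' x0
  obtain ⟨Y, hY⟩ := exists_seq' y0
  have hlim := (hX.prodMk_nhds hY).eventually (hW.mem_nhds hne)
  obtain ⟨n, hn⟩ := hlim.exists
  set Xc : Matrix ι κ (CMax G) := fun i j => toC (X n i j) with hXc
  set Yc : Matrix κ ι (CMax G) := fun i j => toC (Y n i j) with hYc
  have hXm : Xc.map (maxToLq G 2) = fun i j => gaToLq G 2 (X n i j) := by
    funext i j
    exact maxToLq_coe 2 _
  have hYm : Yc.map (maxToLq G 2) = fun i j => gaToLq G 2 (Y n i j) := by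
    funext i j
    exact maxToLq_coe 2 _
  rw [← hXm, ← hYm] at hn
  have hXY1 : ∀ i j, ‖(e' - (e' * Xc.map (maxToLq G 2) * f') * (f' * Yc.map (maxToLq G 2) * e')) i j‖ <
    1 / (Fintype.card ι + 1) := hn.1
  have hXY2 : ∀ i j, ‖(f' - (f' * Yc.map (maxToLq G 2) * e') * (e' * Xc.map (maxToLq G 2) * f')) i j‖ <
    1 / (Fintype.card κ + 1) := hn.2
  let x := e * Xc * f
  let y := f * Yc * e
  have hw : (e - x * y).map (maxToLq G 2) =
      e' - (e' * Xc.map (maxToLq G 2) * f') * (f' * Yc.map (maxToLq G 2) * e') := by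
    rw [msub, mmul, mmul,
      mmul, mmul, mmul]
  have hw' : (f - y * x).map (maxToLq G 2) =
      f' - (f' * Yc.map (maxToLq G 2) * e') * (e' * Xc.map (maxToLq G 2) * f') := by
    rw [msub, mmul, mmul,
      mmul, mmul, mmul]
  have ev1 : ∀ᶠ q in 𝓝[>] (2 : ℝ), ∀ i j,
      ‖maxToLq G q ((e - x * y) i j)‖ < 1 / (Fintype.card ι + 1) := by
    rw [eventually_all]; intro i
    rw [eventually_all]; intro j
    apply ev_lt
    have := hXY1 i j
    rw [← hw] at this
    exact this
  have ev2 : ∀ᶠ q in 𝓝[>] (2 : ℝ), ∀ i j,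
      ‖maxToLq G q ((f - y * x) i j)‖ < 1 / (Fintype.card κ + 1) := by
    rw [eventually_all]; intro i
    rw [eventually_all]; intro j
    apply ev_lt
    have := hXY2 i j
    rw [← hw'] at this
    exact this
  obtain ⟨q, ⟨h1, h2⟩, hq⟩ := ((ev1.and ev2).and self_mem_nhdsWithin).exists
  refine ⟨q, hq, ?_⟩
  have hx1 : e * x = x := by
    show e * (e * Xc * f) = e * Xc * f
    rw [← Matrix.mul_assoc, ← Matrix.mul_assoc, he]
  have hx2 : x * f = x := by
    show e * Xc * f * f = e * Xc * f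
    rw [Matrix.mul_assoc, hf]
  have hy1 : f * y = y := by
    show f * (f * Yc * e) = f * Yc * e
    rw [← Matrix.mul_assoc, ← Matrix.mul_assoc, hf]
  have hy2 : y * e = y := by
    show f * Yc * e * e = f * Yc * e
    rw [Matrix.mul_assoc, he]
  refine eqv_of_near _ _ ?_ ?_ (x.map (maxToLq G q)) (y.map (maxToLq G q)) ?_ ?_ ?_ ?_ ?_ ?_
  · rw [← mmul, he]
  · rw [← mmul, hf]
  · rw [← mmul, hx1]
  · rw [← mmul, hx2]
  · rw [← mmul, hy1]
  · rw [← mmul, hy2]
  · apply isUnit_of_small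
    intro i j
    rw [← mmul, ← msub]
    exact h1 i j
  · apply isUnit_of_small
    intro i j
    rw [← mmul, ← msub]
    exact h2 i j

end mat

lemma blocks_map {R S : Type} [Ring R] [Ring S] (φ : R →+* S) {a r : ℕ}
    (e : Matrix (Fin a) (Fin a) R) :
    (Matrix.fromBlocks e 0 0 (1 : Matrix (Fin r) (Fin r) R)).map φ =
      Matrix.fromBlocks (e.map φ) 0 0 (1 : Matrix (Fin r) (Fin r) S) := by
  rw [Matrix.fromBlocks_map]
  congr 1
  · ext i j; exact map_zero φ
  · ext i j; exact map_zero φ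
  · exact Matrix.map_one _ (map_zero φ) (map_one φ)

/-- an element of `K_0(C*_max(G))` which dies in `K_0(C*_r(G))` dies in `K_0(C*_{ℓ^q}(G))` -/
theorem k0_lim (z : K0 (CMax G)) (hz : K0.map (nu (maxToLq G 2)) z = 0) :
    ∃ q : ℝ, 2 < q ∧ K0.map (nu (maxToLq G q)) z = 0 := by
  obtain ⟨a, b, e, f, he, hf, rfl⟩ := exists_sub z
  rw [map_sub, sub_eq_zero, K0.map_cls, K0.map_cls, K0.cls_eq_iff] at hz
  obtain ⟨r, hr⟩ := hz
  have h1 : Eqv ((Matrix.fromBlocks e 0 0 (1 : Matrix (Fin r) (Fin r) _)).map (maxToLq G 2))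
      ((Matrix.fromBlocks f 0 0 (1 : Matrix (Fin r) (Fin r) _)).map (maxToLq G 2)) := by
    rw [blocks_map, blocks_map]
    exact hr
  obtain ⟨q, hq, h2⟩ := eqv_near _ _ (fromBlocks_idem he (by simp))
    (fromBlocks_idem hf (by simp)) h1
  refine ⟨q, hq, ?_⟩
  rw [map_sub, sub_eq_zero, K0.map_cls, K0.map_cls, K0.cls_eq_iff]
  refine ⟨r, ?_⟩
  rw [blocks_map, blocks_map] at h2
  exact h2

/-- the homomorphism `C*_{ℓ^q}(G) → C*_{ℓ²}(G)` -/
def toTwo (G : Type) [Group G] (q : ℝ) (hq : 2 ≤ q) : LqAlg G q →+* LqAlg G 2 :=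
  Completion.extensionHom
    (show Pool.Agent.X270.NT.C.LqRing G q →+* LqAlg G 2 from ofGroupRing G 2) (by
    refine AddMonoidHomClass.continuous_of_bound
      (show Pool.Agent.X270.NT.C.LqRing G q →+* LqAlg G 2 from ofGroupRing G 2) 1 fun x => ?_
    rw [one_mul]
    have h1 : ‖(show Pool.Agent.X270.NT.C.LqRing G q →+* LqAlg G 2 from ofGroupRing G 2) x‖ =
        lqNorm 2 x :=
      UniformSpace.Completion.norm_coe (E := Pool.Agent.X270.NT.C.LqRing G 2) x
    rw [h1]
    exact lqNorm_mono (by norm_num) hq x)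

lemma continuous_toTwo (q : ℝ) (hq : 2 ≤ q) : Continuous (toTwo G q hq) :=
  Completion.continuous_extension

lemma toTwo_maxToLq (q : ℝ) (hq : 2 ≤ q) : (toTwo G q hq).comp (maxToLq G q) = maxToLq G 2 := by
  refine RingHom.ext fun z => ?_
  change toTwo G q hq (maxToLq G q z) = maxToLq G 2 z
  refine Completion.induction_on (α := GA G)
    (p := fun z => toTwo G q hq (maxToLq G q z) = maxToLq G 2 z) z
    (isClosed_eq ((continuous_toTwo q hq).comp (continuous_maxToLq q)) (continuous_maxToLq 2))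
    fun x => ?_
  change toTwo G q hq (maxToLq G q (toC x)) = maxToLq G 2 (toC x)
  rw [maxToLq_coe, maxToLq_coe]
  exact Completion.extensionHom_coe
    (show Pool.Agent.X270.NT.C.LqRing G q →+* LqAlg G 2 from ofGroupRing G 2) _ x

theorem k0_of_lq (q : ℝ) (hq : 2 ≤ q) (z : K0 (CMax G))
    (hz : K0.map (nu (maxToLq G q)) z = 0) : K0.map (nu (maxToLq G 2)) z = 0 := by
  have h1 : nu (maxToLq G 2) = (nu (toTwo G q hq)).comp (nu (maxToLq G q)) := by
    rw [← toTwo_maxToLq q hq]
    rfl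
  rw [h1, K0.map_comp, hz, map_zero]

/-- `C*_{ℓ²}(G)` is the reduced `C*`-algebra -/
theorem lqNorm_two (x : MonoidAlgebra ℂ G) : lqNorm 2 x = St.redNorm x := by
  rw [St.redNorm_eq', redNorm_eq]
  refine le_antisymm ?_ (redNorm_le_lqNorm 2 (by norm_num) x)
  classical
  set S : Set G := (x.coeff.support : Set G) ∪ (x.coeff.support : Set G)⁻¹ with hS
  have hSi : S⁻¹ = S := by rw [hS, Set.union_inv, inv_inv, Set.union_comm]
  have hsub : (x.coeff.support : Set G) ⊆ S ^ 1 := by
    rw [pow_one]; exact Set.subset_union_left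
  refine lqNorm_le 2 x _ (norm_nonneg _) ?_
  intro H _ _ _ π hu hl v hv
  have h1 : St.act π x v = U.uint π.hom x v := by
    rw [U.uint_apply]
    rfl
  rw [h1]
  have h2 := U.norm_uint_le π.hom (fun g v => hu g v) hSi (ε := 0) (by
    refine hl.mono (Submodule.span_mono ?_)
    intro w hw
    have hw' : Summable fun g : G => ‖inner ℂ (π.op g w) w‖ ^ (2 : ℝ) := hw
    refine ⟨∑' g : G, ‖inner ℂ (π.op g w) w‖ ^ (2 : ℝ), fun m F _ => ?_⟩
    rw [zero_mul, Real.exp_zero, mul_one]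
    refine le_trans (le_of_eq ?_) (hw'.sum_le_tsum F (fun g _ => by positivity))
    refine Finset.sum_congr rfl fun g _ => ?_
    rw [Real.rpow_two]
    rfl) 1 x hsub v
  rw [zero_mul, zero_div, Real.exp_zero, one_mul] at h2
  exact h2.trans (mul_le_of_le_one_right (norm_nonneg _) hv)

theorem kernel_iff (x : K0 (CMax G)) :
    K0.map (nu (maxToLq G 2)) x = 0 ↔ ∃ q : ℝ, 2 < q ∧ K0.map (nu (maxToLq G q)) x = 0 :=
  ⟨k0_lim x, fun ⟨q, hq, h⟩ => k0_of_lq q hq.le x h⟩

theorem injective_iff {A : Type} [AddCommGroup A] (α : A →+ K0 (CMax G)) :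
    Function.Injective ((K0.map (nu (maxToLq G 2))).comp α) ↔
      ∀ q : ℝ, 2 < q → Function.Injective ((K0.map (nu (maxToLq G q))).comp α) := by
  constructor
  · intro h q hq
    rw [injective_iff_map_eq_zero] at h ⊢
    intro a ha
    exact h a (k0_of_lq q hq.le (α a) ha)
  · intro h
    rw [injective_iff_map_eq_zero]
    intro a ha
    obtain ⟨q, hq, h1⟩ := k0_lim (α a) ha
    exact (injective_iff_map_eq_zero _).1 (h q hq) a h1

end

end Pool.Agent.X270.NT.K2
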