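import Pool.Agent.X270.NT.StmtR
import Pool.Agent.X270.NT.KGen
import Pool.Agent.X270.NT.KLim2

/-!
The kernel of `KO_0(C*_max(G; ℝ)) → KO_0(C*_r(G; ℝ))`.
-/

set_option autoImplicit false
set_option linter.unusedSectionVars false

open Filter Topology

namespace Pool.Agent.X270.NT.RG

open UniformSpace
open Pool.Agent.Y483.CS (K0 nu)
open Pool.Agent.X270.NT.C (lqNorm redNorm_le_lqNorm)

noncomputable section

variable {G : Type} [Group G]

/-- the map to the completion -/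
def toM (x : RMaxRing G) : RMax G := (x : Completion (RMaxRing G))

lemma norm_toM (x : RMaxRing G) : ‖toM x‖ = maxNorm x := Completion.norm_coe (E := RMaxRing G) x

lemma dense_toM (z : RMax G) {δ : ℝ} (hδ : 0 < δ) : ∃ x : RMaxRing G, ‖z - toM x‖ < δ := by
  have h0 : DenseRange (toM (G := G)) := Completion.denseRange_coe (α := RMaxRing G)
  obtain ⟨x, hx⟩ := h0.exists_dist_lt z hδ
  exact ⟨x, by rwa [dist_eq_norm] at hx⟩

lemma rMaxToLq_coe (q : ℝ) (x : RMaxRing G) : rMaxToLq G q (toM x) = maxRingToLq G q x :=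
  Completion.extensionHom_coe (maxRingToLq G q) (continuous_maxRingToLq q) x

lemma continuous_rMaxToLq (q : ℝ) : Continuous (rMaxToLq G q) := Completion.continuous_extension

lemma norm_rMaxToLq_le (q : ℝ) (z : RMax G) : ‖rMaxToLq G q z‖ ≤ ‖z‖ := by
  refine Completion.induction_on (α := RMaxRing G) (p := fun z => ‖rMaxToLq G q z‖ ≤ ‖z‖) z
    (isClosed_le (continuous_rMaxToLq q).norm continuous_norm) fun x => ?_
  change ‖rMaxToLq G q (toM x)‖ ≤ ‖toM x‖
  rw [rMaxToLq_coe, norm_toM, norm_maxRingToLq]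
  exact rLqNorm_le_maxNorm q x

lemma rLqNorm_lt (x : MonoidAlgebra ℝ G) {c : ℝ} (hx : rLqNorm 2 x < c) :
    ∀ᶠ q in 𝓝[>] (2 : ℝ), rLqNorm q x < c := by
  have h : NT.redNorm (cx G x) < c := by
    refine lt_of_le_of_lt ?_ hx
    rw [redNorm_eq]
    exact redNorm_le_lqNorm 2 (by norm_num) _
  exact K2.lqNorm_lt (cx G x) h

/-- **norm continuity** -/
lemma ev_lt (z : RMax G) (c : ℝ) (hz : ‖rMaxToLq G 2 z‖ < c) :
    ∀ᶠ q in 𝓝[>] (2 : ℝ), ‖rMaxToLq G q z‖ < c := by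
  set δ := (c - ‖rMaxToLq G 2 z‖) / 3 with hδ
  have hδ0 : 0 < δ := by rw [hδ]; linarith
  obtain ⟨x, hx⟩ := dense_toM z hδ0
  have h1 : ‖rMaxToLq G 2 (z - toM x)‖ ≤ ‖z - toM x‖ := norm_rMaxToLq_le 2 _
  rw [map_sub, rMaxToLq_coe] at h1
  have h2 : rLqNorm 2 (show MonoidAlgebra ℝ G from x) < ‖rMaxToLq G 2 z‖ + δ := by
    have h3 := norm_sub_norm_le (maxRingToLq G 2 x) (rMaxToLq G 2 z)
    rw [norm_sub_rev, norm_maxRingToLq] at h3
    linarith
  filter_upwards [rLqNorm_lt x h2] with q hq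
  have h4 : ‖rMaxToLq G q (z - toM x)‖ ≤ ‖z - toM x‖ := norm_rMaxToLq_le q _
  rw [map_sub, rMaxToLq_coe] at h4
  have h5 := norm_sub_norm_le (rMaxToLq G q z) (maxRingToLq G q x)
  rw [norm_maxRingToLq] at h5
  linarith

lemma dense_rMaxToLq (q : ℝ) : DenseRange (rMaxToLq G q) := by
  have h0 : DenseRange (maxRingToLq G q) := Completion.denseRange_coe (α := RLqRing G q)
  refine h0.mono ?_
  rintro _ ⟨x, rfl⟩
  exact ⟨toM x, rMaxToLq_coe q x⟩

/-- an element which dies in `KO_0(C*_r(G; ℝ))` dies in `KO_0(C*_{ℓ^q}(G; ℝ))` for some `q > 2` -/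
theorem k0_lim (z : K0 (RMax G)) (hz : K0.map (nu (rMaxToLq G 2)) z = 0) :
    ∃ q : ℝ, 2 < q ∧ K0.map (nu (rMaxToLq G q)) z = 0 :=
  KG.k0_lim (S := RLq G) (rMaxToLq G) (dense_rMaxToLq 2) ev_lt z hz

/-- the homomorphism `C*_{ℓ^q}(G; ℝ) → C*_{ℓ²}(G; ℝ)` -/
def toTwo (G : Type) [Group G] (q : ℝ) (hq : 2 ≤ q) : RLq G q →+* RLq G 2 :=
  Completion.extensionHom (show RLqRing G q →+* RLq G 2 from ofReal G 2) (by
    refine AddMonoidHomClass.continuous_of_bound
      (show RLqRing G q →+* RLq G 2 from ofReal G 2) 1 fun x => ?_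
    rw [one_mul]
    have h1 : ‖(show RLqRing G q →+* RLq G 2 from ofReal G 2) x‖ = rLqNorm 2 x :=
      Completion.norm_coe (E := RLqRing G 2) x
    rw [h1]
    exact K2.lqNorm_mono (by norm_num) hq (cx G x))

lemma continuous_toTwo (q : ℝ) (hq : 2 ≤ q) : Continuous (toTwo G q hq) :=
  Completion.continuous_extension

lemma toTwo_rMaxToLq (q : ℝ) (hq : 2 ≤ q) :
    (toTwo G q hq).comp (rMaxToLq G q) = rMaxToLq G 2 := by
  refine RingHom.ext fun z => ?_
  change toTwo G q hq (rMaxToLq G q z) = rMaxToLq G 2 z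
  refine Completion.induction_on (α := RMaxRing G)
    (p := fun z => toTwo G q hq (rMaxToLq G q z) = rMaxToLq G 2 z) z
    (isClosed_eq ((continuous_toTwo q hq).comp (continuous_rMaxToLq q)) (continuous_rMaxToLq 2))
    fun x => ?_
  change toTwo G q hq (rMaxToLq G q (toM x)) = rMaxToLq G 2 (toM x)
  rw [rMaxToLq_coe, rMaxToLq_coe]
  exact Completion.extensionHom_coe (show RLqRing G q →+* RLq G 2 from ofReal G 2) _ x

theorem k0_of_lq (q : ℝ) (hq : 2 ≤ q) (z : K0 (RMax G))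
    (hz : K0.map (nu (rMaxToLq G q)) z = 0) : K0.map (nu (rMaxToLq G 2)) z = 0 := by
  have h1 : nu (rMaxToLq G 2) = (nu (toTwo G q hq)).comp (nu (rMaxToLq G q)) := by
    rw [← toTwo_rMaxToLq q hq]
    rfl
  rw [h1, K0.map_comp, hz, map_zero]

theorem kernel_iff (x : KOMax G) : InKernel 2 x ↔ ∃ q : ℝ, 2 < q ∧ InKernel q x :=
  ⟨k0_lim x, fun ⟨q, hq, h⟩ => k0_of_lq q hq.le x h⟩

theorem injective_iff {A : Type} [AddCommGroup A] (α : A →+ KOMax G) :
    LqInjective α 2 ↔ ∀ q : ℝ, 2 < q → LqInjective α q := by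
  have key : ∀ q : ℝ, LqInjective α q ↔ ∀ a : A, InKernel q (α a) → a = 0 := fun q =>
    injective_iff_map_eq_zero ((koMaxToLq G q).comp α)
  simp only [key]
  constructor
  · intro h q hq a ha
    exact h a ((kernel_iff (α a)).2 ⟨q, hq, ha⟩)
  · intro h a ha
    obtain ⟨q, hq, h1⟩ := (kernel_iff (α a)).1 ha
    exact h q hq a h1

end

end Pool.Agent.X270.NT.RG
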