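import Pool.Agent.X270.NT.KGen

/-!
Lifting idempotents and classes of `K_0`.
-/

set_option autoImplicit false
set_option linter.unusedSectionVars false

open Filter Topology
open scoped NNReal Matrix

namespace Pool.Agent.X270.NT.KG

open Pool.Agent.Y483.CS (K0 Eqv nu fromBlocks_idem)
open Pool.Agent.X265.KCo (eqv_of_near isUnit_of_small exists_sub)

/-- **idempotents near an almost idempotent element of a complete normed ring** -/
theorem exists_idem {S : Type} [NormedRing S] [CompleteSpace S] (a c : S) (hac : Commute a c)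
    (hc : (1 - 4 * (a - a * a)) * c = a - a * a) (hcn : ‖c‖ ≤ 1 / 8) :
    ∃ s : S, Commute a s ∧ s = c - s * s ∧ ‖s‖ ≤ 2 * ‖c‖ ∧
      (a + (2 * a - 1) * s) * (a + (2 * a - 1) * s) = a + (2 * a - 1) * s := by
  let K : Set S := {s | ‖s‖ ≤ 1 / 4} ∩ {s | a * s = s * a}
  have hK : IsClosed K :=
    (isClosed_le continuous_norm continuous_const).inter
      (isClosed_eq (continuous_const.mul continuous_id) (continuous_id.mul continuous_const))
  let f : S → S := fun s => c - s * s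
  have hmaps : Set.MapsTo f K K := by
    rintro s ⟨hs1, hs2⟩
    have hs1' : ‖s‖ ≤ 1 / 4 := hs1
    have hs2' : a * s = s * a := hs2
    refine ⟨?_, ?_⟩
    · change ‖c - s * s‖ ≤ 1 / 4
      refine (norm_sub_le _ _).trans ?_
      have h1 : ‖s * s‖ ≤ 1 / 4 * (1 / 4) :=
        (norm_mul_le _ _).trans (mul_le_mul hs1' hs1' (norm_nonneg _) (by norm_num))
      linarith
    · change a * (c - s * s) = (c - s * s) * a
      have h2 : Commute a (c - s * s) :=
        hac.sub_right ((show Commute a s from hs2').mul_right (show Commute a s from hs2'))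
      exact h2
  have hcontr : ContractingWith (1 / 2 : ℝ≥0) (hmaps.restrict f K K) := by
    refine ⟨by norm_num [← NNReal.coe_lt_coe], ?_⟩
    refine LipschitzWith.of_dist_le_mul fun x y => ?_
    rw [Subtype.dist_eq, Subtype.dist_eq, dist_eq_norm, dist_eq_norm]
    change ‖(c - (x : S) * x) - (c - (y : S) * y)‖ ≤ _
    have hx : ‖(x : S)‖ ≤ 1 / 4 := x.2.1
    have hy : ‖(y : S)‖ ≤ 1 / 4 := y.2.1
    have e : (c - (x : S) * x) - (c - (y : S) * y) =
        -((x : S) * (x - y) + (x - y) * y) := by noncomm_ring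
    rw [e, norm_neg]
    refine (norm_add_le _ _).trans ?_
    have h1 : ‖(x : S) * (x - y)‖ ≤ 1 / 4 * ‖(x : S) - y‖ :=
      (norm_mul_le _ _).trans (mul_le_mul_of_nonneg_right hx (norm_nonneg _))
    have h2 : ‖((x : S) - y) * y‖ ≤ ‖(x : S) - y‖ * (1 / 4) :=
      (norm_mul_le _ _).trans (mul_le_mul_of_nonneg_left hy (norm_nonneg _))
    push_cast
    linarith
  have h0 : (0 : S) ∈ K := ⟨by change ‖(0 : S)‖ ≤ 1 / 4; rw [norm_zero]; norm_num,
    by change a * 0 = 0 * a; rw [mul_zero, zero_mul]⟩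
  obtain ⟨s, hs, hfix, -⟩ := hcontr.exists_fixedPoint' hK.isComplete hmaps h0 (edist_ne_top _ _)
  have hs1 : ‖s‖ ≤ 1 / 4 := hs.1
  have hs2 : a * s = s * a := hs.2
  have hfix' : s = c - s * s := hfix.symm
  refine ⟨s, hs2, hfix', ?_, ?_⟩
  · have h1 : ‖s‖ ≤ ‖c‖ + ‖s * s‖ := by
      conv_lhs => rw [hfix']
      exact norm_sub_le _ _
    have h2 : ‖s * s‖ ≤ 1 / 4 * ‖s‖ :=
      (norm_mul_le _ _).trans (mul_le_mul_of_nonneg_right hs1 (norm_nonneg _))
    have := norm_nonneg c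
    linarith
  · have hsc : s + s * s = c := eq_sub_iff_add_eq.1 hfix'
    have h3 : (1 - 4 * (a - a * a)) * (s + s * s) = a - a * a := by rw [hsc, hc]
    have h4 : (a + (2 * a - 1) * s) * (a + (2 * a - 1) * s) - (a + (2 * a - 1) * s) =
        (1 - 4 * (a - a * a)) * (s + s * s) - (a - a * a) := by
      have e1 : ∀ x : S, a * (s * x) = s * (a * x) := fun x => by
        rw [← mul_assoc, hs2, mul_assoc]
      noncomm_ring
      simp only [← hs2, e1]
      abel
    rw [← sub_eq_zero, h4, h3, sub_self]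

/-- an almost idempotent element is near an idempotent one -/
theorem exists_idem' {S : Type} [NormedRing S] [CompleteSpace S] (a : S)
    (hd : ‖a - a * a‖ ≤ 1 / 32) :
    ∃ s : S, ‖s‖ ≤ 4 * ‖a - a * a‖ ∧
      (a + (2 * a - 1) * s) * (a + (2 * a - 1) * s) = a + (2 * a - 1) * s := by
  set d := a - a * a with hdd
  have had : Commute a d := (Commute.refl a).sub_right ((Commute.refl a).mul_right (Commute.refl a))
  have h4 : ‖4 * d‖ ≤ 4 * ‖d‖ := by
    have e : 4 * d = d + d + d + d := by noncomm_ring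
    rw [e]
    have h1 := norm_add_le (d + d + d) d
    have h2 := norm_add_le (d + d) d
    have h3 := norm_add_le d d
    linarith
  have hlt : ‖4 * d‖ < 1 := by linarith
  let u := Units.oneSub (4 * d) hlt
  have hu : (u : S) = 1 - 4 * d := rfl
  have hau : Commute a (u : S) := by
    rw [hu]
    have : Commute a (4 * d) := by
      have h := (Nat.cast_commute 4 a).symm
      exact (show Commute a (4 : S) from by exact_mod_cast h).mul_right had
    exact (Commute.one_right a).sub_right this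
  have hau' : Commute a ((u⁻¹ : Sˣ) : S) := hau.units_inv_right
  let c := ((u⁻¹ : Sˣ) : S) * d
  have hc : (1 - 4 * d) * c = d := by
    rw [← hu]
    change (u : S) * (((u⁻¹ : Sˣ) : S) * d) = d
    rw [← mul_assoc, Units.mul_inv, one_mul]
  have hcn : ‖c‖ ≤ 2 * ‖d‖ := by
    have h1 : c = d + 4 * d * c := by
      have h := hc
      rw [sub_mul, one_mul, sub_eq_iff_eq_add] at h
      exact h
    have h2 : ‖c‖ ≤ ‖d‖ + ‖4 * d‖ * ‖c‖ := by
      conv_lhs => rw [h1]
      exact (norm_add_le _ _).trans (add_le_add le_rfl (norm_mul_le _ _))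
    have h3 : ‖4 * d‖ * ‖c‖ ≤ 1 / 2 * ‖c‖ :=
      mul_le_mul_of_nonneg_right (by linarith) (norm_nonneg _)
    linarith
  obtain ⟨s, -, -, hs, he⟩ := exists_idem a c (hau'.mul_right had) hc (by linarith)
  exact ⟨s, by linarith, he⟩

/-- **lifting idempotents** -/
theorem lift_idem {A : Type} [Ring A] {M : ℝ → Type} [∀ q, NormedRing (M q)]
    [∀ q, CompleteSpace (M q)] (F : ∀ q, A →+* M q) (T : ∀ q, 2 ≤ q → (M q →+* M 2))
    (hT : ∀ q hq a, T q hq (F q a) = F 2 a) (hTn : ∀ q hq y, ‖T q hq y‖ ≤ ‖y‖)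
    (hd : DenseRange (F 2))
    (hev : ∀ (z : A) (c : ℝ), ‖F 2 z‖ < c → ∀ᶠ q in 𝓝[>] (2 : ℝ), ‖F q z‖ < c)
    (e : M 2) (he : e * e = e) {δ : ℝ} (hδ : 0 < δ) :
    ∀ᶠ q in 𝓝[>] (2 : ℝ), ∀ hq : 2 ≤ q, ∃ e' : M q, e' * e' = e' ∧ ‖T q hq e' - e‖ < δ := by
  set N : ℝ := 2 * ‖e‖ + 2 + ‖(1 : M 2)‖ with hN
  have hN0 : 0 < N := by positivity
  set η : ℝ := min (1 / 32) (δ / (8 * N)) with hη
  have hη0 : 0 < η := lt_min (by norm_num) (by positivity)
  have hcont : Continuous fun b : M 2 => b - b * b :=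
    continuous_id.sub (continuous_id.mul continuous_id)
  have hW : IsOpen {b : M 2 | ‖b - b * b‖ < η ∧ ‖b - e‖ < min 1 (δ / 2)} :=
    (isOpen_lt hcont.norm continuous_const).inter
      (isOpen_lt (continuous_id.sub continuous_const).norm continuous_const)
  obtain ⟨a, ha1, ha2⟩ := hd.exists_mem_open hW ⟨e, by
    refine ⟨?_, ?_⟩
    · rw [he, sub_self, norm_zero]; exact hη0
    · rw [sub_self, norm_zero]; exact lt_min one_pos (by positivity)⟩
  have ha1' : ‖F 2 (a - a * a)‖ < η := by rw [map_sub, map_mul]; exact ha1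
  filter_upwards [hev (a - a * a) η ha1'] with q hq hq2
  rw [map_sub, map_mul] at hq
  obtain ⟨s, hs, he'⟩ := exists_idem' (F q a) (hq.le.trans (min_le_left _ _))
  refine ⟨_, he', ?_⟩
  have h1 : T q hq2 (F q a + (2 * F q a - 1) * s) - e =
      (F 2 a - e) + (2 * F 2 a - 1) * T q hq2 s := by
    rw [map_add, map_mul, map_sub, map_mul, map_one, hT]
    have : T q hq2 2 = 2 := map_ofNat _ 2
    rw [this]
    abel
  have h2 : ‖F 2 a‖ ≤ ‖e‖ + 1 := by
    have h3 : ‖F 2 a - e‖ < 1 := ha2.trans_le (min_le_left _ _)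
    have h4 := norm_add_le (F 2 a - e) e
    rw [sub_add_cancel] at h4
    linarith
  have h3 : ‖2 * F 2 a - 1‖ ≤ N := by
    have e2 : 2 * F 2 a - 1 = F 2 a + F 2 a - 1 := by rw [two_mul]
    rw [e2]
    have h4 := norm_sub_le (F 2 a + F 2 a) 1
    have h5 := norm_add_le (F 2 a) (F 2 a)
    linarith
  have h4 : ‖T q hq2 s‖ ≤ 4 * η := (hTn q hq2 s).trans (hs.trans (by linarith))
  have h5 : ‖(2 * F 2 a - 1) * T q hq2 s‖ ≤ N * (4 * η) :=
    (norm_mul_le _ _).trans (mul_le_mul h3 h4 (norm_nonneg _) hN0.le)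
  have h6 : N * (4 * η) ≤ δ / 2 := by
    have h7 : η ≤ δ / (8 * N) := min_le_right _ _
    calc N * (4 * η) ≤ N * (4 * (δ / (8 * N))) := by gcongr
      _ = δ / 2 := by field_simp; ring
  rw [h1]
  have h8 : ‖F 2 a - e‖ < δ / 2 := ha2.trans_le (min_le_right _ _)
  have h9 := norm_add_le (F 2 a - e) ((2 * F 2 a - 1) * T q hq2 s)
  linarith


section mat

attribute [local instance] Matrix.linftyOpNormedRing

variable {n : ℕ}

lemma complete_mat {S : Type} [NormedRing S] [CompleteSpace S] :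
    @CompleteSpace (Matrix (Fin n) (Fin n) S) (Matrix.linftyOpNormedRing (n := Fin n)
      (α := S)).toMetricSpace.toPseudoMetricSpace.toUniformSpace :=
  inferInstanceAs (CompleteSpace (Fin n → Fin n → S))

lemma norm_lt_iff {S : Type} [NormedRing S] (w : Matrix (Fin n) (Fin n) S) {c : ℝ} (hc : 0 < c) :
    ‖w‖ < c ↔ ∀ i, ∑ j, ‖w i j‖ < c := by
  lift c to ℝ≥0 using hc.le
  rw [Matrix.linfty_opNorm_def, NNReal.coe_lt_coe, Finset.sup_lt_iff (by exact_mod_cast hc)]
  constructor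
  · intro h i
    have h1 := h i (Finset.mem_univ i)
    rw [← NNReal.coe_lt_coe] at h1
    push_cast at h1
    exact h1
  · intro h i _
    rw [← NNReal.coe_lt_coe]
    push_cast
    exact h i

lemma norm_le_of {S S' : Type} [NormedRing S] [NormedRing S'] (T : S →+* S')
    (hT : ∀ y, ‖T y‖ ≤ ‖y‖) (w : Matrix (Fin n) (Fin n) S) : ‖T.mapMatrix w‖ ≤ ‖w‖ := by
  refine le_of_forall_gt fun c hc => ?_
  have hc0 : 0 < c := (norm_nonneg _).trans_lt hc
  rw [norm_lt_iff _ hc0] at hc ⊢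
  intro i
  refine lt_of_le_of_lt (Finset.sum_le_sum fun j _ => ?_) (hc i)
  exact hT (w i j)

lemma eqv_of_norm {S : Type} [NormedRing S] [CompleteSpace S] (e f : Matrix (Fin n) (Fin n) S)
    (he : e * e = e) (hf : f * f = f) {δ : ℝ} (hδ : δ ≤ 1) (hδ' : (‖e‖ + 1) ^ 2 * δ ≤ 1)
    (h : ‖f - e‖ < δ) : Eqv f e := by
  have hcm := complete_mat (n := n) (S := S)
  have hfn : ‖f‖ ≤ ‖e‖ + 1 := by
    have h1 := norm_add_le (f - e) e
    rw [sub_add_cancel] at h1
    linarith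
  have hp : (0 : ℝ) < (‖e‖ + 1) ^ 2 := by positivity
  have hlt : (‖e‖ + 1) ^ 2 * ‖f - e‖ < 1 := (mul_lt_mul_of_pos_left h hp).trans_le hδ'
  have e1 : f - f * e * (e * f) = f * (f - e) * f := by
    rw [mul_sub, sub_mul, hf, hf, ← mul_assoc, mul_assoc f e e, he]
  have e2 : e - e * f * (f * e) = e * (e - f) * e := by
    rw [mul_sub, sub_mul, he, he, ← mul_assoc, mul_assoc e f f, hf]
  have n1 : ‖f - f * e * (e * f)‖ < 1 := by
    rw [e1]
    refine lt_of_le_of_lt ((norm_mul_le _ _).trans (mul_le_mul_of_nonneg_right (norm_mul_le _ _)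
      (norm_nonneg _))) (lt_of_le_of_lt ?_ hlt)
    have h2 : ‖f‖ * ‖f - e‖ * ‖f‖ = ‖f‖ ^ 2 * ‖f - e‖ := by ring
    rw [h2]
    gcongr
  have n2 : ‖e - e * f * (f * e)‖ < 1 := by
    rw [e2]
    refine lt_of_le_of_lt ((norm_mul_le _ _).trans (mul_le_mul_of_nonneg_right (norm_mul_le _ _)
      (norm_nonneg _))) (lt_of_le_of_lt ?_ hlt)
    have h2 : ‖e‖ * ‖e - f‖ * ‖e‖ = ‖e‖ ^ 2 * ‖f - e‖ := by rw [norm_sub_rev]; ring
    rw [h2]
    gcongr
    linarith
  refine eqv_of_near f e hf he (f * e) (e * f) ?_ ?_ ?_ ?_ (Units.oneSub _ n1).isUnit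
    (Units.oneSub _ n2).isUnit
  · rw [← mul_assoc, hf]
  · rw [mul_assoc, he]
  · rw [← mul_assoc, he]
  · rw [mul_assoc, hf]

variable {R : Type} [Ring R] {S : ℝ → Type} [∀ q, NormedRing (S q)] [∀ q, CompleteSpace (S q)]
  (F : ∀ q, R →+* S q) (T : ∀ q, 2 ≤ q → (S q →+* S 2))

theorem lift_mat (hT : ∀ q hq a, T q hq (F q a) = F 2 a) (hTn : ∀ q hq y, ‖T q hq y‖ ≤ ‖y‖)
    (hd : DenseRange (F 2))
    (hev : ∀ (z : R) (c : ℝ), ‖F 2 z‖ < c → ∀ᶠ q in 𝓝[>] (2 : ℝ), ‖F q z‖ < c)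
    (e : Matrix (Fin n) (Fin n) (S 2)) (he : e * e = e) :
    ∀ᶠ q in 𝓝[>] (2 : ℝ), ∀ hq : 2 ≤ q, ∃ e' : Matrix (Fin n) (Fin n) (S q), e' * e' = e' ∧
      Eqv (e'.map (T q hq)) e := by
  have hcm : ∀ q, @CompleteSpace (Matrix (Fin n) (Fin n) (S q)) (Matrix.linftyOpNormedRing
      (n := Fin n) (α := S q)).toMetricSpace.toPseudoMetricSpace.toUniformSpace :=
    fun q => complete_mat
  set δ : ℝ := min 1 (1 / (‖e‖ + 1) ^ 2) with hδ
  have hp : (0 : ℝ) < (‖e‖ + 1) ^ 2 := by positivity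
  have hδ0 : 0 < δ := lt_min one_pos (by positivity)
  have hδ' : (‖e‖ + 1) ^ 2 * δ ≤ 1 := by
    calc (‖e‖ + 1) ^ 2 * δ ≤ (‖e‖ + 1) ^ 2 * (1 / (‖e‖ + 1) ^ 2) :=
          mul_le_mul_of_nonneg_left (min_le_right _ _) hp.le
      _ = 1 := by field_simp
  have key := lift_idem (A := Matrix (Fin n) (Fin n) R)
    (M := fun q => Matrix (Fin n) (Fin n) (S q)) (fun q => (F q).mapMatrix)
    (fun q hq => (T q hq).mapMatrix)
    (fun q hq a => by
      ext i j
      exact hT q hq (a i j))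
    (fun q hq y => norm_le_of (T q hq) (hTn q hq) y)
    (by
      rw [Metric.denseRange_iff]
      intro w r hr
      have h1 : ∀ i j, ∃ x : R, dist (w i j) (F 2 x) < r / (n + 1) := fun i j =>
        hd.exists_dist_lt (w i j) (by positivity)
      choose x hx using h1
      refine ⟨Matrix.of x, ?_⟩
      rw [dist_eq_norm, norm_lt_iff _ hr]
      intro i
      have h2 : ∑ j, ‖(w - (F 2).mapMatrix (Matrix.of x)) i j‖ ≤ ∑ _j : Fin n, r / (n + 1) := by
        refine Finset.sum_le_sum fun j _ => ?_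
        have h3 := hx i j
        rw [dist_eq_norm] at h3
        exact h3.le
      refine h2.trans_lt ?_
      rw [Finset.sum_const, nsmul_eq_mul, Finset.card_univ, Fintype.card_fin, mul_div_assoc',
        div_lt_iff₀ (by positivity)]
      nlinarith)
    (by
      intro z c hz
      have hc0 : 0 < c := (norm_nonneg _).trans_lt hz
      rw [norm_lt_iff _ hc0] at hz
      have h1 : ∀ᶠ q in 𝓝[>] (2 : ℝ), ∀ i, ∑ j, ‖((F q).mapMatrix z) i j‖ < c := by
        rw [eventually_all]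
        intro i
        have hi : ∑ j, ‖F 2 (z i j)‖ < c := hz i
        set ε := (c - ∑ j, ‖F 2 (z i j)‖) / (n + 1) with hε
        have hε0 : 0 < ε := by rw [hε]; exact div_pos (by linarith) (by positivity)
        have h2 : ∀ᶠ q in 𝓝[>] (2 : ℝ), ∀ j, ‖F q (z i j)‖ < ‖F 2 (z i j)‖ + ε := by
          rw [eventually_all]
          intro j
          exact hev _ _ (by linarith)
        filter_upwards [h2] with q hq
        have h3 : ∑ j, ‖F q (z i j)‖ ≤ ∑ j, (‖F 2 (z i j)‖ + ε) :=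
          Finset.sum_le_sum fun j _ => (hq j).le
        rw [Finset.sum_add_distrib, Finset.sum_const, nsmul_eq_mul, Finset.card_univ,
          Fintype.card_fin] at h3
        have h4 : (n : ℝ) * ε + ε = c - ∑ j, ‖F 2 (z i j)‖ := by
          rw [hε]
          field_simp
        exact lt_of_le_of_lt h3 (by linarith)
      filter_upwards [h1] with q hq
      rw [norm_lt_iff _ hc0]
      exact hq)
    e he hδ0
  filter_upwards [key] with q hq hq2
  obtain ⟨e', he', h⟩ := hq hq2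
  refine ⟨e', he', ?_⟩
  refine eqv_of_norm e _ he ?_ (min_le_left _ _) hδ' h
  rw [← mmul, he']

/-- **every class of `K_0(S 2)` comes from `K_0(S q)`** for all `q > 2` near `2` -/
theorem k0_surj (hT : ∀ q hq a, T q hq (F q a) = F 2 a) (hTn : ∀ q hq y, ‖T q hq y‖ ≤ ‖y‖)
    (hd : DenseRange (F 2))
    (hev : ∀ (z : R) (c : ℝ), ‖F 2 z‖ < c → ∀ᶠ q in 𝓝[>] (2 : ℝ), ‖F q z‖ < c)
    (x : K0 (S 2)) :
    ∀ᶠ q in 𝓝[>] (2 : ℝ), ∀ hq : 2 ≤ q, ∃ y : K0 (S q), K0.map (nu (T q hq)) y = x := by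
  obtain ⟨a, b, e, f, he, hf, rfl⟩ := exists_sub x
  filter_upwards [lift_mat F T hT hTn hd hev e he, lift_mat F T hT hTn hd hev f hf] with q h1 h2 hq
  obtain ⟨e', he', ee⟩ := h1 hq
  obtain ⟨f', hf', ff⟩ := h2 hq
  refine ⟨K0.cls e' he' - K0.cls f' hf', ?_⟩
  rw [map_sub, K0.map_cls, K0.map_cls]
  congr 1
  · exact K0.cls_eqv _ _ ee
  · exact K0.cls_eqv _ _ ff

end mat

end Pool.Agent.X270.NT.KG
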