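import Pool.Agent.X270.NT.StmtR2
import Pool.Agent.X270.NT.KR
import Pool.Agent.X270.NT.KSurj

/-!
The image of `KO_0(C*_{ℓ^q}(G; ℝ)) → KO_0(C*_r(G; ℝ))`.
-/

set_option autoImplicit false
set_option linter.unusedSectionVars false

open Filter Topology

namespace Pool.Agent.X270.NT.RG

open UniformSpace
open Pool.Agent.Y483.CS (K0 nu)

noncomputable section

variable {G : Type} [Group G]

/-- the map to the completion -/
def toL (q : ℝ) (x : RLqRing G q) : RLq G q := (x : Completion (RLqRing G q))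

lemma norm_toL (q : ℝ) (x : RLqRing G q) : ‖toL q x‖ = rLqNorm q x :=
  Completion.norm_coe (E := RLqRing G q) x

lemma dense_toL (q : ℝ) (z : RLq G q) {δ : ℝ} (hδ : 0 < δ) :
    ∃ x : RLqRing G q, ‖z - toL q x‖ < δ := by
  have h0 : DenseRange (toL (G := G) q) := Completion.denseRange_coe (α := RLqRing G q)
  obtain ⟨x, hx⟩ := h0.exists_dist_lt z hδ
  exact ⟨x, by rwa [dist_eq_norm] at hx⟩

lemma rDown_coe (q q' : ℝ) (h0 : 0 < q') (h : q' ≤ q) (x : RLqRing G q) :
    rDown G q q' h0 h (toL q x) = lqRingToLq G q q' x :=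
  Completion.extensionHom_coe (lqRingToLq G q q') (continuous_lqRingToLq q q' h0 h) x

lemma continuous_rDown (q q' : ℝ) (h0 : 0 < q') (h : q' ≤ q) :
    Continuous (rDown G q q' h0 h) := Completion.continuous_extension

lemma norm_rDown_le (q q' : ℝ) (h0 : 0 < q') (h : q' ≤ q) (z : RLq G q) :
    ‖rDown G q q' h0 h z‖ ≤ ‖z‖ := by
  refine Completion.induction_on (α := RLqRing G q) (p := fun z => ‖rDown G q q' h0 h z‖ ≤ ‖z‖) z
    (isClosed_le (continuous_rDown q q' h0 h).norm continuous_norm) fun x => ?_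
  change ‖rDown G q q' h0 h (toL q x)‖ ≤ ‖toL q x‖
  rw [rDown_coe, norm_toL, norm_lqRingToLq]
  exact rLqNorm_mono h0 h x

lemma dense_rDown (q q' : ℝ) (h0 : 0 < q') (h : q' ≤ q) : DenseRange (rDown G q q' h0 h) := by
  have hd : DenseRange (lqRingToLq G q q') := Completion.denseRange_coe (α := RLqRing G q')
  refine hd.mono ?_
  rintro _ ⟨x, rfl⟩
  exact ⟨toL q x, rDown_coe q q' h0 h x⟩

lemma rDown_rMaxToLq (q q' : ℝ) (h0 : 0 < q') (h : q' ≤ q) :
    (rDown G q q' h0 h).comp (rMaxToLq G q) = rMaxToLq G q' := by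
  refine RingHom.ext fun z => ?_
  change rDown G q q' h0 h (rMaxToLq G q z) = rMaxToLq G q' z
  refine Completion.induction_on (α := RMaxRing G)
    (p := fun z => rDown G q q' h0 h (rMaxToLq G q z) = rMaxToLq G q' z) z
    (isClosed_eq ((continuous_rDown q q' h0 h).comp (continuous_rMaxToLq q))
      (continuous_rMaxToLq q')) fun x => ?_
  change rDown G q q' h0 h (rMaxToLq G q (toM x)) = rMaxToLq G q' (toM x)
  rw [rMaxToLq_coe, rMaxToLq_coe]
  exact rDown_coe q q' h0 h x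

lemma rDown_rDown (q q' q'' : ℝ) (h0 : 0 < q') (h : q' ≤ q) (h0' : 0 < q'') (h' : q'' ≤ q') :
    (rDown G q' q'' h0' h').comp (rDown G q q' h0 h) = rDown G q q'' h0' (h'.trans h) := by
  refine RingHom.ext fun z => ?_
  change rDown G q' q'' h0' h' (rDown G q q' h0 h z) = rDown G q q'' h0' (h'.trans h) z
  refine Completion.induction_on (α := RLqRing G q)
    (p := fun z => rDown G q' q'' h0' h' (rDown G q q' h0 h z) = rDown G q q'' h0' (h'.trans h) z) z
    (isClosed_eq ((continuous_rDown q' q'' h0' h').comp (continuous_rDown q q' h0 h))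
      (continuous_rDown q q'' h0' (h'.trans h))) fun x => ?_
  change rDown G q' q'' h0' h' (rDown G q q' h0 h (toL q x)) =
    rDown G q q'' h0' (h'.trans h) (toL q x)
  rw [rDown_coe, rDown_coe]
  exact rDown_coe q' q'' h0' h' x

lemma koDown_koMaxToLq (q q' : ℝ) (h0 : 0 < q') (h : q' ≤ q) (z : KOMax G) :
    koDown G q q' h0 h (koMaxToLq G q z) = koMaxToLq G q' z := by
  have h1 : nu (rMaxToLq G q') = (nu (rDown G q q' h0 h)).comp (nu (rMaxToLq G q)) := by
    rw [← rDown_rMaxToLq q q' h0 h]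
    rfl
  have h2 : ∀ w : K0 (RMax G), K0.map (nu (rDown G q q' h0 h)) (K0.map (nu (rMaxToLq G q)) w) =
      K0.map (nu (rMaxToLq G q')) w := fun w => by rw [h1, K0.map_comp]
  exact h2 z

lemma koDown_koDown (q q' q'' : ℝ) (h0 : 0 < q') (h : q' ≤ q) (h0' : 0 < q'') (h' : q'' ≤ q')
    (z : KOLq G q) :
    koDown G q' q'' h0' h' (koDown G q q' h0 h z) = koDown G q q'' h0' (h'.trans h) z := by
  have h1 : nu (rDown G q q'' h0' (h'.trans h)) =
      (nu (rDown G q' q'' h0' h')).comp (nu (rDown G q q' h0 h)) := by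
    rw [← rDown_rDown q q' q'' h0 h h0' h']
    rfl
  have h2 : ∀ w : K0 (RLq G q), K0.map (nu (rDown G q' q'' h0' h'))
      (K0.map (nu (rDown G q q' h0 h)) w) = K0.map (nu (rDown G q q'' h0' (h'.trans h))) w :=
    fun w => by rw [h1, K0.map_comp]
  exact h2 z

/-- norm continuity on `C*_{ℓ^q}(G; ℝ)` -/
lemma ev_lt_down (q : ℝ) (hq : 2 < q) (z : RLq G q) (c : ℝ)
    (hz : ‖rDown G q 2 two_pos hq.le z‖ < c) :
    ∀ᶠ r in 𝓝[>] (2 : ℝ), ∀ (h0 : 0 < r) (h : r ≤ q), ‖rDown G q r h0 h z‖ < c := by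
  set δ := (c - ‖rDown G q 2 two_pos hq.le z‖) / 3 with hδ
  have hδ0 : 0 < δ := by rw [hδ]; linarith
  obtain ⟨x, hx⟩ := dense_toL q z hδ0
  have h1 : ‖rDown G q 2 two_pos hq.le (z - toL q x)‖ ≤ ‖z - toL q x‖ := norm_rDown_le _ _ _ _ _
  rw [map_sub, rDown_coe] at h1
  have h2 : rLqNorm 2 (show MonoidAlgebra ℝ G from x) < ‖rDown G q 2 two_pos hq.le z‖ + δ := by
    have h3 := norm_sub_norm_le (lqRingToLq G q 2 x) (rDown G q 2 two_pos hq.le z)
    rw [norm_sub_rev, norm_lqRingToLq] at h3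
    linarith
  filter_upwards [rLqNorm_lt x h2] with r hr h0 h
  have h4 : ‖rDown G q r h0 h (z - toL q x)‖ ≤ ‖z - toL q x‖ := norm_rDown_le _ _ _ _ _
  rw [map_sub, rDown_coe] at h4
  have h5 := norm_sub_norm_le (rDown G q r h0 h z) (lqRingToLq G q r x)
  rw [norm_lqRingToLq] at h5
  linarith

/-- an element of `KO_0(C*_{ℓ^q}(G; ℝ))` which dies in `KO_0(C*_r(G; ℝ))` dies in
`KO_0(C*_{ℓ^r}(G; ℝ))` for some `r` with `2 < r ≤ q` -/
theorem ko_lim (q : ℝ) (hq : 2 < q) (z : KOLq G q) (hz : koDown G q 2 two_pos hq.le z = 0) :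
    ∃ (r : ℝ) (h0 : 2 < r) (h : r ≤ q), koDown G q r (lt_trans two_pos h0) h z = 0 := by
  have p0 : ∀ r : ℝ, 0 < min (max r 2) q := fun r =>
    lt_min (lt_of_lt_of_le two_pos (le_max_right _ _)) (by linarith)
  have key : ∀ (q' : ℝ) (_ : q' = 2) (h0 : 0 < q') (h : q' ≤ q),
      K0.map (nu (rDown G q q' h0 h)) z = 0 := by
    rintro _ rfl h0 h
    exact hz
  have m2 : min (max 2 2) q = (2 : ℝ) := by rw [max_self, min_eq_left hq.le]
  have dn : ∀ (q' : ℝ) (_ : q' = 2) (h0 : 0 < q') (h : q' ≤ q) (w : RLq G q),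
      ‖rDown G q q' h0 h w‖ = ‖rDown G q 2 two_pos hq.le w‖ := by
    rintro _ rfl h0 h w
    rfl
  obtain ⟨r, hr, h⟩ := KG.k0_lim (S := fun r => RLq G (min (max r 2) q))
    (fun r => rDown G q (min (max r 2) q) (p0 r) (min_le_right _ _))
    (dense_rDown _ _ _ _)
    (fun w c hw => by
      have hw' : ‖rDown G q 2 two_pos hq.le w‖ < c := by
        rw [← dn _ m2 (p0 2) (min_le_right _ _) w]
        exact hw
      filter_upwards [ev_lt_down q hq w c hw', Ioo_mem_nhdsGT hq] with r hr hrI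
      have e : min (max r 2) q = r := by
        rw [max_eq_left hrI.1.le, min_eq_left hrI.2.le]
      have gen : ∀ (q' : ℝ) (_ : q' = r) (h0 : 0 < q') (h : q' ≤ q),
          ‖rDown G q q' h0 h w‖ < c := by
        rintro _ rfl h0 h
        exact hr h0 h
      exact gen _ e (p0 r) (min_le_right _ _))
    z (key _ m2 _ _)
  exact ⟨min (max r 2) q, lt_min (lt_of_lt_of_le hr (le_max_left _ _)) hq, min_le_right _ _, h⟩

/-- every class of `KO_0(C*_r(G; ℝ))` comes from `KO_0(C*_{ℓ^q}(G; ℝ))`, `q > 2` near `2` -/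
theorem comesFrom (x : KOLq G 2) : ∀ᶠ q in 𝓝[>] (2 : ℝ), ComesFrom x q := by
  have h := KG.k0_surj (S := RLq G) (rMaxToLq G) (fun q hq => rDown G q 2 two_pos hq)
    (fun q hq a => by
      have := RingHom.congr_fun (rDown_rMaxToLq (G := G) q 2 two_pos hq) a
      exact this)
    (fun q hq y => norm_rDown_le _ _ _ _ _) (dense_rMaxToLq 2) ev_lt x
  filter_upwards [h, self_mem_nhdsWithin] with q hq hq2
  obtain ⟨y, hy⟩ := hq (le_of_lt hq2)
  exact ⟨le_of_lt hq2, y, hy⟩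

theorem surjective_iff {A : Type} [AddCommGroup A] (α : A →+ KOMax G) :
    LqSurjective α 2 ↔ ∀ q : ℝ, 2 < q → ∀ y : KOLq G q, ReachedNear α q y := by
  constructor
  · intro h q hq y
    obtain ⟨a, ha⟩ := h (koDown G q 2 two_pos hq.le y)
    have ha' : koMaxToLq G 2 (α a) = koDown G q 2 two_pos hq.le y := ha
    obtain ⟨r, h0, hr, hz⟩ := ko_lim q hq (koMaxToLq G q (α a) - y) (by
      rw [map_sub, koDown_koMaxToLq, ha', sub_self])
    refine ⟨r, h0, hr, a, ?_⟩
    rw [map_sub, koDown_koMaxToLq, sub_eq_zero] at hz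
    exact hz
  · intro h x
    obtain ⟨q, ⟨hq, y, hy⟩, hq2⟩ := ((comesFrom x).and self_mem_nhdsWithin).exists
    obtain ⟨r, h0, hr, a, ha⟩ := h q hq2 y
    refine ⟨a, ?_⟩
    change koMaxToLq G 2 (α a) = x
    rw [← koDown_koMaxToLq r 2 two_pos h0.le, ha, koDown_koDown, hy]

end

end Pool.Agent.X270.NT.RG
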