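import Pool.Agent.X270.NT.ThinBound

set_option autoImplicit false
set_option linter.unusedSectionVars false

open scoped Matrix ENNReal Pointwise InnerProductSpace
open Filter Topology

namespace Pool.Agent.X270.NT

open Pool.Agent.H496R3.ZS (Ell dl dl_apply inner_dl_left orthonormal_dl permRep permIso IsAmenable
  integ integ_apply)

noncomputable section

/-- the deformation of a number -/
def dfm (c : ℂ) (α β : ℝ) (ζ : ℂ) : ℂ :=
  if c = 0 then 0 else (c / (‖c‖ : ℂ)) * Complex.exp (((α : ℂ) + β * ζ) * (Real.log ‖c‖ : ℂ))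

lemma norm_dfm (c : ℂ) (α β : ℝ) (ζ : ℂ) :
    ‖dfm c α β ζ‖ = if c = 0 then 0 else ‖c‖ ^ (α + β * ζ.re) := by
  rw [dfm]
  split_ifs with h
  · rw [norm_zero]
  · have h0 : 0 < ‖c‖ := norm_pos_iff.2 h
    rw [norm_mul, norm_div, Complex.norm_real, norm_norm, div_self h0.ne', one_mul,
      Complex.norm_exp, Real.rpow_def_of_pos h0]
    congr 1
    have e1 : ((α : ℂ) + β * ζ) * (Real.log ‖c‖ : ℂ) = ((Real.log ‖c‖ : ℝ) : ℂ) * (α + β * ζ) := by
      ring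
    rw [e1, Complex.re_ofReal_mul, Complex.add_re, Complex.ofReal_re, Complex.re_ofReal_mul]

lemma differentiable_dfm (c : ℂ) (α β : ℝ) : Differentiable ℂ (dfm c α β) := by
  unfold dfm
  split_ifs with h
  · exact differentiable_const _
  · fun_prop

lemma dfm_one (c : ℂ) (α β : ℝ) (ζ : ℂ) (h : (α : ℂ) + β * ζ = 1) : dfm c α β ζ = c := by
  rw [dfm]
  split_ifs with hc
  · exact hc.symm
  · have h0 : (‖c‖ : ℂ) ≠ 0 := by exact_mod_cast (norm_pos_iff.2 hc).ne'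
    rw [h, one_mul, ← Complex.ofReal_exp, Real.exp_log (norm_pos_iff.2 hc)]
    field_simp

/-- a bound on the strip -/
lemma norm_dfm_le (c : ℂ) (α β : ℝ) (ζ : ℂ) (h0 : 0 ≤ ζ.re) (h1 : ζ.re ≤ 1) :
    ‖dfm c α β ζ‖ ≤ Real.exp ((|α| + |β|) * |Real.log ‖c‖|) := by
  rw [norm_dfm]
  split_ifs with h
  · exact (Real.exp_pos _).le
  · rw [Real.rpow_def_of_pos (norm_pos_iff.2 h)]
    refine Real.exp_le_exp.2 ((le_abs_self _).trans ?_)
    rw [abs_mul, mul_comm]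
    refine mul_le_mul_of_nonneg_right ?_ (abs_nonneg _)
    refine (abs_add_le _ _).trans (add_le_add le_rfl ?_)
    rw [abs_mul, abs_of_nonneg h0]
    exact mul_le_of_le_one_right (abs_nonneg _) h1

/-- **interpolation of bilinear forms** on finite sets -/
lemma bilinear_interp {I J : Type} (s : Finset I) (t : Finset J) (T : I → J → ℂ) (N0 N1 : ℝ)
    (h2 : ∀ (c : J → ℂ) (d : I → ℂ), ‖∑ i ∈ s, ∑ j ∈ t, T i j * c j * d i‖ ≤
      N0 * Real.sqrt (∑ j ∈ t, ‖c j‖ ^ 2) * Real.sqrt (∑ i ∈ s, ‖d i‖ ^ 2))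
    (h1 : ∀ (c : J → ℂ) (d : I → ℂ), (∀ j, ‖c j‖ ≤ 1) →
      ‖∑ i ∈ s, ∑ j ∈ t, T i j * c j * d i‖ ≤ N1 * ∑ i ∈ s, ‖d i‖)
    (q q' : ℝ) (hq : 2 ≤ q) (hqq : 1 / q + 1 / q' = 1) (c : J → ℂ) (d : I → ℂ) :
    ‖∑ i ∈ s, ∑ j ∈ t, T i j * c j * d i‖ ≤
      (N0 * Real.sqrt (∑ j ∈ t, ‖c j‖ ^ q) * Real.sqrt (∑ i ∈ s, ‖d i‖ ^ q')) ^ (2 / q) *
        (N1 * ∑ i ∈ s, ‖d i‖ ^ q') ^ (1 - 2 / q) := by
  have hq0 : 0 < q := by linarith
  have hq'0 : 0 < q' := by
    have h3 : 1 / q ≤ 1 / 2 := one_div_le_one_div_of_le (by norm_num) hq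
    have h4 : 0 < 1 / q' := by linarith
    exact one_div_pos.1 h4
  set F : ℂ → ℂ := fun ζ => ∑ i ∈ s, ∑ j ∈ t,
    T i j * dfm (c j) (q / 2) (-(q / 2)) ζ * dfm (d i) (q' / 2) (q' / 2) ζ with hF
  have hdiff : Differentiable ℂ F := by
    refine Differentiable.fun_sum fun i _ => Differentiable.fun_sum fun j _ => ?_
    exact ((differentiable_const _).mul (differentiable_dfm _ _ _)).mul (differentiable_dfm _ _ _)
  have hθ : (((1 - 2 / q : ℝ) : ℂ)).re = 1 - 2 / q := Complex.ofReal_re _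
  have h2q : 2 / q ≤ 1 := (div_le_one hq0).2 hq
  have h2q0 : 0 ≤ 2 / q := by positivity
  have hz : ((1 - 2 / q : ℝ) : ℂ) ∈ Complex.HadamardThreeLines.verticalClosedStrip 0 1 := by
    change (((1 - 2 / q : ℝ) : ℂ)).re ∈ Set.Icc (0 : ℝ) 1
    rw [hθ]
    exact ⟨by linarith, by linarith⟩
  have hB : BddAbove ((norm ∘ F) '' Complex.HadamardThreeLines.verticalClosedStrip 0 1) := by
    refine ⟨∑ i ∈ s, ∑ j ∈ t, ‖T i j‖ * Real.exp ((|q / 2| + |-(q / 2)|) * |Real.log ‖c j‖|) *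
      Real.exp ((|q' / 2| + |q' / 2|) * |Real.log ‖d i‖|), ?_⟩
    rintro _ ⟨ζ, hζ, rfl⟩
    have hζ' : ζ.re ∈ Set.Icc (0 : ℝ) 1 := hζ
    change ‖F ζ‖ ≤ _
    refine (norm_sum_le _ _).trans (Finset.sum_le_sum fun i _ => ?_)
    refine (norm_sum_le _ _).trans (Finset.sum_le_sum fun j _ => ?_)
    rw [norm_mul, norm_mul]
    have e1 := norm_dfm_le (c j) (q / 2) (-(q / 2)) ζ hζ'.1 hζ'.2
    have e2 := norm_dfm_le (d i) (q' / 2) (q' / 2) ζ hζ'.1 hζ'.2
    gcongr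
  have ha : ∀ ζ ∈ Complex.re ⁻¹' {(0 : ℝ)}, ‖F ζ‖ ≤
      N0 * Real.sqrt (∑ j ∈ t, ‖c j‖ ^ q) * Real.sqrt (∑ i ∈ s, ‖d i‖ ^ q') := by
    intro ζ hζ
    have hζ' : ζ.re = 0 := hζ
    refine (h2 (fun j => dfm (c j) (q / 2) (-(q / 2)) ζ)
      (fun i => dfm (d i) (q' / 2) (q' / 2) ζ)).trans_eq ?_
    have e1 : ∀ x : ℂ, ‖dfm x (q / 2) (-(q / 2)) ζ‖ ^ 2 = ‖x‖ ^ q := by
      intro x
      rw [norm_dfm, hζ']
      split_ifs with h
      · rw [h, norm_zero, Real.zero_rpow hq0.ne']; norm_num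
      · rw [← Real.rpow_natCast, ← Real.rpow_mul (norm_nonneg _)]
        congr 1
        push_cast
        ring
    have e2 : ∀ x : ℂ, ‖dfm x (q' / 2) (q' / 2) ζ‖ ^ 2 = ‖x‖ ^ q' := by
      intro x
      rw [norm_dfm, hζ']
      split_ifs with h
      · rw [h, norm_zero, Real.zero_rpow hq'0.ne']; norm_num
      · rw [← Real.rpow_natCast, ← Real.rpow_mul (norm_nonneg _)]
        congr 1
        push_cast
        ring
    simp only [e1, e2]
  have hb : ∀ ζ ∈ Complex.re ⁻¹' {(1 : ℝ)}, ‖F ζ‖ ≤ N1 * ∑ i ∈ s, ‖d i‖ ^ q' := by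
    intro ζ hζ
    have hζ' : ζ.re = 1 := hζ
    refine (h1 (fun j => dfm (c j) (q / 2) (-(q / 2)) ζ)
      (fun i => dfm (d i) (q' / 2) (q' / 2) ζ) ?_).trans_eq ?_
    · intro j
      rw [norm_dfm, hζ']
      split_ifs with h
      · exact zero_le_one
      · rw [mul_one, add_neg_cancel, Real.rpow_zero]
    · congr 1
      refine Finset.sum_congr rfl fun i _ => ?_
      rw [norm_dfm, hζ']
      split_ifs with h
      · rw [h, norm_zero, Real.zero_rpow hq'0.ne']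
      · congr 1; ring
  have key := Complex.HadamardThreeLines.norm_le_interp_of_mem_verticalClosedStrip₀₁' F hz
    hdiff.diffContOnCl hB ha hb
  rw [hθ] at key
  have e3 : F ((1 - 2 / q : ℝ) : ℂ) = ∑ i ∈ s, ∑ j ∈ t, T i j * c j * d i := by
    simp only [hF]
    refine Finset.sum_congr rfl fun i _ => Finset.sum_congr rfl fun j _ => ?_
    rw [dfm_one (c j), dfm_one (d i)]
    · have e4 : q' / 2 + q' / 2 * (1 - 2 / q) = 1 := by
        have e5 : 1 / q = 1 - 1 / q' := by linarith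
        have e6 : 2 / q = 2 - 2 / q' := by
          rw [show 2 / q = 2 * (1 / q) by ring, e5]; ring
        rw [e6]
        field_simp
        ring
      exact_mod_cast e4
    · have e4 : q / 2 + -(q / 2) * (1 - 2 / q) = 1 := by
        field_simp
        ring
      exact_mod_cast e4
  rw [e3] at key
  rwa [sub_sub_cancel] at key

end

end Pool.Agent.X270.NT
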