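import Pool.Agent.H919R4.ZS.Defs
import Pool.Agent.H496R3.ZS.Stmt

/-!
Homology and cohomology of a group with coefficients in a Banach space on which the group acts by
bounded operators, computed from a finite free resolution; representations on Banach spaces which
are close to being weakly contained in the regular representation; the representations on
`ℓ^q(Z)` for a set `Z` with an action of the group.
-/

set_option autoImplicit false

open scoped ENNReal Pointwise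

namespace Pool.Agent.X270.NT.St

open Pool.Agent.H919R4.ZS (FinRes)
open Pool.Agent.H496R3.ZS (IsAmenable)

/-- A representation of the group `G` on a complex normed space `V` by bounded linear operators. -/
structure BRep (G V : Type) [Group G] [NormedAddCommGroup V] [NormedSpace ℂ V] where
  /-- the operators -/
  op : G → V → V
  /-- additivity -/
  map_add : ∀ g v w, op g (v + w) = op g v + op g w
  /-- homogeneity -/
  map_smul : ∀ g (c : ℂ) v, op g (c • v) = c • op g v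
  /-- boundedness -/
  bounded : ∀ g, ∃ C : ℝ, ∀ v, ‖op g v‖ ≤ C * ‖v‖
  /-- the unit acts as the identity -/
  map_one : ∀ v, op 1 v = v
  /-- multiplicativity -/
  map_mul : ∀ g h v, op (g * h) v = op g (op h v)

section coefficients

variable {G V : Type} [Group G] [NormedAddCommGroup V] [NormedSpace ℂ V]

/-- The left action of `a = ∑ a_g g ∈ ℤ[G]` on `V`: `v ↦ ∑ a_g π(g) v`. -/
noncomputable def actL (π : BRep G V) (a : MonoidAlgebra ℤ G) (v : V) : V :=
  ∑ g ∈ a.coeff.support, a.coeff g • π.op g v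

/-- The right action of `a = ∑ a_g g ∈ ℤ[G]` on `V`: `v ↦ ∑ a_g π(g⁻¹) v`. -/
noncomputable def actR (π : BRep G V) (a : MonoidAlgebra ℤ G) (v : V) : V :=
  ∑ g ∈ a.coeff.support, a.coeff g • π.op g⁻¹ v

variable (X : FinRes G) (π : BRep G V)

/-- The coboundary `V^(n i) → V^(n (i+1))`, `(v_j) ↦ (∑_j d_kj · v_j)_k`, of the cochain complex
`Hom_{ℤ[G]}(C_*, V)`, where `C_*` is the resolution `X`. -/
noncomputable def cobd (i : ℕ) (v : Fin (X.n i) → V) : Fin (X.n (i + 1)) → V :=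
  fun k => ∑ j, actL π (X.d i k j) (v j)

/-- The boundary `V^(n (i+1)) → V^(n i)`, `(v_j) ↦ (∑_j v_j · d_jk)_k`, of the chain complex
`V ⊗_{ℤ[G]} C_*`, where `C_*` is the resolution `X`. -/
noncomputable def bd (i : ℕ) (v : Fin (X.n (i + 1)) → V) : Fin (X.n i) → V :=
  fun k => ∑ j, actR π (X.d i j k) (v j)

/-- `H^i(G; V) ≠ 0`: there is a cocycle of degree `i` which is not a coboundary. -/
def CohNonzero : ℕ → Prop
  | 0 => ∃ v : Fin (X.n 0) → V, cobd X π 0 v = 0 ∧ v ≠ 0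
  | i + 1 => ∃ v : Fin (X.n (i + 1)) → V, cobd X π (i + 1) v = 0 ∧ ∀ w, cobd X π i w ≠ v

/-- `H_i(G; V) ≠ 0`: there is a cycle of degree `i` which is not a boundary. -/
def HomNonzero : ℕ → Prop
  | 0 => ∃ v : Fin (X.n 0) → V, ∀ w, bd X π 0 w ≠ v
  | i + 1 => ∃ v : Fin (X.n (i + 1)) → V, bd X π i v = 0 ∧ ∀ w, bd X π (i + 1) w ≠ v

end coefficients

/-! ### The representations on `ℓ^q(Z)` -/

/-- The Banach space `ℓ^q(Z)`. -/
def EllT (Z : Type) (q : ℝ≥0∞) : Type := lp (fun _ : Z => ℂ) q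

/-- The norm of `ℓ^q(Z)`. -/
noncomputable instance instNormedAddCommGroupEllT (Z : Type) (q : ℝ≥0∞) [Fact (1 ≤ q)] :
    NormedAddCommGroup (EllT Z q) := lp.normedAddCommGroup

/-- The scalar multiplication of `ℓ^q(Z)`. -/
noncomputable instance instNormedSpaceEllT (Z : Type) (q : ℝ≥0∞) [Fact (1 ≤ q)] :
    NormedSpace ℂ (EllT Z q) := lp.instNormedSpace

lemma memlp_comp {Z : Type} (q : ℝ≥0∞) (hq : q ≠ 0) (e : Z ≃ Z) {f : Z → ℂ} (hf : Memℓp f q) :
    Memℓp (fun z => f (e z)) q := by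
  rcases eq_or_ne q ∞ with rfl | hq'
  · rw [memℓp_infty_iff] at hf ⊢
    refine hf.mono ?_
    rintro _ ⟨z, rfl⟩
    exact ⟨e z, rfl⟩
  · have h : 0 < q.toReal := ENNReal.toReal_pos hq hq'
    rw [memℓp_gen_iff h] at hf ⊢
    exact (e.summable_iff (f := fun h => ‖f h‖ ^ q.toReal)).2 hf

/-- The function `z ↦ f(g⁻¹ z)` in `ℓ^q(Z)`. -/
def trans {G Z : Type} [Group G] [MulAction G Z] (q : ℝ≥0∞) [hq : Fact (1 ≤ q)] (g : G)
    (f : EllT Z q) : EllT Z q :=
  ⟨fun z => f.1 (g⁻¹ • z), memlp_comp q (one_pos.trans_le hq.out).ne'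
    (MulAction.toPerm (g⁻¹ : G) : Z ≃ Z) (lp.memℓp f)⟩

lemma norm_trans {G Z : Type} [Group G] [MulAction G Z] (q : ℝ≥0∞) [hq : Fact (1 ≤ q)] (g : G)
    (f : EllT Z q) : ‖trans q g f‖ = ‖f‖ := by
  have key : ∀ f : lp (fun _ : Z => ℂ) q,
      ‖(show lp (fun _ : Z => ℂ) q from trans q g f)‖ = ‖f‖ := by
    intro f
    rcases eq_or_ne q ∞ with rfl | hq'
    · rw [lp.norm_eq_ciSup, lp.norm_eq_ciSup]
      exact (MulAction.toPerm (g⁻¹ : G) : Z ≃ Z).iSup_comp (g := fun h => ‖f h‖)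
    · have h : 0 < q.toReal := ENNReal.toReal_pos (one_pos.trans_le hq.out).ne' hq'
      rw [lp.norm_eq_tsum_rpow h, lp.norm_eq_tsum_rpow h]
      congr 1
      exact (MulAction.toPerm (g⁻¹ : G) : Z ≃ Z).tsum_eq (fun h => ‖f h‖ ^ q.toReal)
  exact key f

/-- The isometric representation of `G` on `ℓ^q(Z)` given by an action of `G` on a set `Z`:
`(g f)(z) = f(g⁻¹ z)`. For `Z = G` with left multiplication and `q = 2` it is the left regular
representation. -/
noncomputable def ellRep (G Z : Type) [Group G] [MulAction G Z] (q : ℝ≥0∞) [Fact (1 ≤ q)] :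
    BRep G (EllT Z q) where
  op := trans q
  map_add _ _ _ := rfl
  map_smul _ _ _ := rfl
  bounded g := ⟨1, fun f => by rw [norm_trans, one_mul]⟩
  map_one f := by
    refine Subtype.ext (funext fun z => ?_)
    change f.1 ((1 : G)⁻¹ • z) = f.1 z
    rw [inv_one, one_smul]
  map_mul g h f := by
    refine Subtype.ext (funext fun z => ?_)
    change f.1 ((g * h)⁻¹ • z) = f.1 (h⁻¹ • (g⁻¹ • z))
    rw [mul_inv_rev, mul_smul]

/-- The vector `∑ x_g π(g) v`. -/
noncomputable def act {G V : Type} [Group G] [NormedAddCommGroup V] [NormedSpace ℂ V]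
    (π : BRep G V) (x : MonoidAlgebra ℂ G) (v : V) : V :=
  ∑ g ∈ x.coeff.support, x.coeff g • π.op g v

/-- The norm of `x = ∑ x_g g ∈ ℂ[G]` in `C*_r(G)`: the norm of the operator `∑ x_g λ(g)` on
`ℓ²(G)`, where `λ` is the left regular representation. -/
noncomputable def redNorm {G : Type} [Group G] (x : MonoidAlgebra ℂ G) : ℝ :=
  sInf {c : ℝ | 0 ≤ c ∧ ∀ f : EllT G 2, ‖act (ellRep G G 2) x f‖ ≤ c * ‖f‖}

/-- The norm `∑ |x_g|` of `x = ∑ x_g g ∈ ℂ[G]` in `ℓ¹(G)`. -/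
noncomputable def l1Norm {G : Type} [Group G] (x : MonoidAlgebra ℂ G) : ℝ :=
  ∑ g ∈ x.coeff.support, ‖x.coeff g‖

/-- The representation `π` of `G` on the normed space `V` is `ε`-tempered with respect to the
finite subset `S` of `G`: there is a constant `K` with
`‖∑ x_g π(g) v‖ ≤ K e^(ε m) ‖x‖_r^(1-ε) ‖x‖_1^ε ‖v‖`
for all `m`, all `x = ∑ x_g g ∈ ℂ[G]` supported in `S^m = {s_1 ⋯ s_m | s_i ∈ S}` and all `v ∈ V`,
where `‖x‖_r` is the norm of `x` in `C*_r(G)` and `‖x‖_1` its norm in `ℓ¹(G)`. -/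
def NearTempered {G V : Type} [Group G] [NormedAddCommGroup V] [NormedSpace ℂ V]
    (S : Set G) (ε : ℝ) (π : BRep G V) : Prop :=
  ∃ K : ℝ, ∀ (m : ℕ) (x : MonoidAlgebra ℂ G), (x.coeff.support : Set G) ⊆ S ^ m → ∀ v : V,
    ‖act π x v‖ ≤ K * Real.exp (ε * m) * redNorm x ^ (1 - ε) * l1Norm x ^ ε * ‖v‖

/-- The action of `G` on `Z` has stabilisers of exponent at most `ε` with respect to the finite
subset `S` of `G`: for all `z, w ∈ Z` there is `K` such that at most `K e^(ε m)` elements `g` of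
`S^m = {s_1 ⋯ s_m | s_i ∈ S}` satisfy `g z = w`, for all `m`. -/
def Thin {G : Type} [Group G] (S : Set G) (ε : ℝ) (Z : Type) [MulAction G Z] : Prop :=
  ∀ z w : Z, ∃ K : ℝ, ∀ m : ℕ, (Set.ncard {g : G | g ∈ S ^ m ∧ g • z = w} : ℝ) ≤
    K * Real.exp (ε * m)

/-- There is a representation of `G` on a Banach space `V`, `ε`-tempered with respect to `S`, with
`H^i(G; V) ≠ 0` or `H_i(G; V) ≠ 0` for some `i ≤ p`. -/
def SeenByBanach {G : Type} [Group G] (X : FinRes G) (p : ℕ) (S : Set G) (ε : ℝ) : Prop :=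
  ∃ (V : Type) (_ : NormedAddCommGroup V) (_ : NormedSpace ℂ V) (_ : CompleteSpace V)
    (π : BRep G V), NearTempered S ε π ∧ ∃ i ≤ p, CohNonzero X π i ∨ HomNonzero X π i

/-- There are a `G`-set `Z`, whose stabilisers are amenable or of exponent at most `ε` with
respect to `S`, and `q ∈ [1, ∞]` with `|q - 2| < ε`, such that `H^i(G; ℓ^q(Z)) ≠ 0` or
`H_i(G; ℓ^q(Z)) ≠ 0` for some `i ≤ p`. -/
def SeenByEll {G : Type} [Group G] (X : FinRes G) (p : ℕ) (S : Set G) (ε : ℝ) : Prop :=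
  ∃ (Z : Type) (_ : MulAction G Z) (q : ℝ≥0∞) (_ : Fact (1 ≤ q)), |q.toReal - 2| < ε ∧
    ((∀ z : Z, IsAmenable (MulAction.stabilizer G z)) ∨ Thin S ε Z) ∧
    ∃ i ≤ p, CohNonzero X (ellRep G Z q) i ∨ HomNonzero X (ellRep G Z q) i

end Pool.Agent.X270.NT.St
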