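import Pool.Agent.X270.NT.StmtU

/-!
The `C*`-algebras `C*_{ℓ^q}(G)` of a group `G` (Brown and Guentner): the completions of the group
ring `ℂ[G]` with respect to the unitary representations with a total set of vectors with diagonal
coefficients in `ℓ^q(G)`.
-/

set_option autoImplicit false

open scoped Pointwise

namespace Pool.Agent.X270.NT.C

open Pool.Agent.X270.NT.St (BRep)
open Pool.Agent.X270.NT.U (Unitary LqCoefficients)

variable {G : Type} [Group G]

/-- The set of the numbers `‖π(x) v‖`, where `π` is a unitary representation of `G` on a Hilbert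
space with a total set of vectors with diagonal coefficients in `ℓ^q(G)`, and `‖v‖ ≤ 1`. -/
def lqSet (q : ℝ) (x : MonoidAlgebra ℂ G) : Set ℝ :=
  {c : ℝ | ∃ (H : Type) (_ : NormedAddCommGroup H) (_ : InnerProductSpace ℂ H)
    (_ : CompleteSpace H) (π : BRep G H), Unitary π ∧ LqCoefficients q π ∧
    ∃ v : H, ‖v‖ ≤ 1 ∧ c = ‖St.act π x v‖}

/-- The norm `‖x‖ = sup ‖π(x)‖` of `x ∈ ℂ[G]` in `C*_{ℓ^q}(G)`; `π` runs through the unitary
representations of `G` with a total set of vectors with diagonal coefficients in `ℓ^q(G)`. -/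
noncomputable def lqNorm (q : ℝ) (x : MonoidAlgebra ℂ G) : ℝ := sSup (lqSet q x)

section

variable {H : Type} [NormedAddCommGroup H] [InnerProductSpace ℂ H] (π : BRep G H)

/-- the operators of a representation as linear maps -/
def opL (g : G) : Module.End ℂ H where
  toFun := π.op g
  map_add' := π.map_add g
  map_smul' := π.map_smul g

/-- the representation as a homomorphism -/
def homL : G →* Module.End ℂ H where
  toFun := opL π
  map_one' := LinearMap.ext fun v => π.map_one v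
  map_mul' g h := LinearMap.ext fun v => π.map_mul g h v

lemma act_eq_lift (x : MonoidAlgebra ℂ G) (v : H) :
    St.act π x v = MonoidAlgebra.lift ℂ _ G (homL π) x v := by
  rw [MonoidAlgebra.lift_apply, Finsupp.sum, LinearMap.sum_apply]
  rfl

lemma act_add (x y : MonoidAlgebra ℂ G) (v : H) :
    St.act π (x + y) v = St.act π x v + St.act π y v := by
  simp only [act_eq_lift, map_add, LinearMap.add_apply]

lemma act_neg (x : MonoidAlgebra ℂ G) (v : H) : St.act π (-x) v = - St.act π x v := by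
  simp only [act_eq_lift, map_neg, LinearMap.neg_apply]

lemma act_zero (v : H) : St.act π (0 : MonoidAlgebra ℂ G) v = 0 := by
  simp only [act_eq_lift, map_zero, LinearMap.zero_apply]

lemma act_mul (x y : MonoidAlgebra ℂ G) (v : H) :
    St.act π (x * y) v = St.act π x (St.act π y v) := by
  simp only [act_eq_lift, map_mul]
  rfl

lemma act_smul (c : ℂ) (x : MonoidAlgebra ℂ G) (v : H) :
    St.act π (c • x) v = c • St.act π x v := by
  simp only [act_eq_lift, map_smul, LinearMap.smul_apply]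

lemma act_smul_vec (c : ℂ) (x : MonoidAlgebra ℂ G) (v : H) :
    St.act π x (c • v) = c • St.act π x v := by
  simp only [act_eq_lift, map_smul]

lemma norm_act_le (hu : Unitary π) (x : MonoidAlgebra ℂ G) (v : H) :
    ‖St.act π x v‖ ≤ St.l1Norm x * ‖v‖ := by
  rw [St.act, St.l1Norm, Finset.sum_mul]
  refine (norm_sum_le _ _).trans (Finset.sum_le_sum fun g _ => ?_)
  rw [norm_smul, hu]

end

lemma l1Norm_nonneg (x : MonoidAlgebra ℂ G) : 0 ≤ St.l1Norm x :=
  Finset.sum_nonneg fun _ _ => norm_nonneg _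

lemma bddAbove_lqSet (q : ℝ) (x : MonoidAlgebra ℂ G) : BddAbove (lqSet q x) := by
  refine ⟨St.l1Norm x, ?_⟩
  rintro _ ⟨H, _, _, _, π, hu, -, v, hv, rfl⟩
  exact (norm_act_le π hu x v).trans (mul_le_of_le_one_right (l1Norm_nonneg x) hv)

lemma lqNorm_nonneg (q : ℝ) (x : MonoidAlgebra ℂ G) : 0 ≤ lqNorm q x := by
  refine Real.sSup_nonneg ?_
  rintro _ ⟨H, _, _, _, π, -, -, v, -, rfl⟩
  exact norm_nonneg _

lemma norm_act_le_lq {H : Type} [NormedAddCommGroup H] [InnerProductSpace ℂ H] [CompleteSpace H]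
    (π : BRep G H) (hu : Unitary π) (q : ℝ) (hq : LqCoefficients q π) (x : MonoidAlgebra ℂ G)
    (v : H) : ‖St.act π x v‖ ≤ lqNorm q x * ‖v‖ := by
  rcases (norm_nonneg v).eq_or_lt with h | h
  · have h1 : St.act π x v = 0 := by rw [norm_eq_zero.1 h.symm, act_eq_lift, map_zero]
    rw [h1, norm_zero, ← h, mul_zero]
  · have h1 : ‖St.act π x (((‖v‖⁻¹ : ℝ) : ℂ) • v)‖ ≤ lqNorm q x := by
      refine le_csSup (bddAbove_lqSet q x) ⟨H, _, _, ‹_›, π, hu, hq, _, ?_, rfl⟩
      rw [norm_smul, Complex.norm_real, Real.norm_of_nonneg (by positivity), inv_mul_cancel₀ h.ne']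
    rw [act_smul_vec, norm_smul, Complex.norm_real, Real.norm_of_nonneg (by positivity),
      inv_mul_le_iff₀ h] at h1
    linarith

lemma lqNorm_le (q : ℝ) (x : MonoidAlgebra ℂ G) (c : ℝ) (hc : 0 ≤ c)
    (h : ∀ (H : Type) [NormedAddCommGroup H] [InnerProductSpace ℂ H] [CompleteSpace H]
      (π : BRep G H), Unitary π → LqCoefficients q π → ∀ v : H, ‖v‖ ≤ 1 →
      ‖St.act π x v‖ ≤ c) : lqNorm q x ≤ c := by
  refine Real.sSup_le ?_ hc
  rintro _ ⟨H, _, _, _, π, hu, hq, v, hv, rfl⟩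
  exact h H π hu hq v hv

lemma lqNorm_zero (q : ℝ) : lqNorm q (0 : MonoidAlgebra ℂ G) = 0 := by
  refine le_antisymm (lqNorm_le q _ 0 le_rfl ?_) (lqNorm_nonneg _ _)
  intro H _ _ _ π _ _ v _
  rw [act_zero, norm_zero]

lemma lqNorm_add_le (q : ℝ) (x y : MonoidAlgebra ℂ G) :
    lqNorm q (x + y) ≤ lqNorm q x + lqNorm q y := by
  refine lqNorm_le q _ _ (add_nonneg (lqNorm_nonneg _ _) (lqNorm_nonneg _ _)) ?_
  intro H _ _ _ π hu hq v hv
  rw [act_add]
  refine (norm_add_le _ _).trans (add_le_add ?_ ?_)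
  · exact (norm_act_le_lq π hu q hq x v).trans
      (mul_le_of_le_one_right (lqNorm_nonneg q x) hv)
  · exact (norm_act_le_lq π hu q hq y v).trans
      (mul_le_of_le_one_right (lqNorm_nonneg q y) hv)

lemma lqNorm_neg (q : ℝ) (x : MonoidAlgebra ℂ G) : lqNorm q (-x) = lqNorm q x := by
  have h : ∀ x : MonoidAlgebra ℂ G, lqNorm q (-x) ≤ lqNorm q x := by
    intro x
    refine lqNorm_le q _ _ (lqNorm_nonneg _ _) ?_
    intro H _ _ _ π hu hq v hv
    rw [act_neg, norm_neg]
    exact (norm_act_le_lq π hu q hq x v).trans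
      (mul_le_of_le_one_right (lqNorm_nonneg q x) hv)
  refine le_antisymm (h x) ?_
  have := h (-x)
  rwa [neg_neg] at this

lemma lqNorm_mul_le (q : ℝ) (x y : MonoidAlgebra ℂ G) :
    lqNorm q (x * y) ≤ lqNorm q x * lqNorm q y := by
  refine lqNorm_le q _ _ (mul_nonneg (lqNorm_nonneg _ _) (lqNorm_nonneg _ _)) ?_
  intro H _ _ _ π hu hq v hv
  rw [act_mul]
  refine (norm_act_le_lq π hu q hq x _).trans
    (mul_le_mul_of_nonneg_left ?_ (lqNorm_nonneg _ _))
  exact (norm_act_le_lq π hu q hq y v).trans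
    (mul_le_of_le_one_right (lqNorm_nonneg q y) hv)

lemma lqNorm_smul_le (q : ℝ) (c : ℂ) (x : MonoidAlgebra ℂ G) :
    lqNorm q (c • x) ≤ ‖c‖ * lqNorm q x := by
  refine lqNorm_le q _ _ (mul_nonneg (norm_nonneg _) (lqNorm_nonneg _ _)) ?_
  intro H _ _ _ π hu hq v hv
  rw [act_smul, norm_smul]
  refine mul_le_mul_of_nonneg_left ?_ (norm_nonneg _)
  exact (norm_act_le_lq π hu q hq x v).trans
    (mul_le_of_le_one_right (lqNorm_nonneg q x) hv)

/-- The group ring `ℂ[G]`, with the norm of `C*_{ℓ^q}(G)`. -/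
def LqRing (G : Type) [Group G] (_ : ℝ) : Type := MonoidAlgebra ℂ G

/-- The ring structure of `ℂ[G]`. -/
noncomputable instance instRingLqRing (q : ℝ) : Ring (LqRing G q) := MonoidAlgebra.ring

/-- The norm of `C*_{ℓ^q}(G)` as a seminorm on `ℂ[G]`. -/
noncomputable def lqSeminorm (G : Type) [Group G] (q : ℝ) : RingSeminorm (LqRing G q) where
  toFun := lqNorm q
  map_zero' := lqNorm_zero q
  add_le' := lqNorm_add_le q
  neg' := lqNorm_neg q
  mul_le' := lqNorm_mul_le q

/-- The group ring `ℂ[G]` with the norm of `C*_{ℓ^q}(G)`, as a seminormed ring. -/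
noncomputable instance instSeminormedRingLqRing (q : ℝ) : SeminormedRing (LqRing G q) :=
  (lqSeminorm G q).toSeminormedRing

/-- The `C*`-algebra `C*_{ℓ^q}(G)`: the completion of `ℂ[G]`. -/
def LqAlg (G : Type) [Group G] (q : ℝ) : Type := UniformSpace.Completion (LqRing G q)

/-- The ring structure of `C*_{ℓ^q}(G)`. -/
noncomputable instance instNormedRingLqAlg (q : ℝ) : NormedRing (LqAlg G q) :=
  UniformSpace.Completion.instNormedRing (LqRing G q)

/-- The canonical map `ℂ[G] → C*_{ℓ^q}(G)`. -/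
noncomputable def ofGroupRing (G : Type) [Group G] (q : ℝ) : MonoidAlgebra ℂ G →+* LqAlg G q :=
  (UniformSpace.Completion.coeRingHom : LqRing G q →+* UniformSpace.Completion (LqRing G q))

/-- The canonical map `ℤ[G] → C*_{ℓ^q}(G)`. -/
noncomputable def toLq (G : Type) [Group G] (q : ℝ) : MonoidAlgebra ℤ G →+* LqAlg G q :=
  (ofGroupRing G q).comp (MonoidAlgebra.mapRingHom G (Int.castRingHom ℂ))

end Pool.Agent.X270.NT.C
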