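import Pool.Agent.X270.NT.StmtC
import Pool.Agent.X270.NT.Bridge
import Pool.Agent.Y483.CS.CMax
import Pool.Agent.Y483.CS.Iso

/-!
The canonical homomorphisms from the maximal group `C*`-algebra `C*_max(G)` to `C*_{ℓ^q}(G)`.
-/

set_option autoImplicit false

namespace Pool.Agent.X270.NT.K2

open UniformSpace
open Pool.Agent.Y483.CS (GA CMax URep HS K0 nu)
open Pool.Agent.X270.NT.St (BRep)
open Pool.Agent.X270.NT.U (Unitary LqCoefficients)
open Pool.Agent.X270.NT.C (LqAlg lqNorm ofGroupRing lqNorm_le)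

variable {G : Type} [Group G]

/-- a unitary representation on a nonzero Hilbert space -/
noncomputable def toURep {H : Type} [NormedAddCommGroup H] [InnerProductSpace ℂ H]
    [CompleteSpace H] [Nontrivial H] (π : BRep G H) (hu : Unitary π) : URep G where
  X := ⟨H⟩
  rep := π.hom
  norm_le g := ContinuousLinearMap.opNorm_le_bound (π.hom g) zero_le_one fun v => by
    rw [one_mul]
    exact (hu g v).le

lemma norm_act_le_mx {H : Type} [NormedAddCommGroup H] [InnerProductSpace ℂ H]
    [CompleteSpace H] (π : BRep G H) (hu : Unitary π) (x : MonoidAlgebra ℂ G) (v : H) :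
    ‖St.act π x v‖ ≤ GA.mx (G := G) x * ‖v‖ := by
  rcases subsingleton_or_nontrivial H with h | h
  · have h1 : St.act π x v = 0 := Subsingleton.elim _ _
    have h2 : v = 0 := Subsingleton.elim _ _
    rw [h1, h2, norm_zero, mul_zero]
  · have h1 := (toURep π hu).norm_alg_le x
    have h2 : St.act π x v = (MonoidAlgebra.lift ℂ (H →L[ℂ] H) G π.hom x) v := by
      rw [MonoidAlgebra.lift_apply, Finsupp.sum, sum_apply]
      rfl
    rw [h2]
    exact (ContinuousLinearMap.le_opNorm _ _).trans
      (mul_le_mul_of_nonneg_right h1 (norm_nonneg _))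

lemma lqNorm_le_mx (q : ℝ) (x : MonoidAlgebra ℂ G) : lqNorm q x ≤ GA.mx (G := G) x := by
  refine lqNorm_le q x _ (GA.mx_nonneg _) ?_
  intro H _ _ _ π hu _ v hv
  exact (norm_act_le_mx π hu x v).trans (mul_le_of_le_one_right (GA.mx_nonneg _) hv)

/-- The map `ℂ[G] → C*_{ℓ^q}(G)`. -/
noncomputable def gaToLq (G : Type) [Group G] (q : ℝ) : GA G →+* LqAlg G q := ofGroupRing G q

lemma continuous_gaToLq (q : ℝ) : Continuous (gaToLq G q) := by
  refine AddMonoidHomClass.continuous_of_bound (gaToLq G q) 1 fun x => ?_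
  rw [one_mul]
  have h1 : ‖gaToLq G q x‖ = lqNorm q x :=
    UniformSpace.Completion.norm_coe (E := Pool.Agent.X270.NT.C.LqRing G q) x
  rw [h1]
  exact lqNorm_le_mx q x

instance instCompleteLqAlg (q : ℝ) : CompleteSpace (LqAlg G q) :=
  Completion.completeSpace (Pool.Agent.X270.NT.C.LqRing G q)

/-- The canonical homomorphism `C*_max(G) → C*_{ℓ^q}(G)`. -/
noncomputable def maxToLq (G : Type) [Group G] (q : ℝ) : CMax G →+* LqAlg G q :=
  Completion.extensionHom (gaToLq G q) (continuous_gaToLq q)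

/-- The group `K_0(C*_max(G))`. -/
def KMax (G : Type) [Group G] : Type := K0 (CMax G)

/-- The addition of the Grothendieck group `K0 R`. -/
noncomputable abbrev addK0 (R : Type) [Ring R] : AddCommGroup (K0 R) := inferInstance

noncomputable instance instKMax (G : Type) [Group G] : AddCommGroup (KMax G) := addK0 (CMax G)

/-- The group `K_0(C*_{ℓ^q}(G))`. -/
def KLq (G : Type) [Group G] (q : ℝ) : Type := K0 (LqAlg G q)

noncomputable instance instKLq (G : Type) [Group G] (q : ℝ) : AddCommGroup (KLq G q) :=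
  addK0 (LqAlg G q)

/-- The canonical homomorphism `K_0(C*_max(G)) → K_0(C*_{ℓ^q}(G))`. -/
noncomputable def kMaxToLq (G : Type) [Group G] (q : ℝ) : KMax G →+ KLq G q :=
  K0.map (nu (maxToLq G q))

/-- `x` lies in the kernel of `K_0(C*_max(G)) → K_0(C*_{ℓ^q}(G))`. -/
def InKernel (q : ℝ) (x : KMax G) : Prop := kMaxToLq G q x = 0

/-- The composition `A → K_0(C*_max(G)) → K_0(C*_{ℓ^q}(G))` is injective. -/
def LqInjective {A : Type} [AddCommGroup A] (α : A →+ KMax G) (q : ℝ) : Prop :=
  Function.Injective fun a : A => kMaxToLq G q (α a)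

end Pool.Agent.X270.NT.K2
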