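import Pool.Agent.X270.NT.StmtK2
import Pool.Agent.Y483.CS.CMax
import Pool.Agent.Y483.CS.Iso

/-!
The real group `C*`-algebras `C*_max(G; ℝ)` and `C*_{ℓ^q}(G; ℝ)` of a group `G`: the completions of
the real group ring `ℝ[G]` for the norms of `C*_max(G)` and `C*_{ℓ^q}(G)`; their groups `KO_0`, and
the canonical homomorphisms.
-/

set_option autoImplicit false

namespace Pool.Agent.X270.NT.RG

open UniformSpace
open Pool.Agent.Y483.CS (GA K0 nu)
open Pool.Agent.X270.NT.C (lqNorm lqNorm_zero lqNorm_add_le lqNorm_neg lqNorm_mul_le)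

variable {G : Type} [Group G]

/-- The inclusion `ℝ[G] → ℂ[G]`. -/
noncomputable def cx (G : Type) [Group G] : MonoidAlgebra ℝ G →+* MonoidAlgebra ℂ G :=
  MonoidAlgebra.mapRingHom G Complex.ofRealHom

/-- The norm of `x ∈ ℝ[G]` in the maximal group `C*`-algebra `C*_max(G)`. -/
noncomputable def maxNorm (x : MonoidAlgebra ℝ G) : ℝ := GA.mx (G := G) (cx G x)

/-- The norm of `x ∈ ℝ[G]` in the group `C*`-algebra `C*_{ℓ^q}(G)`. -/
noncomputable def rLqNorm (q : ℝ) (x : MonoidAlgebra ℝ G) : ℝ := lqNorm q (cx G x)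

lemma maxNorm_zero : maxNorm (0 : MonoidAlgebra ℝ G) = 0 := by
  unfold maxNorm
  rw [map_zero]
  exact GA.mx_zero

lemma maxNorm_add_le (x y : MonoidAlgebra ℝ G) : maxNorm (x + y) ≤ maxNorm x + maxNorm y := by
  unfold maxNorm
  rw [map_add]
  exact GA.mx_add _ _

lemma maxNorm_neg (x : MonoidAlgebra ℝ G) : maxNorm (-x) = maxNorm x := by
  unfold maxNorm
  rw [map_neg]
  exact GA.mx_neg _

lemma maxNorm_mul_le (x y : MonoidAlgebra ℝ G) : maxNorm (x * y) ≤ maxNorm x * maxNorm y := by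
  unfold maxNorm
  rw [map_mul]
  exact GA.mx_mul _ _

lemma rLqNorm_zero (q : ℝ) : rLqNorm q (0 : MonoidAlgebra ℝ G) = 0 := by
  unfold rLqNorm
  rw [map_zero]
  exact lqNorm_zero q

lemma rLqNorm_add_le (q : ℝ) (x y : MonoidAlgebra ℝ G) :
    rLqNorm q (x + y) ≤ rLqNorm q x + rLqNorm q y := by
  unfold rLqNorm
  rw [map_add]
  exact lqNorm_add_le q _ _

lemma rLqNorm_neg (q : ℝ) (x : MonoidAlgebra ℝ G) : rLqNorm q (-x) = rLqNorm q x := by
  unfold rLqNorm
  rw [map_neg]
  exact lqNorm_neg q _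

lemma rLqNorm_mul_le (q : ℝ) (x y : MonoidAlgebra ℝ G) :
    rLqNorm q (x * y) ≤ rLqNorm q x * rLqNorm q y := by
  unfold rLqNorm
  rw [map_mul]
  exact lqNorm_mul_le q _ _

/-- The real group ring `ℝ[G]`, with the norm of `C*_max(G)`. -/
def RMaxRing (G : Type) [Group G] : Type := MonoidAlgebra ℝ G

/-- The ring structure of `ℝ[G]`. -/
noncomputable instance instRingRMaxRing : Ring (RMaxRing G) := MonoidAlgebra.ring

/-- The norm of `C*_max(G)` as a seminorm on `ℝ[G]`. -/
noncomputable def maxSeminorm (G : Type) [Group G] : RingSeminorm (RMaxRing G) where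
  toFun := maxNorm
  map_zero' := maxNorm_zero
  add_le' := maxNorm_add_le
  neg' := maxNorm_neg
  mul_le' := maxNorm_mul_le

/-- The real group ring `ℝ[G]` with the norm of `C*_max(G)`, as a seminormed ring. -/
noncomputable instance instSeminormedRingRMaxRing : SeminormedRing (RMaxRing G) :=
  (maxSeminorm G).toSeminormedRing

/-- The real maximal group `C*`-algebra `C*_max(G; ℝ)`: the completion of `ℝ[G]`. -/
def RMax (G : Type) [Group G] : Type := Completion (RMaxRing G)

/-- The ring structure of `C*_max(G; ℝ)`. -/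
noncomputable instance instNormedRingRMax : NormedRing (RMax G) :=
  Completion.instNormedRing (RMaxRing G)

/-- The real group ring `ℝ[G]`, with the norm of `C*_{ℓ^q}(G)`. -/
def RLqRing (G : Type) [Group G] (_ : ℝ) : Type := MonoidAlgebra ℝ G

/-- The ring structure of `ℝ[G]`. -/
noncomputable instance instRingRLqRing (q : ℝ) : Ring (RLqRing G q) := MonoidAlgebra.ring

/-- The norm of `C*_{ℓ^q}(G)` as a seminorm on `ℝ[G]`. -/
noncomputable def rLqSeminorm (G : Type) [Group G] (q : ℝ) : RingSeminorm (RLqRing G q) where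
  toFun := rLqNorm q
  map_zero' := rLqNorm_zero q
  add_le' := rLqNorm_add_le q
  neg' := rLqNorm_neg q
  mul_le' := rLqNorm_mul_le q

/-- The real group ring `ℝ[G]` with the norm of `C*_{ℓ^q}(G)`, as a seminormed ring. -/
noncomputable instance instSeminormedRingRLqRing (q : ℝ) : SeminormedRing (RLqRing G q) :=
  (rLqSeminorm G q).toSeminormedRing

/-- The real `C*`-algebra `C*_{ℓ^q}(G; ℝ)`: the completion of `ℝ[G]`. -/
def RLq (G : Type) [Group G] (q : ℝ) : Type := Completion (RLqRing G q)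

/-- The ring structure of `C*_{ℓ^q}(G; ℝ)`. -/
noncomputable instance instNormedRingRLq (q : ℝ) : NormedRing (RLq G q) :=
  Completion.instNormedRing (RLqRing G q)

instance instCompleteRLq (q : ℝ) : CompleteSpace (RLq G q) :=
  Completion.completeSpace (RLqRing G q)

/-- The canonical map `ℝ[G] → C*_{ℓ^q}(G; ℝ)`. -/
noncomputable def ofReal (G : Type) [Group G] (q : ℝ) : MonoidAlgebra ℝ G →+* RLq G q :=
  (Completion.coeRingHom : RLqRing G q →+* Completion (RLqRing G q))

/-- The map `ℝ[G] → C*_{ℓ^q}(G; ℝ)`, for the norm of `C*_max(G)` on `ℝ[G]`. -/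
noncomputable def maxRingToLq (G : Type) [Group G] (q : ℝ) : RMaxRing G →+* RLq G q := ofReal G q

lemma rLqNorm_le_maxNorm (q : ℝ) (x : MonoidAlgebra ℝ G) : rLqNorm q x ≤ maxNorm x :=
  K2.lqNorm_le_mx q (cx G x)

lemma norm_maxRingToLq (q : ℝ) (x : RMaxRing G) : ‖maxRingToLq G q x‖ = rLqNorm q x :=
  Completion.norm_coe (E := RLqRing G q) x

lemma continuous_maxRingToLq (q : ℝ) : Continuous (maxRingToLq G q) := by
  refine AddMonoidHomClass.continuous_of_bound (maxRingToLq G q) 1 fun x => ?_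
  rw [one_mul, norm_maxRingToLq]
  exact rLqNorm_le_maxNorm q x

/-- The canonical homomorphism `C*_max(G; ℝ) → C*_{ℓ^q}(G; ℝ)`. -/
noncomputable def rMaxToLq (G : Type) [Group G] (q : ℝ) : RMax G →+* RLq G q :=
  Completion.extensionHom (maxRingToLq G q) (continuous_maxRingToLq q)

/-- The group `KO_0(C*_max(G; ℝ))`. -/
def KOMax (G : Type) [Group G] : Type := K0 (RMax G)

/-- The group structure. -/
noncomputable instance instKOMax (G : Type) [Group G] : AddCommGroup (KOMax G) :=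
  K2.addK0 (RMax G)

/-- The group `KO_0(C*_{ℓ^q}(G; ℝ))`. -/
def KOLq (G : Type) [Group G] (q : ℝ) : Type := K0 (RLq G q)

/-- The group structure. -/
noncomputable instance instKOLq (G : Type) [Group G] (q : ℝ) : AddCommGroup (KOLq G q) :=
  K2.addK0 (RLq G q)

/-- The canonical homomorphism `KO_0(C*_max(G; ℝ)) → KO_0(C*_{ℓ^q}(G; ℝ))`. -/
noncomputable def koMaxToLq (G : Type) [Group G] (q : ℝ) : KOMax G →+ KOLq G q :=
  K0.map (nu (rMaxToLq G q))

/-- `x` lies in the kernel of `KO_0(C*_max(G; ℝ)) → KO_0(C*_{ℓ^q}(G; ℝ))`. -/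
def InKernel (q : ℝ) (x : KOMax G) : Prop := koMaxToLq G q x = 0

/-- The composition `A → KO_0(C*_max(G; ℝ)) → KO_0(C*_{ℓ^q}(G; ℝ))` is injective. -/
def LqInjective {A : Type} [AddCommGroup A] (α : A →+ KOMax G) (q : ℝ) : Prop :=
  Function.Injective fun a : A => koMaxToLq G q (α a)

end Pool.Agent.X270.NT.RG
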