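import Pool.Agent.X270.NT.StmtR

/-!
The canonical homomorphisms `C*_{ℓ^q}(G; ℝ) → C*_{ℓ^{q'}}(G; ℝ)`, `0 < q' ≤ q`.
-/

set_option autoImplicit false

namespace Pool.Agent.X270.NT.RG

open UniformSpace
open Pool.Agent.Y483.CS (K0 nu)
open Pool.Agent.X270.NT.St (BRep)
open Pool.Agent.X270.NT.U (Unitary LqCoefficients)
open Pool.Agent.X270.NT.C (lqNorm lqNorm_le lqNorm_nonneg norm_act_le_lq)

variable {G : Type} [Group G]

lemma lq_mono {H : Type} [NormedAddCommGroup H] [InnerProductSpace ℂ H] (π : BRep G H)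
    (hu : Unitary π) {q q' : ℝ} (hq' : 0 < q') (h : q' ≤ q) (hl : LqCoefficients q' π) :
    LqCoefficients q π := by
  refine hl.mono (Submodule.span_mono ?_)
  intro v hv
  have hv' : Summable fun g : G => ‖inner ℂ (π.op g v) v‖ ^ q' := hv
  change Summable fun g : G => ‖inner ℂ (π.op g v) v‖ ^ q
  refine Summable.of_nonneg_of_le (fun g => by positivity) (fun g => ?_)
    (hv'.mul_left ((‖v‖ ^ 2) ^ (q - q')))
  have h1 : ‖inner ℂ (π.op g v) v‖ ≤ ‖v‖ ^ 2 := by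
    refine (norm_inner_le_norm _ _).trans_eq ?_
    rw [hu g v, pow_two]
  have h2 : ‖inner ℂ (π.op g v) v‖ ^ q =
      ‖inner ℂ (π.op g v) v‖ ^ (q - q') * ‖inner ℂ (π.op g v) v‖ ^ q' := by
    rcases (norm_nonneg (inner ℂ (π.op g v) v)).eq_or_lt with h0 | h0
    · rw [← h0, Real.zero_rpow hq'.ne', mul_zero, Real.zero_rpow (by linarith)]
    · rw [← Real.rpow_add h0]
      congr 1
      ring
  rw [h2]
  exact mul_le_mul_of_nonneg_right (Real.rpow_le_rpow (norm_nonneg _) h1 (by linarith))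
    (by positivity)

lemma rLqNorm_mono {q q' : ℝ} (hq' : 0 < q') (h : q' ≤ q) (x : MonoidAlgebra ℝ G) :
    rLqNorm q' x ≤ rLqNorm q x := by
  refine lqNorm_le q' _ _ (lqNorm_nonneg q _) ?_
  intro H _ _ _ π hu hl v hv
  exact (norm_act_le_lq π hu q (lq_mono π hu hq' h hl) _ v).trans
    (mul_le_of_le_one_right (lqNorm_nonneg q _) hv)

/-- The map `ℝ[G] → C*_{ℓ^{q'}}(G; ℝ)`, for the norm of `C*_{ℓ^q}(G)` on `ℝ[G]`. -/
noncomputable def lqRingToLq (G : Type) [Group G] (q q' : ℝ) : RLqRing G q →+* RLq G q' :=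
  ofReal G q'

lemma norm_lqRingToLq (q q' : ℝ) (x : RLqRing G q) : ‖lqRingToLq G q q' x‖ = rLqNorm q' x :=
  Completion.norm_coe (E := RLqRing G q') x

lemma continuous_lqRingToLq (q q' : ℝ) (h0 : 0 < q') (h : q' ≤ q) :
    Continuous (lqRingToLq G q q') := by
  refine AddMonoidHomClass.continuous_of_bound (lqRingToLq G q q') 1 fun x => ?_
  rw [one_mul, norm_lqRingToLq]
  exact rLqNorm_mono h0 h x

/-- The canonical homomorphism `C*_{ℓ^q}(G; ℝ) → C*_{ℓ^{q'}}(G; ℝ)`, `0 < q' ≤ q`. -/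
noncomputable def rDown (G : Type) [Group G] (q q' : ℝ) (h0 : 0 < q') (h : q' ≤ q) :
    RLq G q →+* RLq G q' :=
  Completion.extensionHom (lqRingToLq G q q') (continuous_lqRingToLq q q' h0 h)

/-- The canonical homomorphism `KO_0(C*_{ℓ^q}(G; ℝ)) → KO_0(C*_{ℓ^{q'}}(G; ℝ))`, `0 < q' ≤ q`. -/
noncomputable def koDown (G : Type) [Group G] (q q' : ℝ) (h0 : 0 < q') (h : q' ≤ q) :
    KOLq G q →+ KOLq G q' :=
  K0.map (nu (rDown G q q' h0 h))

/-- The composition `A → KO_0(C*_max(G; ℝ)) → KO_0(C*_{ℓ^q}(G; ℝ))` is surjective. -/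
def LqSurjective {A : Type} [AddCommGroup A] (α : A →+ KOMax G) (q : ℝ) : Prop :=
  Function.Surjective fun a : A => koMaxToLq G q (α a)

/-- The image of `y ∈ KO_0(C*_{ℓ^q}(G; ℝ))` in `KO_0(C*_{ℓ^r}(G; ℝ))` comes from `A`, for some `r`
with `2 < r ≤ q`. -/
def ReachedNear {A : Type} [AddCommGroup A] (α : A →+ KOMax G) (q : ℝ) (y : KOLq G q) : Prop :=
  ∃ (r : ℝ) (h0 : 2 < r) (h : r ≤ q) (a : A),
    koMaxToLq G r (α a) = koDown G q r (lt_trans two_pos h0) h y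

/-- `x ∈ KO_0(C*_r(G; ℝ))` comes from `KO_0(C*_{ℓ^q}(G; ℝ))`. -/
def ComesFrom (x : KOLq G 2) (q : ℝ) : Prop :=
  ∃ (h : 2 ≤ q) (y : KOLq G q), koDown G q 2 two_pos h y = x

end Pool.Agent.X270.NT.RG
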