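import Pool.Agent.X270.NT.Stmt

/-!
Weighted `ℓ²`-cohomology and homology of a group `G`, with values in the functions on a `G`-set
`Z` which are square summable with respect to a weight, computed from a finite free resolution.
-/

set_option autoImplicit false

open scoped Pointwise

namespace Pool.Agent.X270.NT.W

open Pool.Agent.H919R4.ZS (FinRes)
open Pool.Agent.H496R3.ZS (IsAmenable)
open Pool.Agent.X270.NT.St (Thin)

variable {G : Type} [Group G] {Z : Type} [MulAction G Z]

/-- The left action of `a = ∑ a_g g ∈ ℤ[G]` on functions: `(a f)(z) = ∑ a_g f(g⁻¹ z)`. -/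
noncomputable def actF (a : MonoidAlgebra ℤ G) (f : Z → ℂ) (z : Z) : ℂ :=
  ∑ g ∈ a.coeff.support, a.coeff g • f (g⁻¹ • z)

/-- The right action of `a = ∑ a_g g ∈ ℤ[G]` on functions: `(f a)(z) = ∑ a_g f(g z)`. -/
noncomputable def actG (a : MonoidAlgebra ℤ G) (f : Z → ℂ) (z : Z) : ℂ :=
  ∑ g ∈ a.coeff.support, a.coeff g • f (g • z)

variable (X : FinRes G)

/-- The coboundary `(v_j) ↦ (∑_j d_kj · v_j)_k` on tuples of functions `Z → ℂ`, where the `d_kj`
are the entries of the differential of the resolution `X`. -/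
noncomputable def cobd (i : ℕ) (v : Fin (X.n i) → Z → ℂ) : Fin (X.n (i + 1)) → Z → ℂ :=
  fun k z => ∑ j, actF (X.d i k j) (v j) z

/-- The boundary `(v_j) ↦ (∑_j v_j · d_jk)_k` on tuples of functions `Z → ℂ`, where the `d_jk`
are the entries of the differential of the resolution `X`. -/
noncomputable def bd (i : ℕ) (v : Fin (X.n (i + 1)) → Z → ℂ) : Fin (X.n i) → Z → ℂ :=
  fun k z => ∑ j, actG (X.d i j k) (v j) z

/-- The functions `v j` are square summable with respect to the weight `μ`. -/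
def Sq (μ : Z → ℝ) {m : ℕ} (v : Fin m → Z → ℂ) : Prop :=
  ∀ j, Summable fun z => ‖v j z‖ ^ 2 * μ z

/-- `H^i(G; ℓ²(Z, μ)) ≠ 0`: there is a square summable cocycle of degree `i` which is not the
coboundary of a square summable cochain. -/
def CohNonzero (μ : Z → ℝ) : ℕ → Prop
  | 0 => ∃ v : Fin (X.n 0) → Z → ℂ, Sq μ v ∧ cobd X 0 v = 0 ∧ v ≠ 0
  | i + 1 => ∃ v : Fin (X.n (i + 1)) → Z → ℂ, Sq μ v ∧ cobd X (i + 1) v = 0 ∧
      ∀ w, Sq μ w → cobd X i w ≠ v

/-- `H_i(G; ℓ²(Z, μ)) ≠ 0`: there is a square summable cycle of degree `i` which is not the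
boundary of a square summable chain. -/
def HomNonzero (μ : Z → ℝ) : ℕ → Prop
  | 0 => ∃ v : Fin (X.n 0) → Z → ℂ, Sq μ v ∧ ∀ w, Sq μ w → bd X 0 w ≠ v
  | i + 1 => ∃ v : Fin (X.n (i + 1)) → Z → ℂ, Sq μ v ∧ bd X i v = 0 ∧
      ∀ w, Sq μ w → bd X (i + 1) w ≠ v

/-- `μ` is a positive weight on `Z` which changes under `s ∈ S` at most by the factor `e^ε`, and
under every `g ∈ G` at most by a factor depending on `g`. -/
structure SlowWeight (S : Set G) (ε : ℝ) (μ : Z → ℝ) : Prop where
  /-- positivity -/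
  pos : ∀ z, 0 < μ z
  /-- slow variation under `S` -/
  slow : ∀ s ∈ S, ∀ z, μ (s • z) ≤ Real.exp ε * μ z
  /-- quasi-invariance under `G` -/
  quasi : ∀ g : G, ∃ C : ℝ, ∀ z, μ (g • z) ≤ C * μ z

/-- There are a `G`-set `Z` with stabilisers which are amenable or of exponent at most `ε` with
respect to `S`, and a weight `μ` on `Z` which varies under `S` at most by the factor `e^ε`, with
`H^i(G; ℓ²(Z, μ)) ≠ 0` or `H_i(G; ℓ²(Z, μ)) ≠ 0` for some `i ≤ p`. -/
def SeenByWeight (p : ℕ) (S : Set G) (ε : ℝ) : Prop :=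
  ∃ (Z : Type) (_ : MulAction G Z) (μ : Z → ℝ), SlowWeight S ε μ ∧
    ((∀ z : Z, IsAmenable (MulAction.stabilizer G z)) ∨ Thin S ε Z) ∧
    ∃ i ≤ p, CohNonzero X μ i ∨ HomNonzero X μ i

/-- The subset `A` of `Z` separates `Z` into two parts of infinite `μ`-mass, and its boundary has
finite `μ`-mass: the symmetric differences of `A` with its translates have finite mass. -/
structure Separates (G : Type) [Group G] {Z : Type} [MulAction G Z] (μ : Z → ℝ) (A : Set Z) :
    Prop where
  /-- the mass of `{z | z ∈ A, g⁻¹ z ∉ A} ∪ {z | z ∉ A, g⁻¹ z ∈ A}` is finite -/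
  boundary : ∀ g : G, Summable ({z : Z | ¬ (g⁻¹ • z ∈ A ↔ z ∈ A)}.indicator μ)
  /-- the mass of `A` is infinite -/
  inside : ¬ Summable (A.indicator μ)
  /-- the mass of the complement of `A` is infinite -/
  outside : ¬ Summable (Aᶜ.indicator μ)

/-- There are a transitive `G`-set `Z` with stabilisers which are amenable or of exponent at most
`ε` with respect to `S`, a weight `μ` on `Z` which varies under `S` at most by the factor `e^ε`,
and a subset of `Z` which separates `Z` with respect to `μ`. -/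
def Separated (G : Type) [Group G] (S : Set G) (ε : ℝ) : Prop :=
  ∃ (Z : Type) (_ : MulAction G Z) (μ : Z → ℝ), MulAction.IsPretransitive G Z ∧
    SlowWeight S ε μ ∧ ((∀ z : Z, IsAmenable (MulAction.stabilizer G z)) ∨ Thin S ε Z) ∧
    ∃ A : Set Z, Separates G μ A

end Pool.Agent.X270.NT.W
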