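import Pool.Agent.X270.NT.Core

set_option autoImplicit false
set_option linter.unusedSectionVars false

open scoped Matrix ENNReal Pointwise InnerProductSpace
open Filter Topology

namespace Pool.Agent.X270.NT

open Pool.Agent.H496R3.ZS (Ell dl dl_apply inner_dl_left orthonormal_dl permRep permIso IsAmenable
  integ integ_apply)
open Pool.Agent.H919R4.AS (Mult)

noncomputable section

variable {G : Type} [Group G] {Z : Type} [MulAction G Z]

lemma le_of_pow_le {a b C : ℝ} (hb : 0 ≤ b)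
    (h : ∀ j : ℕ, a ^ (2 ^ j) ≤ C * b ^ (2 ^ j)) : a ≤ b := by
  by_contra hlt
  push Not at hlt
  rcases hb.eq_or_lt with hb0 | hb0
  · have h0 := h 0
    rw [← hb0] at h0 hlt
    simp at h0
    linarith
  · have h1 : 1 < a / b := (one_lt_div hb0).2 hlt
    have h2 : ∀ j : ℕ, (a / b) ^ (2 ^ j) ≤ C := by
      intro j
      rw [div_pow, div_le_iff₀ (by positivity)]
      exact h j
    have h3 : Tendsto (fun j : ℕ => (a / b) ^ (2 ^ j)) atTop atTop :=
      (tendsto_pow_atTop_atTop_of_one_lt h1).comp (tendsto_pow_atTop_atTop_of_one_lt (by norm_num))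
    obtain ⟨j, hj⟩ := (h3.eventually_gt_atTop C).exists
    exact absurd (h2 j) (not_le.2 hj)

/-- the twisted representation as isometries -/
def repIso (m : Mult G Z) (g : G) : Ell Z →ₗᵢ[ℂ] Ell Z :=
  (Mult.mulIso (m.φ g) (m.norm_one g)).comp (permIso (MulAction.toPerm (g⁻¹ : G) : Z ≃ Z))

lemma rep_eq_repIso (m : Mult G Z) (g : G) (f : Ell Z) : m.rep g f = repIso m g f := rfl

lemma mrep_adjoint (m : Mult G Z) (g : G) :
    ContinuousLinearMap.adjoint (m.rep g) = m.rep g⁻¹ := by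
  symm
  rw [ContinuousLinearMap.eq_adjoint_iff]
  intro x y
  have h2 : @inner ℂ _ _ (m.rep g (m.rep g⁻¹ x)) (m.rep g y) = @inner ℂ _ _ (m.rep g⁻¹ x) y := by
    rw [rep_eq_repIso, rep_eq_repIso m g y]
    exact LinearIsometry.inner_map_map (repIso m g) _ _
  rw [← h2, ← mul_apply_eq_comp, ← map_mul, mul_inv_cancel, map_one]
  rfl

lemma minteg_adjoint (m : Mult G Z) (x : MonoidAlgebra ℂ G) :
    ContinuousLinearMap.adjoint (m.integ x) = m.integ (st x) := by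
  refine MonoidAlgebra.induction_linear x ?_ ?_ ?_
  · rw [st_zero, map_zero, map_zero]
  · intro x y hx hy
    rw [st_add, map_add, map_add, map_add, hx, hy]
  · intro g c
    rw [st_single, Mult.integ, MonoidAlgebra.lift_single, MonoidAlgebra.lift_single, map_smulₛₗ,
      mrep_adjoint]

lemma norm_dl (z : Z) : ‖(dl z : Ell Z)‖ = 1 := orthonormal_dl.norm_eq_one z

/-- the `ℓ²` norm of the coefficients is at most the reduced norm -/
lemma sum_sq_coeff_le (y : MonoidAlgebra ℂ G) :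
    ∑ g ∈ y.coeff.support, ‖y.coeff g‖ ^ 2 ≤ ‖integ G G y‖ ^ 2 := by
  classical
  have h1 : ∀ g, (integ G G y (dl 1) : Ell G) g = y.coeff g := by
    intro g
    rw [integ_apply, lp.coeFn_sum, Finset.sum_apply]
    have h2 : ∀ k ∈ y.coeff.support, (y.coeff k • permRep G G k (dl 1) : Ell G) g =
        if g = k then y.coeff k else 0 := by
      intro k _
      rw [Pool.Agent.H496R3.ZS.permRep_dl, lp.coeFn_smul, Pi.smul_apply, dl_apply, smul_eq_mul,
        smul_eq_mul, mul_one]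
      split_ifs <;> simp
    rw [Finset.sum_congr rfl h2, Finset.sum_ite_eq]
    split_ifs with h3
    · rfl
    · exact (Finsupp.notMem_support_iff.1 h3).symm
  have h2 : 0 < (2 : ℝ≥0∞).toReal := by norm_num
  have h3 := lp.sum_rpow_le_norm_rpow h2 (integ G G y (dl 1)) y.coeff.support
  have h4 : (2 : ℝ≥0∞).toReal = ((2 : ℕ) : ℝ) := by norm_num
  simp only [h4, Real.rpow_natCast, h1] at h3
  refine h3.trans ?_
  refine pow_le_pow_left₀ (norm_nonneg _) ?_ 2
  refine (ContinuousLinearMap.le_opNorm _ _).trans ?_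
  rw [norm_dl, mul_one]

/-- matrix coefficients of the twisted representation -/
lemma coeff_bound (m : Mult G Z) (y : MonoidAlgebra ℂ G) (z w : Z) (T : Set G) (hT : T.Finite)
    (hy : (y.coeff.support : Set G) ⊆ T) :
    ‖(m.integ y (dl z) : Ell Z) w‖ ≤
      Real.sqrt (Set.ncard {g : G | g ∈ T ∧ g • z = w}) * ‖integ G G y‖ := by
  classical
  have h1 : (m.integ y (dl z) : Ell Z) w =
      ∑ g ∈ y.coeff.support.filter (fun g => g • z = w), y.coeff g * m.φ g w := by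
    rw [Mult.integ_apply, lp.coeFn_sum, Finset.sum_apply, Finset.sum_filter]
    refine Finset.sum_congr rfl fun g _ => ?_
    rw [lp.coeFn_smul, Pi.smul_apply, Mult.rep_apply, dl_apply, smul_eq_mul]
    by_cases h : g • z = w
    · rw [if_pos h, if_pos (by rw [← h, inv_smul_smul]), mul_one]
    · rw [if_neg h, if_neg (fun e => h (by rw [← e, smul_inv_smul])), mul_zero, mul_zero]
  rw [h1]
  set s := y.coeff.support.filter (fun g => g • z = w) with hs
  have h2 : ‖∑ g ∈ s, y.coeff g * m.φ g w‖ ≤ ∑ g ∈ s, ‖y.coeff g‖ := by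
    refine (norm_sum_le _ _).trans (Finset.sum_le_sum fun g _ => ?_)
    rw [norm_mul, m.norm_one, mul_one]
  refine h2.trans ?_
  have h3 : (∑ g ∈ s, ‖y.coeff g‖) ^ 2 ≤ (s.card : ℝ) * ∑ g ∈ s, ‖y.coeff g‖ ^ 2 :=
    sq_sum_le_card_mul_sum_sq
  have h4 : ∑ g ∈ s, ‖y.coeff g‖ ^ 2 ≤ ‖integ G G y‖ ^ 2 :=
    (Finset.sum_le_sum_of_subset_of_nonneg (Finset.filter_subset _ _)
      (fun _ _ _ => by positivity)).trans (sum_sq_coeff_le y)
  have h5 : (s.card : ℝ) ≤ (Set.ncard {g : G | g ∈ T ∧ g • z = w} : ℝ) := by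
    have h6 : (s : Set G) ⊆ {g : G | g ∈ T ∧ g • z = w} := by
      intro g hg
      rw [hs, Finset.coe_filter] at hg
      exact ⟨hy hg.1, hg.2⟩
    have h7 := Set.ncard_le_ncard h6 (hT.subset fun g hg => hg.1)
    rw [Set.ncard_coe_finset] at h7
    exact_mod_cast h7
  have h8 : (∑ g ∈ s, ‖y.coeff g‖) ^ 2 ≤
      (Real.sqrt (Set.ncard {g : G | g ∈ T ∧ g • z = w}) * ‖integ G G y‖) ^ 2 := by
    rw [mul_pow, Real.sq_sqrt (Nat.cast_nonneg _)]
    refine h3.trans (mul_le_mul h5 h4 (Finset.sum_nonneg fun _ _ => by positivity)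
      (Nat.cast_nonneg _))
  exact (sq_le_sq₀ (Finset.sum_nonneg fun _ _ => norm_nonneg _) (by positivity)).1 h8

/-- a bound on finitely supported vectors gives a bound of the norm -/
lemma opNorm_le_of_finite (B : Ell Z →L[ℂ] Ell Z) (c : ℝ) (hc : 0 ≤ c)
    (h : ∀ (E : Finset Z) (a : Z → ℂ), ‖B (∑ z ∈ E, a z • (dl z : Ell Z))‖ ≤
      c * ‖∑ z ∈ E, a z • (dl z : Ell Z)‖) : ‖B‖ ≤ c := by
  refine ContinuousLinearMap.opNorm_le_bound _ hc fun v => ?_
  have h1 : HasSum (fun z : Z => v z • (dl z : Ell Z)) v := by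
    classical
    have h := lp.hasSum_single (p := 2) (by norm_num) v
    have h5 : (fun z : Z => v z • (dl z : Ell Z)) = fun z => lp.single 2 z (v z) := by
      funext z
      ext w
      rw [lp.coeFn_smul, Pi.smul_apply, dl_apply, smul_eq_mul]
      by_cases h : w = z
      · subst h; simp
      · rw [if_neg h, lp.single_apply_ne _ _ _ h, mul_zero]
    rw [h5]
    exact h
  have h2 : Tendsto (fun E : Finset Z => ∑ z ∈ E, v z • (dl z : Ell Z)) atTop (𝓝 v) := h1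
  have h3 : Tendsto (fun E : Finset Z => ‖B (∑ z ∈ E, v z • (dl z : Ell Z))‖) atTop
      (𝓝 ‖B v‖) := ((B.continuous.tendsto v).comp h2).norm
  have h4 : Tendsto (fun E : Finset Z => c * ‖∑ z ∈ E, v z • (dl z : Ell Z)‖) atTop
      (𝓝 (c * ‖v‖)) := h2.norm.const_mul _
  exact le_of_tendsto_of_tendsto' h3 h4 (fun E => h E (fun z => v z))

lemma finite_pow {S : Set G} (hS : S.Finite) (k : ℕ) : (S ^ k).Finite := by
  induction k with
  | zero => rw [pow_zero]; exact Set.finite_one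
  | succ k ih => rw [pow_succ]; exact ih.mul hS

/-- **the norm bound** for permutation representations with stabilisers of small exponent -/
lemma norm_minteg_le (m : Mult G Z) {S : Set G} (hSf : S.Finite) (hS : S⁻¹ = S) {ε : ℝ}
    (hthin : Thin S ε Z) (n : ℕ) (x : MonoidAlgebra ℂ G)
    (hx : (x.coeff.support : Set G) ⊆ S ^ n) :
    ‖m.integ x‖ ≤ Real.exp (ε * n / 2) * ‖integ G G x‖ := by
  have hSpow : ∀ k : ℕ, (S ^ k)⁻¹ = S ^ k := fun k => by rw [← inv_pow, hS]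
  set A := m.integ x with hA
  set r := ‖integ G G x‖ with hr
  have hr0 : 0 ≤ r := norm_nonneg _
  set y := st x * x with hy
  have hysupp : (y.coeff.support : Set G) ⊆ S ^ (2 * n) := by
    refine (support_mul' _ _).trans ?_
    rw [two_mul, pow_add]
    refine Set.mul_subset_mul ?_ hx
    intro g hg
    have h1 : g ∈ ((inv x).coeff.support : Set G) := by
      rw [Finset.mem_coe, Finsupp.mem_support_iff] at hg ⊢
      intro h0
      apply hg
      rw [st, cj, MonoidAlgebra.coeff_mapRingHom, h0, map_zero]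
    have h2 := support_inv x h1
    have h3 : g ∈ (S ^ n)⁻¹ := by
      rw [Set.mem_inv] at h2 ⊢
      exact hx h2
    rwa [hSpow] at h3
  have hyk : ∀ k : ℕ, ((y ^ (k + 1)).coeff.support : Set G) ⊆ (S ^ (2 * n)) ^ (k + 1) := by
    intro k
    induction k with
    | zero => simpa using hysupp
    | succ k ih =>
      rw [pow_succ y, pow_succ (S ^ (2 * n))]
      exact (support_mul' _ _).trans (Set.mul_subset_mul ih hysupp)
  have hyn : ‖integ G G y‖ ≤ r ^ 2 := by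
    rw [hy, map_mul, ← integ_adjoint, pow_two]
    refine (norm_mul_le _ _).trans ?_
    rw [LinearIsometryEquiv.norm_map]
  have hT : ∀ v w : Ell Z, ⟪A v, A w⟫_ℂ = ⟪v, m.integ y w⟫_ℂ := by
    intro v w
    rw [hy, map_mul, ← minteg_adjoint, mul_apply_eq_comp,
      ContinuousLinearMap.adjoint_inner_right]
  have hTs : ∀ v w : Ell Z, ⟪m.integ y v, w⟫_ℂ = ⟪v, m.integ y w⟫_ℂ := by
    intro v w
    rw [← hT, ← inner_conj_symm, ← hT, inner_conj_symm]
  have hTk : ∀ (k : ℕ) (v w : Ell Z), ⟪m.integ (y ^ k) v, w⟫_ℂ = ⟪v, m.integ (y ^ k) w⟫_ℂ := by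
    intro k
    induction k with
    | zero => intro v w; rw [pow_zero, map_one]; rfl
    | succ k ih =>
      intro v w
      rw [pow_succ, map_mul, mul_apply_eq_comp, mul_apply_eq_comp, ih, hTs, ← mul_apply_eq_comp,
        ← mul_apply_eq_comp, ← map_mul, ← map_mul, (Commute.refl y).pow_left k |>.eq]
  refine opNorm_le_of_finite A _ (by positivity) fun E a => ?_
  set ξ : Ell Z := ∑ z ∈ E, a z • (dl z : Ell Z) with hξ
  -- the constant
  choose K hK using hthin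
  set D : ℝ := ∑ w ∈ E, ∑ z ∈ E, ‖a w‖ * ‖a z‖ * Real.sqrt |K z w| with hD
  have hD0 : 0 ≤ D := Finset.sum_nonneg fun _ _ => Finset.sum_nonneg fun _ _ => by positivity
  set q : ℝ := Real.exp (ε * n / 2) * r with hq
  have hq0 : 0 ≤ q := by positivity
  have hin : ∀ k : ℕ, ‖⟪ξ, m.integ (y ^ (k + 1)) ξ⟫_ℂ‖ ≤ D * (q ^ 2) ^ (k + 1) := by
    intro k
    have e1 : ⟪ξ, m.integ (y ^ (k + 1)) ξ⟫_ℂ = ∑ w ∈ E, ∑ z ∈ E,
        (starRingEnd ℂ (a w)) * (a z * (m.integ (y ^ (k + 1)) (dl z) : Ell Z) w) := by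
      conv_lhs => rw [hξ, sum_inner]
      refine Finset.sum_congr rfl fun w _ => ?_
      rw [inner_smul_left, inner_dl_left, map_sum, lp.coeFn_sum, Finset.sum_apply, Finset.mul_sum]
      refine Finset.sum_congr rfl fun z _ => ?_
      rw [map_smul, lp.coeFn_smul, Pi.smul_apply, smul_eq_mul]
    rw [e1]
    refine (norm_sum_le _ _).trans ?_
    rw [hD, Finset.sum_mul]
    refine Finset.sum_le_sum fun w _ => ?_
    refine (norm_sum_le _ _).trans ?_
    rw [Finset.sum_mul]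
    refine Finset.sum_le_sum fun z _ => ?_
    rw [norm_mul, norm_mul, RCLike.norm_conj, ← mul_assoc, mul_assoc (‖a w‖ * ‖a z‖)]
    refine mul_le_mul_of_nonneg_left ?_ (by positivity)
    refine (coeff_bound m (y ^ (k + 1)) z w ((S ^ (2 * n)) ^ (k + 1)) ?_ (hyk k)).trans ?_
    · rw [← pow_mul S]
      exact finite_pow hSf _
    have e2 : ‖integ G G (y ^ (k + 1))‖ ≤ (r ^ 2) ^ (k + 1) := by
      rw [map_pow]
      refine (norm_pow_le' _ (Nat.succ_pos k)).trans ?_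
      exact pow_le_pow_left₀ (norm_nonneg _) hyn _
    have e3 : Real.sqrt (Set.ncard {g : G | g ∈ (S ^ (2 * n)) ^ (k + 1) ∧ g • z = w}) ≤
        Real.sqrt |K z w| * (Real.exp (ε * n / 2) ^ 2) ^ (k + 1) := by
      rw [← pow_mul S]
      refine (Real.sqrt_le_sqrt ((hK z w (2 * n * (k + 1))).trans
        (mul_le_mul_of_nonneg_right (le_abs_self _) (Real.exp_pos _).le))).trans ?_
      rw [Real.sqrt_mul (abs_nonneg _)]
      refine mul_le_mul_of_nonneg_left ?_ (Real.sqrt_nonneg _)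
      have e4 : Real.exp (ε * ((2 * n * (k + 1) : ℕ) : ℝ)) =
          ((Real.exp (ε * n / 2) ^ 2) ^ (k + 1)) ^ 2 := by
        rw [← Real.exp_nat_mul, ← Real.exp_nat_mul, ← Real.exp_nat_mul]
        congr 1
        push_cast
        ring
      rw [e4, Real.sqrt_sq (by positivity)]
    refine (mul_le_mul e3 e2 (norm_nonneg _) (by positivity)).trans_eq ?_
    rw [hq, mul_pow (Real.exp (ε * n / 2)) r 2, mul_pow, mul_assoc]
  -- the iteration
  rcases (norm_nonneg ξ).eq_or_lt with hN | hN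
  · have h0 : ξ = 0 := norm_eq_zero.1 hN.symm
    rw [h0, map_zero, norm_zero, mul_zero]
  set N := ‖ξ‖ with hNdef
  set a := ‖A ξ‖ with ha
  have ha0 : 0 ≤ a := norm_nonneg _
  have hsq : ∀ j : ℕ, ‖m.integ (y ^ (2 ^ j)) ξ‖ ^ 2 = ‖⟪ξ, m.integ (y ^ (2 ^ (j + 1))) ξ⟫_ℂ‖ := by
    intro j
    have e1 : ⟪m.integ (y ^ (2 ^ j)) ξ, m.integ (y ^ (2 ^ j)) ξ⟫_ℂ =
        ⟪ξ, m.integ (y ^ (2 ^ (j + 1))) ξ⟫_ℂ := by
      rw [hTk, ← mul_apply_eq_comp, ← map_mul, ← pow_add]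
      congr 3
      rw [pow_succ, mul_two]
    rw [← e1, inner_self_eq_norm_sq_to_K]
    simp
  have h0 : a ^ 2 ≤ N * ‖m.integ (y ^ (2 ^ 0)) ξ‖ := by
    have e1 : ⟪A ξ, A ξ⟫_ℂ = ⟪ξ, m.integ (y ^ (2 ^ 0)) ξ⟫_ℂ := by
      rw [hT, pow_zero, pow_one]
    have e2 : a ^ 2 = ‖⟪A ξ, A ξ⟫_ℂ‖ := by
      rw [inner_self_eq_norm_sq_to_K]
      simp [ha]
    rw [e2, e1]
    exact norm_inner_le_norm _ _
  have hstep : ∀ j : ℕ, N * a ^ (2 ^ (j + 1)) ≤ N ^ (2 ^ (j + 1)) * ‖m.integ (y ^ (2 ^ j)) ξ‖ := by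
    intro j
    induction j with
    | zero =>
      rw [zero_add, pow_one]
      calc N * a ^ 2 ≤ N * (N * ‖m.integ (y ^ (2 ^ 0)) ξ‖) := by gcongr
        _ = N ^ 2 * ‖m.integ (y ^ (2 ^ 0)) ξ‖ := by ring
    | succ j ih =>
      have e1 : ‖m.integ (y ^ (2 ^ j)) ξ‖ ^ 2 ≤ N * ‖m.integ (y ^ (2 ^ (j + 1))) ξ‖ := by
        rw [hsq]
        exact norm_inner_le_norm _ _
      have e2 : (N * a ^ (2 ^ (j + 1))) ^ 2 ≤
          (N ^ (2 ^ (j + 1)) * ‖m.integ (y ^ (2 ^ j)) ξ‖) ^ 2 :=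
        pow_le_pow_left₀ (by positivity) ih 2
      have e3 : (N ^ (2 ^ (j + 1)) * ‖m.integ (y ^ (2 ^ j)) ξ‖) ^ 2 ≤
          N * (N ^ (2 ^ (j + 1 + 1)) * ‖m.integ (y ^ (2 ^ (j + 1))) ξ‖) := by
        calc (N ^ (2 ^ (j + 1)) * ‖m.integ (y ^ (2 ^ j)) ξ‖) ^ 2 =
            N ^ (2 ^ (j + 1 + 1)) * ‖m.integ (y ^ (2 ^ j)) ξ‖ ^ 2 := by
              rw [mul_pow, ← pow_mul, ← pow_succ]
          _ ≤ N ^ (2 ^ (j + 1 + 1)) * (N * ‖m.integ (y ^ (2 ^ (j + 1))) ξ‖) := by gcongr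
          _ = _ := by ring
      have e4 : (N * a ^ (2 ^ (j + 1))) ^ 2 = N * (N * a ^ (2 ^ (j + 1 + 1))) := by
        rw [mul_pow, ← pow_mul, ← pow_succ]; ring
      rw [e4] at e2
      exact le_of_mul_le_mul_left (e2.trans e3) hN
  have hfin : ∀ j : ℕ, (a ^ 4) ^ (2 ^ j) ≤ (D / N ^ 2) * ((q * N) ^ 4) ^ (2 ^ j) := by
    intro j
    have e0 : 4 * 2 ^ j = 2 ^ (j + 1) * 2 := by rw [pow_succ]; ring
    have e1 := pow_le_pow_left₀ (by positivity) (hstep j) 2
    have e2 : ‖m.integ (y ^ (2 ^ j)) ξ‖ ^ 2 ≤ D * (q ^ 2) ^ (2 ^ (j + 1)) := by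
      rw [hsq]
      obtain ⟨k, hk⟩ : ∃ k, 2 ^ (j + 1) = k + 1 := ⟨2 ^ (j + 1) - 1, by
        have : 0 < 2 ^ (j + 1) := by positivity
        omega⟩
      rw [hk]
      exact hin k
    rw [div_mul_eq_mul_div, le_div_iff₀ (by positivity), ← pow_mul, ← pow_mul, e0]
    calc a ^ (2 ^ (j + 1) * 2) * N ^ 2 = (N * a ^ (2 ^ (j + 1))) ^ 2 := by
          rw [mul_pow, ← pow_mul]; ring
      _ ≤ (N ^ (2 ^ (j + 1)) * ‖m.integ (y ^ (2 ^ j)) ξ‖) ^ 2 := e1
      _ = N ^ (2 ^ (j + 1) * 2) * ‖m.integ (y ^ (2 ^ j)) ξ‖ ^ 2 := by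
          rw [mul_pow, ← pow_mul]
      _ ≤ N ^ (2 ^ (j + 1) * 2) * (D * (q ^ 2) ^ (2 ^ (j + 1))) := by gcongr
      _ = D * (q * N) ^ (2 ^ (j + 1) * 2) := by
          rw [mul_pow q N, ← pow_mul q 2, mul_comm 2 (2 ^ (j + 1))]; ring
  have h4 := le_of_pow_le (by positivity) hfin
  exact (pow_le_pow_iff_left₀ ha0 (by positivity) (by norm_num)).1 h4

end

end Pool.Agent.X270.NT
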