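import Pool.Agent.X270.NT.Sep

set_option autoImplicit false
set_option linter.unusedSectionVars false

open scoped Matrix ENNReal Pointwise InnerProductSpace
open Filter Topology

namespace Pool.Agent.X270.NT.T

open Pool.Agent.H496R3.ZS (Ell dl dl_apply IsAmenable integ permRep_apply)
open Pool.Agent.H919R4.ZS (FinRes toRed)
open Pool.Agent.H919R4.AS (Mult)
open Pool.Agent.X270.NT.St (BRep EllT)
open Pool.Agent.X270.NT.W (lw exp_lw_sq lw_sub_le SlowWeight lw_pow SqF Sq)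

noncomputable section

variable {G : Type} [Group G] {Z : Type} [MulAction G Z] (m : Mult G Z)

open scoped Classical in
/-- the twisted matrix of an element of the group ring -/
def mat (x : MonoidAlgebra ℂ G) (w z : Z) : ℂ :=
  ∑ g ∈ x.coeff.support, x.coeff g * m.φ g w * (if g⁻¹ • w = z then 1 else 0)

open scoped Classical in
lemma mat_sum (x : MonoidAlgebra ℂ G) (w : Z) (t : Finset Z) (c : Z → ℂ) :
    ∑ z ∈ t, mat m x w z * c z =
      ∑ g ∈ x.coeff.support, x.coeff g * m.φ g w *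
        (if g⁻¹ • w ∈ t then c (g⁻¹ • w) else 0) := by
  simp only [mat, Finset.sum_mul]
  rw [Finset.sum_comm]
  refine Finset.sum_congr rfl fun g _ => ?_
  simp only [mul_assoc, ← Finset.mul_sum, ite_mul, one_mul, zero_mul]
  rw [Finset.sum_ite_eq]

lemma integ_sum_dl (x : MonoidAlgebra ℂ G) (w : Z) (t : Finset Z) (c : Z → ℂ) :
    (m.integ x (∑ z ∈ t, c z • (dl z : Ell Z)) : Ell Z) w = ∑ z ∈ t, mat m x w z * c z := by
  classical
  rw [mat_sum, Mult.integ_apply, lp.coeFn_sum, Finset.sum_apply]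
  refine Finset.sum_congr rfl fun g _ => ?_
  rw [lp.coeFn_smul, Pi.smul_apply, Mult.rep_apply, smul_eq_mul, mul_assoc]
  congr 2
  rw [lp.coeFn_sum, Finset.sum_apply]
  simp only [lp.coeFn_smul, Pi.smul_apply, dl_apply, smul_eq_mul, mul_ite, mul_one, mul_zero]
  rw [Finset.sum_ite_eq]

lemma form_two (x : MonoidAlgebra ℂ G) (N0 : ℝ) (hN : ‖m.integ x‖ ≤ N0) (s t : Finset Z)
    (c d : Z → ℂ) : ‖∑ w ∈ s, ∑ z ∈ t, mat m x w z * c z * d w‖ ≤
      N0 * Real.sqrt (∑ z ∈ t, ‖c z‖ ^ 2) * Real.sqrt (∑ w ∈ s, ‖d w‖ ^ 2) := by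
  set v : Ell Z := ∑ z ∈ t, c z • (dl z : Ell Z) with hv
  have h1 : ∑ w ∈ s, ∑ z ∈ t, mat m x w z * c z * d w = ∑ w ∈ s, (m.integ x v : Ell Z) w * d w := by
    refine Finset.sum_congr rfl fun w _ => ?_
    rw [hv, integ_sum_dl, Finset.sum_mul]
  rw [h1]
  have h2 : ‖∑ w ∈ s, (m.integ x v : Ell Z) w * d w‖ ≤
      Real.sqrt (∑ w ∈ s, ‖(m.integ x v : Ell Z) w‖ ^ 2) * Real.sqrt (∑ w ∈ s, ‖d w‖ ^ 2) := by
    refine (norm_sum_le _ _).trans ?_
    simp only [norm_mul]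
    exact Real.sum_mul_le_sqrt_mul_sqrt s _ _
  refine h2.trans (mul_le_mul_of_nonneg_right ?_ (Real.sqrt_nonneg _))
  rw [← norm_sum_dl t c, ← hv]
  refine (Real.sqrt_le_sqrt (?_ : _ ≤ ‖m.integ x v‖ ^ 2)).trans ?_
  · have h3 : 0 < (2 : ℝ≥0∞).toReal := by norm_num
    have h4 := lp.sum_rpow_le_norm_rpow h3 (m.integ x v) s
    have h5 : (2 : ℝ≥0∞).toReal = ((2 : ℕ) : ℝ) := by norm_num
    simpa only [h5, Real.rpow_natCast] using h4
  · rw [Real.sqrt_sq (norm_nonneg _)]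
    exact (ContinuousLinearMap.le_opNorm _ _).trans
      (mul_le_mul_of_nonneg_right hN (norm_nonneg _))

/-- a kernel bounded on the support -/
lemma form_abs (x : MonoidAlgebra ℂ G) (s t : Finset Z) (E : Z → Z → ℂ) (B : ℝ) (hB0 : 0 ≤ B)
    (hB : ∀ w, ∀ g ∈ x.coeff.support, ‖E w (g⁻¹ • w)‖ ≤ B) (c d : Z → ℂ) :
    ‖∑ w ∈ s, ∑ z ∈ t, mat m x w z * E w z * c z * d w‖ ≤
      B * l1Norm x * Real.sqrt (∑ z ∈ t, ‖c z‖ ^ 2) * Real.sqrt (∑ w ∈ s, ‖d w‖ ^ 2) := by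
  classical
  have h0 : ∀ w, ∑ z ∈ t, mat m x w z * E w z * c z * d w =
      (∑ g ∈ x.coeff.support, x.coeff g * m.φ g w *
        (if g⁻¹ • w ∈ t then E w (g⁻¹ • w) * c (g⁻¹ • w) else 0)) * d w := by
    intro w
    rw [← Finset.sum_mul, ← mat_sum m x w t (fun z => E w z * c z)]
    congr 1
    exact Finset.sum_congr rfl fun z _ => by ring
  have h1 : ‖∑ w ∈ s, ∑ z ∈ t, mat m x w z * E w z * c z * d w‖ ≤
      ∑ w ∈ s, ∑ g ∈ x.coeff.support,
      ‖x.coeff g‖ * (B * (‖if g⁻¹ • w ∈ t then c (g⁻¹ • w) else 0‖ * ‖d w‖)) := by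
    refine (norm_sum_le _ _).trans (Finset.sum_le_sum fun w _ => ?_)
    rw [h0, norm_mul]
    refine (mul_le_mul_of_nonneg_right (norm_sum_le _ _) (norm_nonneg _)).trans ?_
    rw [Finset.sum_mul]
    refine Finset.sum_le_sum fun g hg => ?_
    rw [norm_mul, norm_mul, m.norm_one, mul_one, mul_assoc]
    refine mul_le_mul_of_nonneg_left ?_ (norm_nonneg _)
    rw [← mul_assoc]
    refine mul_le_mul_of_nonneg_right ?_ (norm_nonneg _)
    split_ifs with h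
    · rw [norm_mul]
      exact mul_le_mul_of_nonneg_right (hB w g hg) (norm_nonneg _)
    · rw [norm_zero, mul_zero]
  refine h1.trans ?_
  rw [Finset.sum_comm]
  have h2 : ∀ g ∈ x.coeff.support, ∑ w ∈ s, ‖x.coeff g‖ *
      (B * (‖if g⁻¹ • w ∈ t then c (g⁻¹ • w) else 0‖ * ‖d w‖)) ≤
      ‖x.coeff g‖ * (B * (Real.sqrt (∑ z ∈ t, ‖c z‖ ^ 2) * Real.sqrt (∑ w ∈ s, ‖d w‖ ^ 2))) := by
    intro g _
    rw [← Finset.mul_sum, ← Finset.mul_sum]
    refine mul_le_mul_of_nonneg_left (mul_le_mul_of_nonneg_left ?_ hB0) (norm_nonneg _)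
    refine (Real.sum_mul_le_sqrt_mul_sqrt s _ _).trans ?_
    refine mul_le_mul_of_nonneg_right (Real.sqrt_le_sqrt ?_) (Real.sqrt_nonneg _)
    have h3 : ∑ w ∈ s, ‖if g⁻¹ • w ∈ t then c (g⁻¹ • w) else 0‖ ^ 2 =
        ∑ w ∈ s.filter (fun w => g⁻¹ • w ∈ t), ‖c (g⁻¹ • w)‖ ^ 2 := by
      rw [Finset.sum_filter]
      refine Finset.sum_congr rfl fun w _ => ?_
      split_ifs
      · rfl
      · rw [norm_zero]; norm_num
    rw [h3]
    have h4 : ∑ w ∈ s.filter (fun w => g⁻¹ • w ∈ t), ‖c (g⁻¹ • w)‖ ^ 2 =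
        ∑ z ∈ (s.filter (fun w => g⁻¹ • w ∈ t)).image (fun w => g⁻¹ • w), ‖c z‖ ^ 2 := by
      rw [Finset.sum_image]
      intro a _ b _ hab
      exact MulAction.injective g⁻¹ hab
    rw [h4]
    refine Finset.sum_le_sum_of_subset_of_nonneg ?_ (fun _ _ _ => by positivity)
    intro z hz
    obtain ⟨w, hw, rfl⟩ := Finset.mem_image.1 hz
    exact (Finset.mem_filter.1 hw).2
  refine (Finset.sum_le_sum h2).trans_eq ?_
  rw [← Finset.sum_mul, l1Norm]
  ring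

/-- interpolation with weights -/
lemma weight_interp (x : MonoidAlgebra ℂ G) (N0 : ℝ) (hN : ‖m.integ x‖ ≤ N0) (s t : Finset Z)
    (r : Z → ℝ) (ε B : ℝ) (hε : 0 < ε) (hε1 : ε < 1)
    (hr : ∀ w, ∀ g ∈ x.coeff.support, |r w - r (g⁻¹ • w)| ≤ ε * B) (c d : Z → ℂ) :
    ‖∑ w ∈ s, ∑ z ∈ t, mat m x w z * Complex.exp ((r w - r z : ℝ) : ℂ) * c z * d w‖ ≤
      (N0 ^ (1 - ε) * (Real.exp B * l1Norm x) ^ ε) *
        (Real.sqrt (∑ z ∈ t, ‖c z‖ ^ 2) * Real.sqrt (∑ w ∈ s, ‖d w‖ ^ 2)) := by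
  have hN0 : 0 ≤ N0 := (norm_nonneg _).trans hN
  have hl := l1Norm_nonneg x
  set c2 := Real.sqrt (∑ z ∈ t, ‖c z‖ ^ 2) with hc2
  set d2 := Real.sqrt (∑ w ∈ s, ‖d w‖ ^ 2) with hd2
  have hc20 : 0 ≤ c2 := Real.sqrt_nonneg _
  have hd20 : 0 ≤ d2 := Real.sqrt_nonneg _
  set F : ℂ → ℂ := fun ζ => ∑ w ∈ s, ∑ z ∈ t,
    mat m x w z * Complex.exp (ζ * (((r w - r z) / ε : ℝ) : ℂ)) * c z * d w with hF
  have hdiff : Differentiable ℂ F := by
    refine Differentiable.fun_sum fun i _ => Differentiable.fun_sum fun j _ => ?_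
    fun_prop
  have hθ : ((ε : ℂ)).re = ε := Complex.ofReal_re _
  have hz : (ε : ℂ) ∈ Complex.HadamardThreeLines.verticalClosedStrip 0 1 := by
    change ((ε : ℂ)).re ∈ Set.Icc (0 : ℝ) 1
    rw [hθ]
    exact ⟨hε.le, hε1.le⟩
  have hnexp : ∀ (ζ : ℂ) (a : ℝ), ‖Complex.exp (ζ * (a : ℂ))‖ = Real.exp (ζ.re * a) := by
    intro ζ a
    rw [Complex.norm_exp, mul_comm, Complex.re_ofReal_mul, mul_comm]
  have hB : BddAbove ((norm ∘ F) '' Complex.HadamardThreeLines.verticalClosedStrip 0 1) := by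
    refine ⟨∑ w ∈ s, ∑ z ∈ t, ‖mat m x w z‖ * Real.exp |(r w - r z) / ε| * ‖c z‖ * ‖d w‖, ?_⟩
    rintro _ ⟨ζ, hζ, rfl⟩
    have hζ' : ζ.re ∈ Set.Icc (0 : ℝ) 1 := hζ
    change ‖F ζ‖ ≤ _
    refine (norm_sum_le _ _).trans (Finset.sum_le_sum fun w _ => ?_)
    refine (norm_sum_le _ _).trans (Finset.sum_le_sum fun z _ => ?_)
    rw [norm_mul, norm_mul, norm_mul, hnexp]
    have e1 : Real.exp (ζ.re * ((r w - r z) / ε)) ≤ Real.exp |(r w - r z) / ε| := by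
      refine Real.exp_le_exp.2 ((le_abs_self _).trans ?_)
      rw [abs_mul, abs_of_nonneg hζ'.1]
      exact mul_le_of_le_one_left (abs_nonneg _) hζ'.2
    gcongr
  have ha : ∀ ζ ∈ Complex.re ⁻¹' {(0 : ℝ)}, ‖F ζ‖ ≤ N0 * (c2 * d2) := by
    intro ζ hζ
    have hζ' : ζ.re = 0 := hζ
    have e1 : F ζ = ∑ w ∈ s, ∑ z ∈ t, mat m x w z *
        (Complex.exp (ζ * ((-(r z / ε) : ℝ) : ℂ)) * c z) *
        (Complex.exp (ζ * ((r w / ε : ℝ) : ℂ)) * d w) := by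
      simp only [hF]
      refine Finset.sum_congr rfl fun w _ => Finset.sum_congr rfl fun z _ => ?_
      have e2 : Complex.exp (ζ * (((r w - r z) / ε : ℝ) : ℂ)) =
          Complex.exp (ζ * ((-(r z / ε) : ℝ) : ℂ)) * Complex.exp (ζ * ((r w / ε : ℝ) : ℂ)) := by
        rw [← Complex.exp_add]
        congr 1
        push_cast
        ring
      rw [e2]
      ring
    rw [e1]
    refine (form_two m x N0 hN s t _ _).trans_eq ?_
    simp only [norm_mul, hnexp, hζ', zero_mul, Real.exp_zero, one_mul]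
    rw [← hc2, ← hd2, mul_assoc]
  have hb : ∀ ζ ∈ Complex.re ⁻¹' {(1 : ℝ)}, ‖F ζ‖ ≤ (Real.exp B * l1Norm x) * (c2 * d2) := by
    intro ζ hζ
    have hζ' : ζ.re = 1 := hζ
    refine (form_abs m x s t (fun w z => Complex.exp (ζ * (((r w - r z) / ε : ℝ) : ℂ)))
      (Real.exp B) (Real.exp_pos _).le ?_ c d).trans_eq ?_
    · intro w g hg
      rw [hnexp, hζ', one_mul]
      refine Real.exp_le_exp.2 ?_
      have h1 := (le_abs_self _).trans (hr w g hg)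
      rw [div_le_iff₀ hε]
      linarith
    · rw [← hc2, ← hd2]; ring
  have key := Complex.HadamardThreeLines.norm_le_interp_of_mem_verticalClosedStrip₀₁' F hz
    hdiff.diffContOnCl hB ha hb
  rw [hθ] at key
  have e3 : F (ε : ℂ) = ∑ w ∈ s, ∑ z ∈ t,
      mat m x w z * Complex.exp ((r w - r z : ℝ) : ℂ) * c z * d w := by
    simp only [hF]
    refine Finset.sum_congr rfl fun w _ => Finset.sum_congr rfl fun z _ => ?_
    have e4 : (ε : ℂ) * (((r w - r z) / ε : ℝ) : ℂ) = ((r w - r z : ℝ) : ℂ) := by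
      rw [← Complex.ofReal_mul]
      congr 1
      field_simp
    rw [e4]
  rw [e3] at key
  refine key.trans_eq ?_
  have hcd : 0 ≤ c2 * d2 := mul_nonneg hc20 hd20
  rw [Real.mul_rpow hN0 hcd, Real.mul_rpow (by positivity) hcd]
  have e5 : (c2 * d2) ^ (1 - ε) * (c2 * d2) ^ ε = c2 * d2 := by
    rcases hcd.eq_or_lt with h | h
    · rw [← h, Real.zero_rpow (by linarith), zero_mul]
    · rw [← Real.rpow_add h]; simp
  calc N0 ^ (1 - ε) * (c2 * d2) ^ (1 - ε) * ((Real.exp B * l1Norm x) ^ ε * (c2 * d2) ^ ε) =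
      (N0 ^ (1 - ε) * (Real.exp B * l1Norm x) ^ ε) * ((c2 * d2) ^ (1 - ε) * (c2 * d2) ^ ε) := by
        ring
    _ = _ := by rw [e5]

/-! ### the representation -/

variable {μ : Z → ℝ} (hpos : ∀ z, 0 < μ z) (hq : ∀ g : G, ∃ C : ℝ, ∀ z, μ (g • z) ≤ C * μ z)

/-- multiplication by the multiplier -/
def phase (g : G) (f : EllT Z 2) : EllT Z 2 :=
  ⟨fun z => m.φ g z * f.1 z, by
    refine Memℓp.mono' (lp.memℓp f) (fun z => ?_)
    rw [norm_mul, m.norm_one, one_mul]⟩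

lemma norm_phase_le (g : G) (f : EllT Z 2) : ‖phase m g f‖ ≤ ‖f‖ := by
  refine lp.norm_mono (E := fun _ : Z => ℂ) (p := 2) (by norm_num) (fun z => ?_)
  change ‖m.φ g z * f.1 z‖ ≤ ‖f.1 z‖
  rw [norm_mul, m.norm_one, one_mul]

/-- the weighted twisted representation -/
def wrep : BRep G (EllT Z 2) where
  op g f := phase m g (W.wtrans hpos hq g f)
  map_add g v w := by
    refine Subtype.ext (funext fun z => ?_)
    change m.φ g z * (_ * (v.1 (g⁻¹ • z) + w.1 (g⁻¹ • z))) = m.φ g z * (_ * v.1 (g⁻¹ • z)) +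
      m.φ g z * (_ * w.1 (g⁻¹ • z))
    ring
  map_smul g c v := by
    refine Subtype.ext (funext fun z => ?_)
    change m.φ g z * (_ * (c * v.1 (g⁻¹ • z))) = c * (m.φ g z * (_ * v.1 (g⁻¹ • z)))
    ring
  bounded g := by
    obtain ⟨D, hD⟩ := W.norm_wtrans_le hpos hq g
    exact ⟨D, fun f => (norm_phase_le m g _).trans (hD f)⟩
  map_one f := by
    refine Subtype.ext (funext fun z => ?_)
    change m.φ 1 z * (W.wtrans hpos hq 1 f).1 z = f.1 z
    rw [m.one, one_mul, W.wtrans_apply, inv_one, one_smul, sub_self, Real.exp_zero,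
      Complex.ofReal_one, one_mul]
  map_mul g h f := by
    refine Subtype.ext (funext fun z => ?_)
    change m.φ (g * h) z * (W.wtrans hpos hq (g * h) f).1 z =
      m.φ g z * (((Real.exp (lw μ z - lw μ (g⁻¹ • z)) : ℝ) : ℂ) *
        (m.φ h (g⁻¹ • z) * (W.wtrans hpos hq h f).1 (g⁻¹ • z)))
    have h1 := (W.wrep hpos hq).map_mul g h f
    have h2 := congrArg (fun f : EllT Z 2 => f.1 z) h1
    change (W.wtrans hpos hq (g * h) f).1 z = ((Real.exp (lw μ z - lw μ (g⁻¹ • z)) : ℝ) : ℂ) *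
        (W.wtrans hpos hq h f).1 (g⁻¹ • z) at h2
    rw [h2, m.mul]
    ring

lemma act_wrep_apply (x : MonoidAlgebra ℂ G) (f : EllT Z 2) (w : Z) :
    (St.act (wrep m hpos hq) x f).1 w = ∑ g ∈ x.coeff.support,
      x.coeff g * (m.φ g w * (Complex.exp ((lw μ w - lw μ (g⁻¹ • w) : ℝ) : ℂ) *
        f.1 (g⁻¹ • w))) := by
  have h1 : (St.act (wrep m hpos hq) x f).1 w =
      ((∑ g ∈ x.coeff.support, x.coeff g •
        (show lp (fun _ : Z => ℂ) 2 from phase m g (W.wtrans hpos hq g f)) :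
          lp (fun _ : Z => ℂ) 2) : Z → ℂ) w := rfl
  rw [h1, lp.coeFn_sum, Finset.sum_apply]
  refine Finset.sum_congr rfl fun g _ => ?_
  rw [← Complex.ofReal_exp]
  rfl

lemma nearTempered_wrep {S : Set G} (hS : S⁻¹ = S) {ε : ℝ}
    (hε : 0 < ε) (hε1 : ε < 1) (hμ : SlowWeight S ε μ)
    (h : ∀ (n : ℕ) (x : MonoidAlgebra ℂ G), (x.coeff.support : Set G) ⊆ S ^ n →
      ‖m.integ x‖ ≤ Real.exp (ε * n / 2) * NT.redNorm x) :
    St.NearTempered S ε (wrep m hμ.pos hμ.quasi) := by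
  classical
  refine ⟨1, fun n x hx f => ?_⟩
  rw [St.redNorm_eq', St.l1Norm_eq']
  have hN := h n x hx
  have hr : 0 ≤ NT.redNorm x := norm_nonneg _
  have hl := NT.l1Norm_nonneg x
  have hlip : ∀ w, ∀ g ∈ x.coeff.support, |lw μ w - lw μ (g⁻¹ • w)| ≤ ε * ((n : ℝ) / 2) := by
    intro w g hg
    have hg' : g ∈ S ^ n := hx hg
    have hgi : g⁻¹ ∈ S ^ n := by
      have h4 : g⁻¹ ∈ (S ^ n)⁻¹ := by simpa using hg'
      rwa [← inv_pow, hS] at h4
    rw [abs_le]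
    constructor
    · have := lw_pow hμ n _ hgi w
      linarith
    · have := lw_pow hμ n _ hg' (g⁻¹ • w)
      rwa [smul_inv_smul] at this
  set M : ℝ := Real.exp (ε * n) * NT.redNorm x ^ (1 - ε) * NT.l1Norm x ^ ε with hM
  have hM0 : 0 ≤ M := by positivity
  have hMle : (Real.exp (ε * n / 2) * NT.redNorm x) ^ (1 - ε) *
      (Real.exp ((n : ℝ) / 2) * NT.l1Norm x) ^ ε ≤ M := by
    rw [Real.mul_rpow (Real.exp_pos _).le hr, Real.mul_rpow (Real.exp_pos _).le hl,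
      ← Real.exp_mul, ← Real.exp_mul]
    have e1 : Real.exp (ε * n / 2 * (1 - ε)) * Real.exp ((n : ℝ) / 2 * ε) ≤ Real.exp (ε * n) := by
      rw [← Real.exp_add]
      refine Real.exp_le_exp.2 ?_
      have h1 : 0 ≤ ε * n := by positivity
      nlinarith
    calc Real.exp (ε * n / 2 * (1 - ε)) * NT.redNorm x ^ (1 - ε) *
          (Real.exp ((n : ℝ) / 2 * ε) * NT.l1Norm x ^ ε) =
          (Real.exp (ε * n / 2 * (1 - ε)) * Real.exp ((n : ℝ) / 2 * ε)) *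
            (NT.redNorm x ^ (1 - ε) * NT.l1Norm x ^ ε) := by ring
      _ ≤ Real.exp (ε * n) * (NT.redNorm x ^ (1 - ε) * NT.l1Norm x ^ ε) :=
          mul_le_mul_of_nonneg_right e1 (by positivity)
      _ = M := by rw [hM]; ring
  rw [one_mul]
  change ‖St.act (wrep m hμ.pos hμ.quasi) x f‖ ≤ M * ‖f‖
  have h2 : (0 : ℝ) < (2 : ℝ≥0∞).toReal := by norm_num
  have h2' : (2 : ℝ≥0∞).toReal = ((2 : ℕ) : ℝ) := by norm_num
  refine lp.norm_le_of_forall_sum_le (E := fun _ : Z => ℂ) (p := 2) h2 (by positivity) fun s => ?_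
  simp only [h2', Real.rpow_natCast]
  set g : Z → ℂ := (St.act (wrep m hμ.pos hμ.quasi) x f).1 with hg
  change ∑ w ∈ s, ‖g w‖ ^ 2 ≤ (M * ‖f‖) ^ 2
  set t : Finset Z := (x.coeff.support ×ˢ s).image (fun u => u.1⁻¹ • u.2) with ht
  have hgw : ∀ w ∈ s, g w = ∑ z ∈ t,
      mat m x w z * (Complex.exp ((lw μ w - lw μ z : ℝ) : ℂ) * f.1 z) := by
    intro w hw
    rw [mat_sum m x w t (fun z => Complex.exp ((lw μ w - lw μ z : ℝ) : ℂ) * f.1 z), hg,
      act_wrep_apply]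
    refine Finset.sum_congr rfl fun k hk => ?_
    rw [if_pos (Finset.mem_image.2 ⟨(k, w), Finset.mem_product.2 ⟨hk, hw⟩, rfl⟩), mul_assoc]
  have hb := weight_interp m x _ hN s t (lw μ) ε ((n : ℝ) / 2) hε hε1 hlip (fun z => f.1 z)
    (fun w => starRingEnd ℂ (g w))
  have hsum : ∑ w ∈ s, ∑ z ∈ t, mat m x w z * Complex.exp ((lw μ w - lw μ z : ℝ) : ℂ) * f.1 z *
      starRingEnd ℂ (g w) = ((∑ w ∈ s, ‖g w‖ ^ 2 : ℝ) : ℂ) := by
    rw [Complex.ofReal_sum]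
    refine Finset.sum_congr rfl fun w hw => ?_
    rw [← Finset.sum_mul]
    have e1 : ∑ z ∈ t, mat m x w z * Complex.exp ((lw μ w - lw μ z : ℝ) : ℂ) * f.1 z = g w := by
      rw [hgw w hw]
      exact Finset.sum_congr rfl fun z _ => by ring
    rw [e1, Complex.mul_conj, Complex.normSq_eq_norm_sq]
  set H : ℝ := ∑ w ∈ s, ‖g w‖ ^ 2 with hH
  set C : ℝ := ∑ z ∈ t, ‖f.1 z‖ ^ 2 with hC
  have hH0 : 0 ≤ H := Finset.sum_nonneg fun _ _ => by positivity
  have hC0 : 0 ≤ C := Finset.sum_nonneg fun _ _ => by positivity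
  have hCf : C ≤ ‖f‖ ^ 2 := by
    have := lp.sum_rpow_le_norm_rpow (E := fun _ : Z => ℂ) (p := 2) h2 f t
    simp only [h2', Real.rpow_natCast] at this
    exact this
  rw [hsum, Complex.norm_real, Real.norm_of_nonneg hH0] at hb
  have hconj : ∑ w ∈ s, ‖(starRingEnd ℂ) (g w)‖ ^ 2 = H := by
    simp only [RCLike.norm_conj]
    rfl
  rw [hconj] at hb
  have hb' : H ≤ M * (Real.sqrt C * Real.sqrt H) :=
    hb.trans (mul_le_mul_of_nonneg_right hMle (by positivity))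
  have h5 : Real.sqrt H ≤ M * Real.sqrt C := by
    rcases hH0.eq_or_lt with h0 | h0
    · rw [← h0, Real.sqrt_zero]; positivity
    · have h6 : 0 < Real.sqrt H := Real.sqrt_pos.2 h0
      refine le_of_mul_le_mul_right ?_ h6
      rw [Real.mul_self_sqrt hH0]
      linarith [hb']
  calc H = Real.sqrt H ^ 2 := (Real.sq_sqrt hH0).symm
    _ ≤ (M * Real.sqrt C) ^ 2 := pow_le_pow_left₀ (Real.sqrt_nonneg _) h5 2
    _ = M ^ 2 * C := by rw [mul_pow, Real.sq_sqrt hC0]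
    _ ≤ M ^ 2 * ‖f‖ ^ 2 := by gcongr
    _ = (M * ‖f‖) ^ 2 := by ring

/-! ### functions -/

/-- the twisted action on functions -/
def actT (a : MonoidAlgebra ℤ G) (f : Z → ℂ) (z : Z) : ℂ :=
  ∑ g ∈ a.coeff.support, a.coeff g • (m.φ g z * f (g⁻¹ • z))

/-- the twisted coboundary on functions -/
def cobdT (X : FinRes G) (i : ℕ) (v : Fin (X.n i) → Z → ℂ) : Fin (X.n (i + 1)) → Z → ℂ :=
  fun k z => ∑ j, actT m (X.d i k j) (v j) z

lemma fromE_cobd (X : FinRes G) (i : ℕ) (u : Fin (X.n i) → EllT Z 2) :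
    W.fromE μ (St.cobd X (wrep m hpos hq) i u) = cobdT m X i (W.fromE μ u) := by
  funext k z
  have h1 : (St.cobd X (wrep m hpos hq) i u k).1 z = ∑ j, ∑ g ∈ (X.d i k j).coeff.support,
      (X.d i k j).coeff g • (m.φ g z * (((Real.exp (lw μ z - lw μ (g⁻¹ • z)) : ℝ) : ℂ) *
        (u j).1 (g⁻¹ • z))) := by
    change W.ev z (∑ j, St.actL (wrep m hpos hq) (X.d i k j) (u j)) = _
    rw [map_sum]
    refine Finset.sum_congr rfl fun j _ => ?_
    rw [St.actL, map_sum]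
    refine Finset.sum_congr rfl fun g _ => ?_
    rw [map_zsmul]
    rfl
  change ((Real.exp (-lw μ z) : ℝ) : ℂ) * (St.cobd X (wrep m hpos hq) i u k).1 z =
    ∑ j, ∑ g ∈ (X.d i k j).coeff.support, (X.d i k j).coeff g •
      (m.φ g z * (((Real.exp (-lw μ (g⁻¹ • z)) : ℝ) : ℂ) * (u j).1 (g⁻¹ • z)))
  rw [h1, Finset.mul_sum]
  refine Finset.sum_congr rfl fun j _ => ?_
  rw [Finset.mul_sum]
  refine Finset.sum_congr rfl fun g _ => ?_
  rw [mul_smul_comm]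
  congr 1
  have e1 : ((Real.exp (-lw μ (g⁻¹ • z)) : ℝ) : ℂ) = ((Real.exp (-lw μ z) : ℝ) : ℂ) *
      ((Real.exp (lw μ z - lw μ (g⁻¹ • z)) : ℝ) : ℂ) := by
    rw [← Complex.ofReal_mul, ← Real.exp_add]
    congr 2
    ring
  rw [e1]
  ring

/-- the vanishing statements for twisted weighted cochains up to degree `p` -/
structure Van (X : FinRes G) (μ : Z → ℝ) (p : ℕ) : Prop where
  h0 : ∀ v : Fin (X.n 0) → Z → ℂ, Sq μ v → cobdT m X 0 v = 0 → v = 0
  hs : ∀ i, i + 1 ≤ p → ∀ v : Fin (X.n (i + 1)) → Z → ℂ, Sq μ v → cobdT m X (i + 1) v = 0 →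
    ∃ w, Sq μ w ∧ cobdT m X i w = v

lemma van_of (X : FinRes G) (p : ℕ)
    (h : ∀ i ≤ p, ¬ St.CohNonzero X (wrep m hpos hq) i) : Van m X μ p := by
  refine ⟨?_, ?_⟩
  · intro v hv hz
    by_contra hne
    apply h 0 (Nat.zero_le _)
    refine ⟨W.toE hpos v hv, ?_, ?_⟩
    · apply W.fromE_injective (μ := μ)
      rw [fromE_cobd, W.fromE_toE, hz, W.fromE_zero]
    · intro h3
      apply hne
      rw [← W.fromE_toE hpos v hv, h3, W.fromE_zero]
  · intro i hi v hv hz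
    by_contra hne
    push Not at hne
    apply h (i + 1) hi
    refine ⟨W.toE hpos v hv, ?_, ?_⟩
    · apply W.fromE_injective (μ := μ)
      rw [fromE_cobd, W.fromE_toE, hz, W.fromE_zero]
    · intro w h3
      apply hne (W.fromE μ w) (W.sq_fromE hpos w)
      rw [← fromE_cobd m hpos hq, h3, W.fromE_toE]

end

end Pool.Agent.X270.NT.T
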