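import Pool.Agent.X270.NT.StmtU
import Pool.Agent.X270.NT.Bridge

set_option autoImplicit false
set_option linter.unusedSectionVars false

open scoped Matrix ENNReal Pointwise InnerProductSpace
open Filter Topology

namespace Pool.Agent.X270.NT.U

open Pool.Agent.H496R3.ZS (integ integ_apply)
open Pool.Agent.H919R4.ZS (FinRes toRed)
open Pool.Agent.X270.NT.St (BRep CohNonzero HomNonzero)

noncomputable section

variable {G : Type} [Group G]
variable {H : Type} [NormedAddCommGroup H] [InnerProductSpace ℂ H] [CompleteSpace H]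

/-! ### an estimate in Hilbert space -/

/-- growth of the powers of `A* A` at a vector bounds `A` at the vector -/
lemma norm_le_of_growth (A T : H →L[ℂ] H) (hAT : T = ContinuousLinearMap.adjoint A * A)
    (q : ℝ) (hq0 : 0 ≤ q) (ξ : H) (D : ℝ)
    (hD : ∀ j : ℕ, ‖(T ^ (2 ^ j)) ξ‖ ≤ D * (q ^ 2) ^ (2 ^ j)) : ‖A ξ‖ ≤ q * ‖ξ‖ := by
  have hT : ∀ v w : H, ⟪A v, A w⟫_ℂ = ⟪v, T w⟫_ℂ := by
    intro v w
    rw [hAT, mul_apply_eq_comp, ContinuousLinearMap.adjoint_inner_right]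
  have hTs : ∀ v w : H, ⟪T v, w⟫_ℂ = ⟪v, T w⟫_ℂ := by
    intro v w
    rw [← hT, ← inner_conj_symm, ← hT, inner_conj_symm]
  have hTk : ∀ (k : ℕ) (v w : H), ⟪(T ^ k) v, w⟫_ℂ = ⟪v, (T ^ k) w⟫_ℂ := by
    intro k
    induction k with
    | zero => intro v w; rfl
    | succ k ih =>
      intro v w
      rw [pow_succ, mul_apply_eq_comp, mul_apply_eq_comp, ih, hTs, ← mul_apply_eq_comp,
        ← mul_apply_eq_comp, ((Commute.refl T).pow_left k).eq]
  rcases (norm_nonneg ξ).eq_or_lt with hN | hN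
  · have h0 : ξ = 0 := norm_eq_zero.1 hN.symm
    rw [h0, map_zero, norm_zero, mul_zero]
  set N := ‖ξ‖ with hNdef
  set a := ‖A ξ‖ with ha
  have ha0 : 0 ≤ a := norm_nonneg _
  have hsq : ∀ j : ℕ, ‖(T ^ (2 ^ j)) ξ‖ ^ 2 = ‖⟪ξ, (T ^ (2 ^ (j + 1))) ξ⟫_ℂ‖ := by
    intro j
    have e1 : ⟪(T ^ (2 ^ j)) ξ, (T ^ (2 ^ j)) ξ⟫_ℂ = ⟪ξ, (T ^ (2 ^ (j + 1))) ξ⟫_ℂ := by
      rw [hTk, ← mul_apply_eq_comp, ← pow_add]
      congr 3
      rw [pow_succ, mul_two]
    rw [← e1, inner_self_eq_norm_sq_to_K]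
    simp
  have h0 : a ^ 2 ≤ N * ‖(T ^ (2 ^ 0)) ξ‖ := by
    have e1 : ⟪A ξ, A ξ⟫_ℂ = ⟪ξ, (T ^ (2 ^ 0)) ξ⟫_ℂ := by
      rw [hT, pow_zero, pow_one]
    have e2 : a ^ 2 = ‖⟪A ξ, A ξ⟫_ℂ‖ := by
      rw [inner_self_eq_norm_sq_to_K]
      simp [ha]
    rw [e2, e1]
    exact norm_inner_le_norm _ _
  have hstep : ∀ j : ℕ, N * a ^ (2 ^ (j + 1)) ≤ N ^ (2 ^ (j + 1)) * ‖(T ^ (2 ^ j)) ξ‖ := by
    intro j
    induction j with
    | zero =>
      rw [zero_add, pow_one]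
      calc N * a ^ 2 ≤ N * (N * ‖(T ^ (2 ^ 0)) ξ‖) := by gcongr
        _ = N ^ 2 * ‖(T ^ (2 ^ 0)) ξ‖ := by ring
    | succ j ih =>
      have e1 : ‖(T ^ (2 ^ j)) ξ‖ ^ 2 ≤ N * ‖(T ^ (2 ^ (j + 1))) ξ‖ := by
        rw [hsq]
        exact norm_inner_le_norm _ _
      have e2 : (N * a ^ (2 ^ (j + 1))) ^ 2 ≤
          (N ^ (2 ^ (j + 1)) * ‖(T ^ (2 ^ j)) ξ‖) ^ 2 :=
        pow_le_pow_left₀ (by positivity) ih 2
      have e3 : (N ^ (2 ^ (j + 1)) * ‖(T ^ (2 ^ j)) ξ‖) ^ 2 ≤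
          N * (N ^ (2 ^ (j + 1 + 1)) * ‖(T ^ (2 ^ (j + 1))) ξ‖) := by
        calc (N ^ (2 ^ (j + 1)) * ‖(T ^ (2 ^ j)) ξ‖) ^ 2 =
            N ^ (2 ^ (j + 1 + 1)) * ‖(T ^ (2 ^ j)) ξ‖ ^ 2 := by
              rw [mul_pow, ← pow_mul, ← pow_succ]
          _ ≤ N ^ (2 ^ (j + 1 + 1)) * (N * ‖(T ^ (2 ^ (j + 1))) ξ‖) := by gcongr
          _ = _ := by ring
      have e4 : (N * a ^ (2 ^ (j + 1))) ^ 2 = N * (N * a ^ (2 ^ (j + 1 + 1))) := by
        rw [mul_pow, ← pow_mul, ← pow_succ]; ring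
      rw [e4] at e2
      exact le_of_mul_le_mul_left (e2.trans e3) hN
  have hfin : ∀ j : ℕ, (a ^ 2) ^ (2 ^ j) ≤ (D / N) * ((q * N) ^ 2) ^ (2 ^ j) := by
    intro j
    have e0 : 2 * 2 ^ j = 2 ^ (j + 1) := by rw [pow_succ]; ring
    rw [div_mul_eq_mul_div, le_div_iff₀ hN, ← pow_mul, ← pow_mul, e0]
    calc a ^ (2 ^ (j + 1)) * N = N * a ^ (2 ^ (j + 1)) := mul_comm _ _
      _ ≤ N ^ (2 ^ (j + 1)) * ‖(T ^ (2 ^ j)) ξ‖ := hstep j
      _ ≤ N ^ (2 ^ (j + 1)) * (D * (q ^ 2) ^ (2 ^ j)) := by gcongr; exact hD j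
      _ = D * (q * N) ^ (2 ^ (j + 1)) := by
          rw [mul_pow q N, ← pow_mul q 2, e0]; ring
  have h4 := le_of_pow_le (by positivity) hfin
  exact (pow_le_pow_iff_left₀ ha0 (by positivity) (by norm_num)).1 h4

/-- the growth condition on a total set of vectors -/
lemma norm_le_of_total (A T : H →L[ℂ] H) (hAT : T = ContinuousLinearMap.adjoint A * A)
    (q : ℝ) (hq0 : 0 ≤ q) (E : Set H) (hE : Dense (Submodule.span ℂ E : Set H))
    (hD : ∀ v ∈ E, ∃ D : ℝ, ∀ j : ℕ, ‖(T ^ (2 ^ j)) v‖ ≤ D * (q ^ 2) ^ (2 ^ j)) (v : H) :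
    ‖A v‖ ≤ q * ‖v‖ := by
  have h1 : ∀ v ∈ Submodule.span ℂ E, ∃ D : ℝ, ∀ j : ℕ,
      ‖(T ^ (2 ^ j)) v‖ ≤ D * (q ^ 2) ^ (2 ^ j) := by
    intro v hv
    induction hv using Submodule.span_induction with
    | mem x hx => exact hD x hx
    | zero =>
      refine ⟨0, fun j => ?_⟩
      rw [map_zero, norm_zero, zero_mul]
    | add x y _ _ hx hy =>
      obtain ⟨D, hD⟩ := hx
      obtain ⟨D', hD'⟩ := hy
      refine ⟨D + D', fun j => ?_⟩
      rw [map_add, add_mul]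
      exact (norm_add_le _ _).trans (add_le_add (hD j) (hD' j))
    | smul c x _ hx =>
      obtain ⟨D, hD⟩ := hx
      refine ⟨‖c‖ * D, fun j => ?_⟩
      rw [map_smul, norm_smul, mul_assoc]
      exact mul_le_mul_of_nonneg_left (hD j) (norm_nonneg _)
  have h2 : IsClosed {v : H | ‖A v‖ ≤ q * ‖v‖} :=
    isClosed_le (A.continuous.norm) (continuous_const.mul continuous_norm)
  have h3 : (Submodule.span ℂ E : Set H) ⊆ {v : H | ‖A v‖ ≤ q * ‖v‖} := by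
    intro w hw
    obtain ⟨D, hD⟩ := h1 w hw
    exact norm_le_of_growth A T hAT q hq0 w D hD
  have h4 := closure_minimal h3 h2
  rw [hE.closure_eq] at h4
  exact h4 (Set.mem_univ v)

/-! ### unitary representations -/

variable (ρ : G →* (H →L[ℂ] H)) (hρ : ∀ g v, ‖ρ g v‖ = ‖v‖)

/-- the integrated form -/
def uint : MonoidAlgebra ℂ G →ₐ[ℂ] (H →L[ℂ] H) := MonoidAlgebra.lift ℂ _ G ρ

lemma uint_apply (x : MonoidAlgebra ℂ G) (v : H) :
    uint ρ x v = ∑ g ∈ x.coeff.support, x.coeff g • ρ g v := by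
  rw [uint, MonoidAlgebra.lift_apply, Finsupp.sum]
  simp only [sum_apply, smul_apply]

include hρ in
lemma urep_adjoint (g : G) : ContinuousLinearMap.adjoint (ρ g) = ρ g⁻¹ := by
  symm
  rw [ContinuousLinearMap.eq_adjoint_iff]
  intro x y
  set L : H →ₗᵢ[ℂ] H := ⟨(ρ g : H →ₗ[ℂ] H), fun v => hρ g v⟩ with hL
  have h2 : @inner ℂ _ _ (ρ g (ρ g⁻¹ x)) (ρ g y) = @inner ℂ _ _ (ρ g⁻¹ x) y :=
    LinearIsometry.inner_map_map L _ _
  rw [← h2, ← mul_apply_eq_comp, ← map_mul, mul_inv_cancel, map_one]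
  rfl

include hρ in
lemma uint_adjoint (x : MonoidAlgebra ℂ G) :
    ContinuousLinearMap.adjoint (uint ρ x) = uint ρ (st x) := by
  refine MonoidAlgebra.induction_linear x ?_ ?_ ?_
  · rw [st_zero, map_zero, map_zero]
  · intro x y hx hy
    rw [st_add, map_add, map_add, map_add, hx, hy]
  · intro g c
    rw [st_single, uint, MonoidAlgebra.lift_single, MonoidAlgebra.lift_single, map_smulₛₗ,
      urep_adjoint ρ hρ]

include hρ in
/-- **the norm bound** for unitary representations with coefficients of small exponent -/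
lemma norm_uint_le {S : Set G} (hS : S⁻¹ = S) {ε : ℝ}
    (hslow : Dense (Submodule.span ℂ {v : H | ∃ K : ℝ, ∀ (m : ℕ) (F : Finset G),
      (F : Set G) ⊆ S ^ m → ∑ g ∈ F, ‖⟪ρ g v, v⟫_ℂ‖ ^ 2 ≤ K * Real.exp (ε * m)} : Set H))
    (n : ℕ) (x : MonoidAlgebra ℂ G) (hx : (x.coeff.support : Set G) ⊆ S ^ n) (v : H) :
    ‖uint ρ x v‖ ≤ Real.exp (ε * n / 2) * ‖integ G G x‖ * ‖v‖ := by
  have hSpow : ∀ k : ℕ, (S ^ k)⁻¹ = S ^ k := fun k => by rw [← inv_pow, hS]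
  set r := ‖integ G G x‖ with hr
  have hr0 : 0 ≤ r := norm_nonneg _
  set y := st x * x with hy
  have hysupp : (y.coeff.support : Set G) ⊆ S ^ (2 * n) := by
    refine (support_mul' _ _).trans ?_
    rw [two_mul, pow_add]
    refine Set.mul_subset_mul ?_ hx
    intro g hg
    have h1 : g ∈ ((inv x).coeff.support : Set G) := by
      rw [Finset.mem_coe, Finsupp.mem_support_iff] at hg ⊢
      intro h0
      apply hg
      rw [st, cj, MonoidAlgebra.coeff_mapRingHom, h0, map_zero]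
    have h2 := support_inv x h1
    have h3 : g ∈ (S ^ n)⁻¹ := by
      rw [Set.mem_inv] at h2 ⊢
      exact hx h2
    rwa [hSpow] at h3
  have hyk : ∀ k : ℕ, ((y ^ (k + 1)).coeff.support : Set G) ⊆ (S ^ (2 * n)) ^ (k + 1) := by
    intro k
    induction k with
    | zero => simpa using hysupp
    | succ k ih =>
      rw [pow_succ y, pow_succ (S ^ (2 * n))]
      exact (support_mul' _ _).trans (Set.mul_subset_mul ih hysupp)
  have hyn : ‖integ G G y‖ ≤ r ^ 2 := by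
    rw [hy, map_mul, ← integ_adjoint, pow_two]
    refine (norm_mul_le _ _).trans ?_
    rw [LinearIsometryEquiv.norm_map]
  have hTy : uint ρ y = ContinuousLinearMap.adjoint (uint ρ x) * uint ρ x := by
    rw [hy, map_mul, ← uint_adjoint ρ hρ]
  set q : ℝ := Real.exp (ε * n / 2) * r with hq
  have hq0 : 0 ≤ q := by positivity
  refine norm_le_of_total (uint ρ x) (uint ρ y) hTy q hq0 _ hslow ?_ v
  rintro w ⟨K, hK⟩
  refine ⟨Real.sqrt (Real.sqrt |K|), fun j => ?_⟩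
  -- the square of the norm is a coefficient
  have hsa : ∀ (k : ℕ) (v w : H), ⟪(uint ρ y ^ k) v, w⟫_ℂ = ⟪v, (uint ρ y ^ k) w⟫_ℂ := by
    have hTs : ∀ v w : H, ⟪uint ρ y v, w⟫_ℂ = ⟪v, uint ρ y w⟫_ℂ := by
      intro v w
      rw [hTy, mul_apply_eq_comp, mul_apply_eq_comp, ContinuousLinearMap.adjoint_inner_left,
        ContinuousLinearMap.adjoint_inner_right]
    intro k
    induction k with
    | zero => intro v w; rfl
    | succ k ih =>
      intro v w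
      rw [pow_succ, mul_apply_eq_comp, mul_apply_eq_comp, ih, hTs, ← mul_apply_eq_comp,
        ← mul_apply_eq_comp, ((Commute.refl (uint ρ y)).pow_left k).eq]
  have e1 : ‖(uint ρ y ^ (2 ^ j)) w‖ ^ 2 = ‖⟪uint ρ (y ^ (2 ^ (j + 1))) w, w⟫_ℂ‖ := by
    have e2 : ⟪(uint ρ y ^ (2 ^ j)) w, (uint ρ y ^ (2 ^ j)) w⟫_ℂ =
        ⟪uint ρ (y ^ (2 ^ (j + 1))) w, w⟫_ℂ := by
      rw [← hsa, ← mul_apply_eq_comp, ← pow_add, map_pow]
      congr 3
      rw [pow_succ, mul_two]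
    rw [← e2, inner_self_eq_norm_sq_to_K]
    simp
  obtain ⟨k, hk⟩ : ∃ k, 2 ^ (j + 1) = k + 1 := ⟨2 ^ (j + 1) - 1, by
    have : 0 < 2 ^ (j + 1) := by positivity
    omega⟩
  -- Cauchy-Schwarz
  have e2 : ‖⟪uint ρ (y ^ (2 ^ (j + 1))) w, w⟫_ℂ‖ ≤
      (r ^ 2) ^ (k + 1) * (Real.sqrt |K| * (Real.exp (ε * n / 2) ^ 2) ^ (k + 1)) := by
    rw [hk, uint_apply, sum_inner]
    set z := y ^ (k + 1) with hz
    have f1 : ‖∑ g ∈ z.coeff.support, ⟪z.coeff g • ρ g w, w⟫_ℂ‖ ≤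
        ∑ g ∈ z.coeff.support, ‖z.coeff g‖ * ‖⟪ρ g w, w⟫_ℂ‖ := by
      refine (norm_sum_le _ _).trans (Finset.sum_le_sum fun g _ => ?_)
      rw [inner_smul_left, norm_mul, RCLike.norm_conj]
    refine f1.trans ?_
    refine (Real.sum_mul_le_sqrt_mul_sqrt _ _ _).trans ?_
    have f2 : Real.sqrt (∑ g ∈ z.coeff.support, ‖z.coeff g‖ ^ 2) ≤ (r ^ 2) ^ (k + 1) := by
      refine (Real.sqrt_le_sqrt (sum_sq_coeff_le z)).trans ?_
      rw [Real.sqrt_sq (norm_nonneg _), hz, map_pow]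
      refine (norm_pow_le' _ (Nat.succ_pos k)).trans ?_
      exact pow_le_pow_left₀ (norm_nonneg _) hyn _
    have f3 : Real.sqrt (∑ g ∈ z.coeff.support, ‖⟪ρ g w, w⟫_ℂ‖ ^ 2) ≤
        Real.sqrt |K| * (Real.exp (ε * n / 2) ^ 2) ^ (k + 1) := by
      have f4 := hK (2 * n * (k + 1)) z.coeff.support (by
        rw [pow_mul S]
        exact hyk k)
      refine (Real.sqrt_le_sqrt (f4.trans
        (mul_le_mul_of_nonneg_right (le_abs_self _) (Real.exp_pos _).le))).trans ?_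
      rw [Real.sqrt_mul (abs_nonneg _)]
      refine mul_le_mul_of_nonneg_left ?_ (Real.sqrt_nonneg _)
      have e4 : Real.exp (ε * ((2 * n * (k + 1) : ℕ) : ℝ)) =
          ((Real.exp (ε * n / 2) ^ 2) ^ (k + 1)) ^ 2 := by
        rw [← Real.exp_nat_mul, ← Real.exp_nat_mul, ← Real.exp_nat_mul]
        congr 1
        push_cast
        ring
      rw [e4, Real.sqrt_sq (by positivity)]
    exact mul_le_mul f2 f3 (Real.sqrt_nonneg _) (by positivity)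
  have e3 : (r ^ 2) ^ (k + 1) * (Real.sqrt |K| * (Real.exp (ε * n / 2) ^ 2) ^ (k + 1)) =
      (Real.sqrt (Real.sqrt |K|) * (q ^ 2) ^ (2 ^ j)) ^ 2 := by
    rw [mul_pow (Real.sqrt (Real.sqrt |K|)), Real.sq_sqrt (Real.sqrt_nonneg _), ← pow_mul (q ^ 2),
      ← pow_succ, hk, hq, mul_pow (Real.exp (ε * n / 2)) r 2, mul_pow]
    ring
  refine (sq_le_sq₀ (norm_nonneg _) (by positivity)).1 ?_
  rw [e1, ← e3]
  exact e2

lemma nearTempered_of_slow {S : Set G} (hS : S⁻¹ = S) {ε : ℝ} (hε : 0 < ε) (hε1 : ε < 1)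
    (π : BRep G H) (hu : Unitary π) (hslow : SlowCoefficients S ε π) :
    St.NearTempered S ε π := by
  refine ⟨1, fun m x hx v => ?_⟩
  rw [St.redNorm_eq', St.l1Norm_eq']
  have h1 : St.act π x v = uint π.hom x v := by
    rw [uint_apply]
    rfl
  have h2 := norm_uint_le π.hom (fun g v => hu g v) hS hslow m x hx v
  rw [h1]
  refine h2.trans (mul_le_mul_of_nonneg_right ?_ (norm_nonneg _))
  rw [← redNorm_eq]
  have hr : 0 ≤ NT.redNorm x := norm_nonneg _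
  have hl := NT.l1Norm_nonneg x
  have hrl := redNorm_le_l1Norm x
  have e1 : Real.exp (ε * m / 2) ≤ Real.exp (ε * m) := by
    refine Real.exp_le_exp.2 ?_
    have : 0 ≤ ε * m := by positivity
    linarith
  have e2 : NT.redNorm x ≤ NT.redNorm x ^ (1 - ε) * NT.l1Norm x ^ ε := by
    calc NT.redNorm x = NT.redNorm x ^ (1 - ε) * NT.redNorm x ^ ε := by
          rcases hr.eq_or_lt with h | h
          · rw [← h, Real.zero_rpow (by linarith), zero_mul]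
          · rw [← Real.rpow_add h]; simp
      _ ≤ _ := by gcongr
  calc Real.exp (ε * m / 2) * NT.redNorm x ≤ Real.exp (ε * m) *
        (NT.redNorm x ^ (1 - ε) * NT.l1Norm x ^ ε) :=
        mul_le_mul e1 e2 hr (Real.exp_pos _).le
    _ = _ := by ring

end

end Pool.Agent.X270.NT.U
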